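import Pool.Agent.T2H96.XS.Jac

/-!
Counting the nondegenerate solutions of a system preserves Borel sets.
-/

set_option autoImplicit false

namespace Pool.Agent.T2H96.XS

open Set Filter Topology Metric MeasureTheory
open scoped Cardinal

section

variable {n : ℕ}

/-- the parameters `s` for which the section of `Z` meets `C` -/
def H {T : Type} (Z : Set (T × Pt n)) (C : Set (Pt n)) : Set T := {s | ∃ x ∈ C, (s, x) ∈ Z}

theorem isClosed_H {T : Type} [TopologicalSpace T] {Z : Set (T × Pt n)} (hZ : IsClosed Z)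
    {C : Set (Pt n)} (hC : IsCompact C) : IsClosed (H Z C) := by
  have h1 : H Z C = Prod.fst '' (Z ∩ (univ ×ˢ C)) := by
    ext s
    constructor
    · rintro ⟨x, hx, hs⟩
      exact ⟨(s, x), ⟨hs, mem_univ _, hx⟩, rfl⟩
    · rintro ⟨⟨s', x⟩, ⟨hs, -, hx⟩, rfl⟩
      exact ⟨x, hx, hs⟩
  have : CompactSpace C := isCompact_iff_compactSpace.1 hC
  have h2 : H Z C = Prod.fst '' ((fun q : T × C => (q.1, (q.2 : Pt n))) ⁻¹' Z) := by
    ext s
    constructor
    · rintro ⟨x, hx, hs⟩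
      exact ⟨(s, ⟨x, hx⟩), hs, rfl⟩
    · rintro ⟨⟨s', x⟩, hs, rfl⟩
      exact ⟨x, x.2, hs⟩
  rw [h2]
  exact isClosedMap_fst_of_compactSpace _ (hZ.preimage (by fun_prop))

/-- the countable family of closed discs -/
noncomputable def K (n : ℕ) (j : ℕ × ℕ) : Set (Pt n) := closedBall (TopologicalSpace.denseSeq (Pt n) j.1) (1 / (j.2 + 1))

theorem isCompact_K (n : ℕ) (j : ℕ × ℕ) : IsCompact (K n j) := isCompact_closedBall _ _

theorem exists_K (x : Pt n) {ε : ℝ} (hε : 0 < ε) : ∃ j, x ∈ K n j ∧ K n j ⊆ ball x ε := by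
  obtain ⟨k, hk⟩ := exists_nat_one_div_lt (show (0 : ℝ) < ε / 2 by positivity)
  have hk0 : (0 : ℝ) < 1 / ((k : ℝ) + 1) := by positivity
  obtain ⟨i, hi⟩ := (TopologicalSpace.denseRange_denseSeq (Pt n)).exists_dist_lt x hk0
  refine ⟨(i, k), ?_, ?_⟩
  · rw [K, mem_closedBall]
    exact hi.le
  · intro y hy
    rw [K, mem_closedBall] at hy
    rw [mem_ball]
    have h1 := dist_triangle y (TopologicalSpace.denseSeq (Pt n) i) x
    have h2 : dist (TopologicalSpace.denseSeq (Pt n) i) x = dist x (TopologicalSpace.denseSeq (Pt n) i) :=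
      dist_comm _ _
    simp only at hy
    linarith

/-- the parameters for which the section has exactly one point in `C` -/
def One {T : Type} (Z : Set (T × Pt n)) (C : Set (Pt n)) : Set T :=
  H Z C \ ⋃ q : (ℕ × ℕ) × (ℕ × ℕ), {s | Disjoint (K n q.1) (K n q.2) ∧ s ∈ H Z (C ∩ K n q.1) ∧
    s ∈ H Z (C ∩ K n q.2)}

theorem one_iff {T : Type} {Z : Set (T × Pt n)} {C : Set (Pt n)} {s : T} :
    s ∈ One Z C ↔ ∃ x ∈ C, (s, x) ∈ Z ∧ ∀ y ∈ C, (s, y) ∈ Z → y = x := by
  constructor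
  · rintro ⟨⟨x, hx, hs⟩, h⟩
    refine ⟨x, hx, hs, fun y hy hys => ?_⟩
    by_contra hne
    apply h
    have hd : 0 < dist y x := dist_pos.2 hne
    obtain ⟨i, hi1, hi2⟩ := exists_K x (show 0 < dist y x / 2 by positivity)
    obtain ⟨j, hj1, hj2⟩ := exists_K y (show 0 < dist y x / 2 by positivity)
    refine mem_iUnion.2 ⟨(i, j), ?_, ⟨x, ⟨hx, hi1⟩, hs⟩, ⟨y, ⟨hy, hj1⟩, hys⟩⟩
    refine Set.disjoint_left.2 fun z hz1 hz2 => ?_
    have h1 := mem_ball.1 (hi2 hz1)
    have h2 := mem_ball.1 (hj2 hz2)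
    have h3 := dist_triangle_left y x z
    linarith
  · rintro ⟨x, hx, hs, huniq⟩
    refine ⟨⟨x, hx, hs⟩, fun h => ?_⟩
    obtain ⟨q, hq, ⟨y, ⟨hy, hyq⟩, hys⟩, ⟨z, ⟨hz, hzq⟩, hzs⟩⟩ := mem_iUnion.1 h
    rw [huniq y hy hys] at hyq
    rw [huniq z hz hzs] at hzq
    exact Set.disjoint_left.1 hq hyq hzq

theorem measurableSet_One {T : Type} [TopologicalSpace T] [MeasurableSpace T]
    [OpensMeasurableSpace T] {Z : Set (T × Pt n)} (hZ : IsClosed Z) {C : Set (Pt n)} (hC : IsCompact C) :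
    MeasurableSet (One Z C) := by
  refine (isClosed_H hZ hC).measurableSet.diff (MeasurableSet.iUnion fun q => ?_)
  by_cases hq : Disjoint (K n q.1) (K n q.2)
  · have : {s | Disjoint (K n q.1) (K n q.2) ∧ s ∈ H Z (C ∩ K n q.1) ∧ s ∈ H Z (C ∩ K n q.2)} =
        H Z (C ∩ K n q.1) ∩ H Z (C ∩ K n q.2) := by
      ext s
      simp [hq]
    rw [this]
    exact (isClosed_H hZ (hC.inter (isCompact_K n _))).measurableSet.inter
      (isClosed_H hZ (hC.inter (isCompact_K n _))).measurableSet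
  · have : {s | Disjoint (K n q.1) (K n q.2) ∧ s ∈ H Z (C ∩ K n q.1) ∧ s ∈ H Z (C ∩ K n q.2)} = ∅ := by
      ext s
      simp [hq]
    rw [this]
    exact MeasurableSet.empty

open Classical in
/-- the point -/
noncomputable def pt {T : Type} (Z : Set (T × Pt n)) (C : Set (Pt n)) (s : T) : Pt n :=
  if h : s ∈ One Z C then (one_iff.1 h).choose else 0

theorem pt_spec {T : Type} {Z : Set (T × Pt n)} {C : Set (Pt n)} {s : T} (h : s ∈ One Z C) :
    pt Z C s ∈ C ∧ (s, pt Z C s) ∈ Z ∧ ∀ y ∈ C, (s, y) ∈ Z → y = pt Z C s := by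
  have e : pt Z C s = (one_iff.1 h).choose := dif_pos h
  rw [e]
  exact (one_iff.1 h).choose_spec

theorem measurable_pt {T : Type} [TopologicalSpace T] [MeasurableSpace T]
    [OpensMeasurableSpace T] {Z : Set (T × Pt n)} (hZ : IsClosed Z) {C : Set (Pt n)} (hC : IsCompact C) :
    Measurable (pt Z C) := by
  refine measurable_of_isClosed fun D hD => ?_
  have h1 := measurableSet_One hZ hC
  have h2 : MeasurableSet (H Z (C ∩ D)) := (isClosed_H hZ (hC.inter_right hD)).measurableSet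
  have h3 : pt Z C ⁻¹' D = (One Z C ∩ H Z (C ∩ D)) ∪ ((One Z C)ᶜ ∩ {_s | (0 : Pt n) ∈ D}) := by
    ext s
    by_cases hs : s ∈ One Z C
    · obtain ⟨p1, p2, p3⟩ := pt_spec hs
      constructor
      · intro h
        exact Or.inl ⟨hs, pt Z C s, ⟨p1, h⟩, p2⟩
      · rintro (⟨-, y, ⟨hy, hyD⟩, hys⟩ | ⟨h, -⟩)
        · show pt Z C s ∈ D
          rw [← p3 y hy hys]
          exact hyD
        · exact absurd hs h
    · have e : pt Z C s = 0 := dif_neg hs
      constructor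
      · intro h
        refine Or.inr ⟨hs, ?_⟩
        have h' : pt Z C s ∈ D := h
        rwa [e] at h'
      · rintro (⟨h, -⟩ | ⟨-, h⟩)
        · exact absurd h hs
        · show pt Z C s ∈ D
          rw [e]
          exact h
  rw [h3]
  exact (h1.inter h2).union (h1.compl.inter (MeasurableSet.const _))

/-- Borel enumeration of the isolated zeros. -/
theorem enum {T : Type} [TopologicalSpace T] [MeasurableSpace T] [OpensMeasurableSpace T]
    {Z : Set (T × Pt n)} (hZ : IsClosed Z) {O : Set T} (hO : MeasurableSet O)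
    (hiso : ∀ s ∈ O, ∀ x, (s, x) ∈ Z → ∃ ε : ℝ, 0 < ε ∧ ∀ y ∈ ball x ε, (s, y) ∈ Z → y = x) :
    ∃ (A : ℕ → Set T) (g : ℕ → T → Pt n), (∀ j, MeasurableSet (A j)) ∧ (∀ j, Measurable (g j)) ∧
      ∀ s x, (s ∈ O ∧ (s, x) ∈ Z) ↔ ∃ j, s ∈ A j ∧ g j s = x := by
  obtain ⟨e, he⟩ := exists_surjective_nat (ℕ × ℕ)
  refine ⟨fun j => O ∩ One Z (K n (e j)), fun j => pt Z (K n (e j)),
    fun j => hO.inter (measurableSet_One hZ (isCompact_K n _)),
    fun j => measurable_pt hZ (isCompact_K n _), fun s x => ?_⟩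
  constructor
  · rintro ⟨hs, hx⟩
    obtain ⟨ε, hε, h⟩ := hiso s hs x hx
    obtain ⟨i, hi1, hi2⟩ := exists_K x hε
    obtain ⟨j, rfl⟩ := he i
    have h1 : s ∈ One Z (K n (e j)) :=
      one_iff.2 ⟨x, hi1, hx, fun y hy hys => h y (hi2 hy) hys⟩
    exact ⟨j, ⟨hs, h1⟩, ((pt_spec h1).2.2 x hi1 hx).symm⟩
  · rintro ⟨j, ⟨hs, h1⟩, rfl⟩
    exact ⟨hs, (pt_spec h1).2.1⟩

/-- the points of a family of functions which lie in the sections of `W` -/
def Pts {T ι : Type} (W : Set (T × Pt n)) (A : ι → Set T) (g : ι → T → Pt n) (s : T) : Set (Pt n) :=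
  {x | (∃ i, s ∈ A i ∧ g i s = x) ∧ (s, x) ∈ W}

theorem Pts_countable {T ι : Type} [Countable ι] (W : Set (T × Pt n)) (A : ι → Set T)
    (g : ι → T → Pt n) (s : T) : (Pts W A g s).Countable := by
  refine (countable_range (fun i => g i s)).mono ?_
  rintro x ⟨⟨i, -, h⟩, -⟩
  exact ⟨i, h⟩

theorem meas_nat {T ι : Type} [MeasurableSpace T] [Countable ι] {W : Set (T × Pt n)}
    (hW : MeasurableSet W) {A : ι → Set T} (hA : ∀ j, MeasurableSet (A j)) {g : ι → T → Pt n}
    (hg : ∀ j, Measurable (g j)) (n : ℕ) :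
    MeasurableSet {s | (n : Cardinal.{0}) ≤ #(Pts W A g s)} := by
  have h1 : {s | (n : Cardinal.{0}) ≤ #(Pts W A g s)} =
      ⋃ v : Fin n → ι, {s | (∀ i, s ∈ A (v i) ∧ (s, g (v i) s) ∈ W) ∧
        ∀ i i', i ≠ i' → g (v i) s ≠ g (v i') s} := by
    ext s
    simp only [Set.mem_ofPred_eq, mem_iUnion]
    constructor
    · intro h
      rw [← Cardinal.mk_fin n] at h
      obtain ⟨f⟩ := Cardinal.le_def _ _ |>.1 h
      choose v hv1 hv2 using fun i => (f i).2.1
      refine ⟨v, fun i => ⟨hv1 i, ?_⟩, fun i i' hne h' => ?_⟩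
      · rw [hv2 i]
        exact (f i).2.2
      · rw [hv2 i, hv2 i'] at h'
        exact hne (f.injective (Subtype.ext h'))
    · rintro ⟨v, hv, hd⟩
      rw [← Cardinal.mk_fin n]
      refine Cardinal.mk_le_of_injective
        (f := fun i : Fin n => (⟨g (v i) s, ⟨v i, (hv i).1, rfl⟩, (hv i).2⟩ : Pts W A g s)) ?_
      intro i i' h
      by_contra hne
      exact hd i i' hne (congrArg Subtype.val h)
  rw [h1]
  refine MeasurableSet.iUnion fun v => ?_
  have e : {s | (∀ i, s ∈ A (v i) ∧ (s, g (v i) s) ∈ W) ∧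
        ∀ i i', i ≠ i' → g (v i) s ≠ g (v i') s} =
      (⋂ i, (A (v i) ∩ (fun s => (s, g (v i) s)) ⁻¹' W)) ∩
        ⋂ i, ⋂ i', {s | i ≠ i' → g (v i) s ≠ g (v i') s} := by
    ext s
    simp
  rw [e]
  refine (MeasurableSet.iInter fun i => (hA _).inter ?_).inter
    (MeasurableSet.iInter fun i => MeasurableSet.iInter fun i' => ?_)
  · exact (measurable_id.prodMk (hg _)) hW
  · by_cases h : i = i'
    · subst h
      simp
    · have : {s | i ≠ i' → g (v i) s ≠ g (v i') s} = {s | g (v i) s = g (v i') s}ᶜ := by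
        ext s
        simp [h]
      rw [this]
      exact (measurableSet_eq_fun (hg _) (hg _)).compl

theorem meas_card {T ι : Type} [MeasurableSpace T] [Countable ι] {W : Set (T × Pt n)}
    (hW : MeasurableSet W) {A : ι → Set T} (hA : ∀ j, MeasurableSet (A j)) {g : ι → T → Pt n}
    (hg : ∀ j, Measurable (g j)) (κ : Cardinal.{0}) :
    MeasurableSet {s | κ ≤ #(Pts W A g s)} := by
  rcases lt_trichotomy κ ℵ₀ with h | h | h
  · obtain ⟨n, rfl⟩ := Cardinal.lt_aleph0.1 h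
    exact meas_nat hW hA hg n
  · subst h
    have : {s | ℵ₀ ≤ #(Pts W A g s)} = ⋂ n : ℕ, {s | (n : Cardinal.{0}) ≤ #(Pts W A g s)} := by
      ext s
      simp only [Set.mem_ofPred_eq, mem_iInter]
      exact Cardinal.aleph0_le
    rw [this]
    exact MeasurableSet.iInter fun n => meas_nat hW hA hg n
  · have : {s | κ ≤ #(Pts W A g s)} = ∅ := by
      ext s
      simp only [Set.mem_ofPred_eq, mem_empty_iff_false, iff_false, not_le]
      exact lt_of_le_of_lt (Cardinal.le_aleph0_iff_set_countable.2 (Pts_countable W A g s)) h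
    rw [this]
    exact MeasurableSet.empty


theorem slice_fderiv {P : Type} [NormedAddCommGroup P] [NormedSpace ℂ P] {g : P × Pt n → Pt n}
    (hg : AnalyticOnNhd ℂ g univ) (p : P × Pt n) (i j : Fin n) :
    pJ (fun y => g (p.1, y)) p.2 i j = fderiv ℂ g p (0, Pi.single j 1) i := by
  have h1 : HasFDerivAt g (fderiv ℂ g (p.1, p.2)) (p.1, p.2) :=
    (hg p (mem_univ _)).differentiableAt.hasFDerivAt
  have h2 : HasFDerivAt (fun y => g (p.1, y)) (fderiv ℂ g p ∘L .inr ℂ P (Pt n)) p.2 :=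
    h1.comp p.2 (hasFDerivAt_prodMk_right p.1 p.2)
  unfold pJ
  rw [Matrix.of_apply, h2.fderiv]
  simp

theorem det_continuous {P : Type} [NormedAddCommGroup P] [NormedSpace ℂ P] {g : P × Pt n → Pt n}
    (hg : AnalyticOnNhd ℂ g univ) :
    Continuous fun p : P × Pt n => (pJ (fun y => g (p.1, y)) p.2).det := by
  refine Continuous.matrix_det ?_
  refine continuous_matrix fun i j => ?_
  have h1 : Continuous (fderiv ℂ g) := continuousOn_univ.1 (hg.fderiv.continuousOn)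
  have h2 : Continuous fun p => fderiv ℂ g p (0, Pi.single j 1) i :=
    (continuous_apply i).comp (h1.clm_apply continuous_const)
  refine h2.congr fun p => ?_
  exact (slice_fderiv hg p i j).symm

theorem sol_isolated {m : ℕ} {G : Pt m → Pt n → Pt n}
    (hG : AnalyticOnNhd ℂ (fun p : Pt m × Pt n => G p.1 p.2) univ) {s : Pt m} {x : Pt n}
    (h0 : G s x = 0) (h1 : (pJ (G s) x).det ≠ 0) :
    ∃ ε : ℝ, 0 < ε ∧ ∀ y ∈ ball x ε, G s y = 0 → y = x := by
  have hg : AnalyticOnNhd ℂ (fun p : ℂ × Pt n => G s p.2) (univ ×ˢ univ) := by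
    rintro ⟨t, y⟩ -
    have h2 : AnalyticAt ℂ (fun p : ℂ × Pt n => (s, p.2)) (t, y) :=
      analyticAt_const.prod analyticAt_snd
    exact (hG (s, y) (mem_univ _)).comp (f := fun p : ℂ × Pt n => (s, p.2)) (x := (t, y)) h2
  obtain ⟨φ, -, hφx, hev⟩ := ift_n hg (p := ((0 : ℂ), x)) (mem_univ _) h0 h1
  have hcont : Tendsto (fun y : Pt n => ((0 : ℂ), y)) (𝓝 x) (𝓝 ((0 : ℂ), x)) :=
    tendsto_const_nhds.prodMk_nhds tendsto_id
  obtain ⟨ε, hε, h⟩ := Metric.eventually_nhds_iff_ball.1 (hcont.eventually hev)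
  refine ⟨ε, hε, fun y hy hy0 => ?_⟩
  have h2 : y = φ 0 := (h y hy).1 hy0
  rw [h2]
  exact hφx

theorem meas_sys {m : ℕ} {δ : Pt m → ℂ} {G : Pt m → Pt n → Pt n} {Λ : Pt m → Pt n → ℂ}
    (hδ : AnalyticOnNhd ℂ δ univ)
    (hG : AnalyticOnNhd ℂ (fun p : Pt m × Pt n => G p.1 p.2) univ)
    (hΛ : AnalyticOnNhd ℂ (fun p : Pt m × Pt n => Λ p.1 p.2) univ)
    {X : Set (Fin (m + n) → ℂ)} (hX : MeasurableSet X) (κ : Cardinal.{0}) :
    MeasurableSet {s : Pt m | κ ≤ #({x : Pt n | IsSol δ G Λ s x ∧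
      (Fin.append s x : Fin (m + n) → ℂ) ∈ X} : Set (Pt n))} := by
  have hGc : Continuous (fun p : Pt m × Pt n => G p.1 p.2) := continuousOn_univ.1 hG.continuousOn
  have hΛc : Continuous (fun p : Pt m × Pt n => Λ p.1 p.2) := continuousOn_univ.1 hΛ.continuousOn
  have hδc : Continuous δ := continuousOn_univ.1 hδ.continuousOn
  have hdc : Continuous (fun p : Pt m × Pt n => (pJ (G p.1) p.2).det) :=
    det_continuous (g := fun p : Pt m × Pt n => G p.1 p.2) hG
  set Z : Set (Pt m × Pt n) := {p | G p.1 p.2 = 0} with hZdef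
  have hZ : IsClosed Z := isClosed_eq hGc continuous_const
  set S : Set (Pt m × Pt n) := {p | IsSol δ G Λ p.1 p.2} with hSdef
  have hS : MeasurableSet S := by
    have e : S = {p : Pt m × Pt n | δ p.1 ≠ 0} ∩ (Z ∩ ({p : Pt m × Pt n | (pJ (G p.1) p.2).det ≠ 0} ∩
        {p : Pt m × Pt n | Λ p.1 p.2 ≠ 0})) := rfl
    rw [e]
    exact (isOpen_ne_fun (hδc.comp continuous_fst) continuous_const).measurableSet.inter
      (hZ.measurableSet.inter ((isOpen_ne_fun hdc continuous_const).measurableSet.inter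
        (isOpen_ne_fun hΛc continuous_const).measurableSet))
  obtain ⟨e, he⟩ := exists_surjective_nat (ℕ × ℕ)
  set g : ℕ → Pt m → Pt n := fun j => pt Z (K n (e j)) with hg
  set A : ℕ → Set (Pt m) := fun j => One Z (K n (e j)) ∩ (fun s => (s, g j s)) ⁻¹' S with hA
  have hgm : ∀ j, Measurable (g j) := fun j => measurable_pt hZ (isCompact_K n _)
  have hAm : ∀ j, MeasurableSet (A j) := fun j =>
    (measurableSet_One hZ (isCompact_K n _)).inter ((measurable_id.prodMk (hgm j)) hS)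
  have henum : ∀ s x, IsSol δ G Λ s x ↔ ∃ j, s ∈ A j ∧ g j s = x := by
    intro s x
    constructor
    · intro hx
      obtain ⟨ε, hε, h⟩ := sol_isolated hG hx.2.1 hx.2.2.1
      obtain ⟨i, hi1, hi2⟩ := exists_K x hε
      obtain ⟨j, rfl⟩ := he i
      have h1 : s ∈ One Z (K n (e j)) :=
        one_iff.2 ⟨x, hi1, hx.2.1, fun y hy hys => h y (hi2 hy) hys⟩
      have h2 : g j s = x := ((pt_spec h1).2.2 x hi1 hx.2.1).symm
      refine ⟨j, ⟨h1, ?_⟩, h2⟩
      show (s, g j s) ∈ S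
      rw [h2]
      exact hx
    · rintro ⟨j, ⟨-, h1⟩, rfl⟩
      exact h1
  set W : Set (Pt m × Pt n) := {p | (Fin.append p.1 p.2 : Fin (m + n) → ℂ) ∈ X} with hWdef
  have hap : Measurable (fun p : Pt m × Pt n => (Fin.append p.1 p.2 : Fin (m + n) → ℂ)) := by
    refine measurable_pi_iff.2 fun j => ?_
    refine Fin.addCases (fun j => ?_) (fun j => ?_) j
    · simp only [Fin.append_left]
      exact (measurable_pi_apply j).comp measurable_fst
    · simp only [Fin.append_right]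
      exact (measurable_pi_apply j).comp measurable_snd
  have hW : MeasurableSet W := hap hX
  have hset : ∀ s, {x : Pt n | IsSol δ G Λ s x ∧ (Fin.append s x : Fin (m + n) → ℂ) ∈ X} =
      Pts W A g s := by
    intro s
    ext x
    exact and_congr (henum s x) Iff.rfl
  simp_rw [hset]
  exact meas_card hW hAm hgm κ

end

end Pool.Agent.T2H96.XS
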