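import Pool.Agent.T2H96.XS.Poly

/-!
A criterion for exponential systems: on the solutions every exponential is a root of a polynomial whose
coefficients are functions of polynomial growth.
-/

set_option autoImplicit false

namespace Pool.Agent.T2H96.XS

open Set Filter Topology Metric

theorem elim_expSys {m n : ℕ} {d : Fin n → ℕ} (hd : ∀ i, 1 ≤ d i)
    {a : (i : Fin n) → Fin (d i + 1) → Pt m → Pt n → ℂ}
    (ha : ∀ i j, AnalyticOnNhd ℂ (fun p : Pt m × Pt n => a i j p.1 p.2) univ)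
    (hag : ∀ i j, PolyGrowth (a i j)) {δ : Pt m → ℂ} (hδ : AnalyticOnNhd ℂ δ univ)
    {E : Pt m → Pt n → Pt n} (hE : AnalyticOnNhd ℂ (fun p : Pt m × Pt n => E p.1 p.2) univ)
    (hEg : PolyGrowth E) (hEp : ∀ s₀, δ s₀ ≠ 0 → ∃ (A : ℝ) (ρ : ℕ), ∀ᶠ s in 𝓝 s₀, ∀ x,
      ‖x‖ ≤ A * (1 + ‖E s x‖) ^ ρ)
    {G : Pt m → Pt n → Pt n} (hG : AnalyticOnNhd ℂ (fun p : Pt m × Pt n => G p.1 p.2) univ)
    (hGb : ∀ s₀, ∃ (A : ℝ) (ρ : ℕ), ∀ᶠ s in 𝓝 s₀, ∀ x : Pt n,
      ‖G s x‖ ≤ A * ((1 + ‖x‖) * ∏ i, max 1 ‖Complex.exp (E s x i)‖) ^ ρ)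
    (h0 : ∀ s x, G s x = 0 → (pJ (G s) x).det ≠ 0 →
      ∀ i, ∑ j, a i j s x * Complex.exp (E s x i) ^ (j : ℕ) = 0) :
    ExpSys δ G E (fun s x => ∏ i, a i (Fin.last (d i)) s x) := by
  classical
  have hP := poly_expSys hd ha hag hδ hE hEg hEp
  refine ⟨hδ, hG, hE, hP.an_L, ?_⟩
  intro s₀ hs₀
  obtain ⟨A, ρ, hA⟩ := poly_bd hd hag hEg hEp s₀ hs₀
  obtain ⟨B, σ, hB⟩ := hGb s₀
  refine ⟨|A| + |B|, ρ + σ, ?_⟩
  filter_upwards [hA, hB] with s hs1 hs2 x
  obtain ⟨h1, h2, h3, h4, h5⟩ := hs1 x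
  have hX : 1 ≤ 1 + ‖x‖ := by linarith [norm_nonneg x]
  have hY : 1 ≤ 1 + ‖E s x‖ := by linarith [norm_nonneg (E s x)]
  have hw1 : 1 ≤ ∏ i, max 1 ‖Complex.exp (E s x i)‖ := by
    calc (1 : ℝ) = ∏ _i : Fin n, (1 : ℝ) := by simp
      _ ≤ _ := Finset.prod_le_prod (fun _ _ => zero_le_one) (fun i _ => le_max_left _ _)
  have hXw : 1 ≤ (1 + ‖x‖) * ∏ i, max 1 ‖Complex.exp (E s x i)‖ := by nlinarith
  have hAB : A ≤ |A| + |B| := by linarith [le_abs_self A, abs_nonneg B]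
  have hBA : B ≤ |A| + |B| := by linarith [le_abs_self B, abs_nonneg A]
  have hAB0 : 0 ≤ |A| + |B| := by positivity
  refine ⟨h1.trans (pow_up hX hAB hAB0 (by omega)), h2.trans (pow_up hX hAB hAB0 (by omega)),
    h3.trans (pow_up hY hAB hAB0 (by omega)), (hs2 x).trans (pow_up hXw hBA hAB0 (by omega)), ?_⟩
  intro hx hJ i
  exact (h5 (h0 s x hx hJ) i).trans (pow_up hX hAB hAB0 (by omega))

/-- the growth of polynomials in the exponentials -/
theorem poly_bound {m n N : ℕ} {c : Fin n → Fin N → Pt m → Pt n → ℂ}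
    (hc : ∀ i l, PolyGrowth (c i l)) (e : Fin n → Fin N → Fin n → ℕ) (E : Pt m → Pt n → Pt n)
    (s₀ : Pt m) :
    ∃ (A : ℝ) (ρ : ℕ), ∀ᶠ s in 𝓝 s₀, ∀ x : Pt n,
      ‖(fun i => ∑ l, c i l s x * ∏ k, Complex.exp (E s x k) ^ e i l k : Pt n)‖ ≤
        A * ((1 + ‖x‖) * ∏ i, max 1 ‖Complex.exp (E s x i)‖) ^ ρ := by
  classical
  obtain ⟨A, ρ, hA1, hρ1, hA⟩ := PolyGrowth.common
    (f := fun (il : Fin n × Fin N) => c il.1 il.2) (fun il => hc il.1 il.2) s₀
  set D : ℕ := ∑ i, ∑ l, ∑ k, e i l k with hD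
  have heD : ∀ i l k, e i l k ≤ D := by
    intro i l k
    calc e i l k ≤ ∑ k, e i l k :=
          Finset.single_le_sum (f := fun k => e i l k) (fun _ _ => Nat.zero_le _) (Finset.mem_univ k)
      _ ≤ ∑ l, ∑ k, e i l k :=
          Finset.single_le_sum (f := fun l => ∑ k, e i l k) (fun _ _ => Nat.zero_le _)
            (Finset.mem_univ l)
      _ ≤ D := Finset.single_le_sum (f := fun i => ∑ l, ∑ k, e i l k) (fun _ _ => Nat.zero_le _)
            (Finset.mem_univ i)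
  refine ⟨N * A, ρ + D, ?_⟩
  filter_upwards [hA] with s hs x
  have hX : 1 ≤ 1 + ‖x‖ := by linarith [norm_nonneg x]
  set w : ℝ := ∏ i, max 1 ‖Complex.exp (E s x i)‖ with hw
  have hw1 : 1 ≤ w := by
    calc (1 : ℝ) = ∏ _i : Fin n, (1 : ℝ) := by simp
      _ ≤ _ := Finset.prod_le_prod (fun _ _ => zero_le_one) (fun i _ => le_max_left _ _)
  have h0 : 0 ≤ N * A * ((1 + ‖x‖) * w) ^ (ρ + D) := by positivity
  rw [pi_norm_le_iff_of_nonneg h0]
  intro i
  have h1 : ∀ l, ‖∏ k, Complex.exp (E s x k) ^ e i l k‖ ≤ w ^ D := by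
    intro l
    rw [norm_prod]
    calc ∏ k, ‖Complex.exp (E s x k) ^ e i l k‖
        ≤ ∏ k, (max 1 ‖Complex.exp (E s x k)‖) ^ D := by
          apply Finset.prod_le_prod (fun _ _ => norm_nonneg _)
          intro k _
          rw [norm_pow]
          calc ‖Complex.exp (E s x k)‖ ^ e i l k ≤ (max 1 ‖Complex.exp (E s x k)‖) ^ e i l k :=
                pow_le_pow_left₀ (norm_nonneg _) (le_max_right _ _) _
            _ ≤ _ := pow_le_pow_right₀ (le_max_left _ _) (heD i l k)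
      _ = w ^ D := by rw [Finset.prod_pow]
  calc ‖∑ l, c i l s x * ∏ k, Complex.exp (E s x k) ^ e i l k‖
      ≤ ∑ l, ‖c i l s x * ∏ k, Complex.exp (E s x k) ^ e i l k‖ := norm_sum_le _ _
    _ ≤ ∑ _l : Fin N, (A * (1 + ‖x‖) ^ ρ) * w ^ D := Finset.sum_le_sum fun l _ => by
        rw [norm_mul]
        exact mul_le_mul (hs x (i, l)) (h1 l) (norm_nonneg _) (by positivity)
    _ = N * A * ((1 + ‖x‖) ^ ρ * w ^ D) := by
        rw [Finset.sum_const, Finset.card_univ, Fintype.card_fin, nsmul_eq_mul]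
        ring
    _ ≤ N * A * ((1 + ‖x‖) ^ (ρ + D) * w ^ (ρ + D)) := by
        apply mul_le_mul_of_nonneg_left _ (by positivity)
        exact mul_le_mul (pow_le_pow_right₀ hX (by omega)) (pow_le_pow_right₀ hw1 (by omega))
          (by positivity) (by positivity)
    _ = N * A * ((1 + ‖x‖) * w) ^ (ρ + D) := by rw [mul_pow]

/-- systems of `n` equations, polynomial in the exponentials of the unknowns `x₁, …, x_n` with coefficients
of polynomial growth, on whose nondegenerate solutions every `exp x_i` is a root of a polynomial with coefficients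
of polynomial growth -/
theorem poly_sys {m n N : ℕ} {c : Fin n → Fin N → Pt m → Pt n → ℂ}
    (hca : ∀ i l, AnalyticOnNhd ℂ (fun p : Pt m × Pt n => c i l p.1 p.2) univ)
    (hc : ∀ i l, PolyGrowth (c i l)) (e : Fin n → Fin N → Fin n → ℕ) {d : Fin n → ℕ}
    (hd : ∀ i, 1 ≤ d i) {a : (i : Fin n) → Fin (d i + 1) → Pt m → Pt n → ℂ}
    (haa : ∀ i j, AnalyticOnNhd ℂ (fun p : Pt m × Pt n => a i j p.1 p.2) univ)
    (ha : ∀ i j, PolyGrowth (a i j))
    (h : ∀ s x, (∀ i, ∑ l, c i l s x * ∏ k, Complex.exp (x k) ^ e i l k = 0) →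
      (pJ (fun (x : Pt n) i => ∑ l, c i l s x * ∏ k, Complex.exp (x k) ^ e i l k) x).det ≠ 0 →
      ∀ i, ∑ j, a i j s x * Complex.exp (x i) ^ (j : ℕ) = 0) :
    ExpSys (fun _ => 1) (fun s x i => ∑ l, c i l s x * ∏ k, Complex.exp (x k) ^ e i l k)
      (fun _ x => x) (fun s x => ∏ i, a i (Fin.last (d i)) s x) := by
  have hE : AnalyticOnNhd ℂ (fun p : Pt m × Pt n => p.2) univ := fun p _ => analyticAt_snd
  refine elim_expSys hd haa ha (fun _ _ => analyticAt_const) hE ?_ ?_ ?_ ?_ ?_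
  · intro s₀
    refine ⟨1, 1, Eventually.of_forall fun s x => ?_⟩
    simp only [one_mul, pow_one]
    linarith [norm_nonneg x]
  · intro s₀ _
    refine ⟨1, 1, Eventually.of_forall fun s x => ?_⟩
    simp only [one_mul, pow_one]
    linarith [norm_nonneg x]
  · intro p hp
    rw [analyticAt_pi_iff]
    intro i
    refine Finset.analyticAt_fun_sum _ fun l _ => (hca i l p hp).mul ?_
    refine Finset.analyticAt_fun_prod _ fun k _ => ?_
    exact ((analyticAt_pi_iff.1 (hE p hp)) k).cexp.pow _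
  · exact poly_bound hc e (fun _ x => x)
  · intro s x h0 hJ i
    exact h s x (fun i => congrFun h0 i) hJ i

end Pool.Agent.T2H96.XS
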