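import Pool.Agent.T2H96.XS.Cnt

/-!
The quantifier over the nondegenerate solutions of an exponential system.
-/

set_option autoImplicit false

namespace Pool.Agent.T2H96.XS

open Set Filter Topology Metric Cardinal
open Pool.Agent.TH735.QM Pool.Agent.TH735.FO

theorem comp_analytic {m n : ℕ} {F : Type*} [NormedAddCommGroup F] [NormedSpace ℂ F] {U : Set ℂ}
    {γ : ℂ → Pt m} (hγ : AnalyticOnNhd ℂ γ U) {G : Pt m → Pt n → F}
    (hG : AnalyticOnNhd ℂ (fun p : Pt m × Pt n => G p.1 p.2) Set.univ) :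
    AnalyticOnNhd ℂ (fun p : ℂ × Pt n => G (γ p.1) p.2) (U ×ˢ Set.univ) := by
  rintro ⟨t, x⟩ ⟨ht, -⟩
  have h1 : AnalyticAt ℂ (fun p : ℂ × Pt n => (γ p.1, p.2)) (t, x) :=
    ((hγ t ht).comp (f := fun p : ℂ × Pt n => p.1) (x := (t, x)) analyticAt_fst).prod
      analyticAt_snd
  exact (hG (γ t, x) (mem_univ _)).comp (f := fun p : ℂ × Pt n => (γ p.1, p.2))
    (x := (t, x)) h1

/-- the count along an analytic curve -/
theorem sys_count {m n : ℕ} {δ : Pt m → ℂ} {G E : Pt m → Pt n → Pt n} {Λ : Pt m → Pt n → ℂ}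
    (h : ExpSys δ G E Λ) {U : Set ℂ} (hU : IsOpen U) (hUc : IsPreconnected U) {γ : ℂ → Pt m}
    (hγ : AnalyticOnNhd ℂ γ U) {Y : ℂ → Pt n → Prop} (hY : LQN U Y) (κ : Cardinal.{0}) :
    QmOn U {t | κ ≤ #({x : Pt n | IsSol δ G Λ (γ t) x ∧ Y t x} : Set (Pt n))} := by
  have hd : AnalyticOnNhd ℂ (fun t => δ (γ t)) U := fun t ht =>
    (h.an_d (γ t) (mem_univ _)).comp (hγ t ht)
  by_cases hne : ∃ t ∈ U, δ (γ t) ≠ 0
  · have hB := zeros_countableOn hUc hd hne
    refine genCardN (B₀ := U ∩ {t | δ (γ t) = 0}) ?_ hB ?_ κ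
    · intro k
      refine QmOn.of_local hU hUc hB ?_
      intro t₀ ht₀ ht₀B
      have hd0 : δ (γ t₀) ≠ 0 := fun h0 => ht₀B ⟨ht₀, h0⟩
      obtain ⟨A, ρ, hA⟩ := h.bd (γ t₀) hd0
      have hev := (hγ t₀ ht₀).continuousAt.eventually hA
      have hev2 : ∀ᶠ t in 𝓝 t₀, δ (γ t) ≠ 0 := (hd t₀ ht₀).continuousAt.eventually_ne hd0
      obtain ⟨R, hR, hR'⟩ := Metric.eventually_nhds_iff_ball.1 ((hev.and hev2).and (hU.mem_nhds ht₀))
      refine ⟨R, hR, ?_⟩
      have hsub : ball t₀ R ⊆ U := fun t ht => (hR' t ht).2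
      have hγ' : AnalyticOnNhd ℂ γ (ball t₀ R) := fun t ht => hγ t (hsub ht)
      set A' := max A 1 with hA'
      have hA1 : 1 ≤ A' := le_max_right _ _
      have hAA : A ≤ A' := le_max_left _ _
      have hpow : ∀ b : ℝ, 1 ≤ b → A * b ^ ρ ≤ A' * b ^ (ρ + 1) := by
        intro b hb
        have h0 : 0 ≤ b ^ ρ := by positivity
        calc A * b ^ ρ ≤ A' * b ^ ρ := mul_le_mul_of_nonneg_right hAA h0
          _ ≤ A' * b ^ (ρ + 1) := by
            apply mul_le_mul_of_nonneg_left _ (by linarith)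
            exact pow_le_pow_right₀ hb (by omega)
      have hx1 : ∀ {F : Type} [NormedAddCommGroup F] (x : F), (1 : ℝ) ≤ 1 + ‖x‖ := by
        intro F _ x
        linarith [norm_nonneg x]
      have hCtl : Ctl (ball t₀ R) (fun p : ℂ × Pt n => G (γ p.1) p.2)
          (fun p : ℂ × Pt n => E (γ p.1) p.2) (fun p : ℂ × Pt n => Λ (γ p.1) p.2) A' (ρ + 1) :=
        { op := isOpen_ball
          ang := comp_analytic hγ' h.an_G
          anE := comp_analytic hγ' h.an_E
          anL := comp_analytic hγ' h.an_L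
          A1 := hA1
          r1 := by omega
          bL := fun t ht x => ((hR' t ht).1.1 x).1.trans (hpow _ (hx1 x))
          bE := fun t ht x => ((hR' t ht).1.1 x).2.1.trans (hpow _ (hx1 x))
          bp := fun t ht x => ((hR' t ht).1.1 x).2.2.1.trans (hpow _ (hx1 (E (γ t) x)))
          bg := fun t ht x => ((hR' t ht).1.1 x).2.2.2.1.trans (hpow _ (by
            have h1 := hx1 x
            have h2 := one_le_wt (E (γ t) x)
            have : (1 : ℝ) * 1 ≤ (1 + ‖x‖) * wt (E (γ t) x) :=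
              mul_le_mul h1 h2 zero_le_one (by linarith)
            rw [one_mul] at this
            exact this))
          bz := fun t ht x hx hJ i =>
            (((hR' t ht).1.1 x).2.2.2.2 hx hJ i).trans (hpow _ (hx1 x)) }
      have hloc := local_count hCtl (Y := Y) (hY.mono hsub) k
      refine hloc.congr' ?_
      intro t ht
      have hset : {x : Pt n | IsSol δ G Λ (γ t) x ∧ Y t x} =
          {x : Pt n | (G (γ t) x = 0 ∧ Jd (fun p : ℂ × Pt n => G (γ p.1) p.2) (t, x) ≠ 0 ∧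
            Λ (γ t) x ≠ 0) ∧ Y t x} := by
        ext x
        constructor
        · rintro ⟨h1, h2⟩
          exact ⟨h1.2, h2⟩
        · rintro ⟨h1, h2⟩
          exact ⟨⟨(hR' t ht).1.2, h1⟩, h2⟩
      simp only [Set.mem_ofPred_eq]
      rw [hset]
    · intro t ht _
      have hZ := br_of_jac hU (comp_analytic hγ h.an_G) (comp_analytic hγ h.an_L)
      refine (sol_countable hZ t).mono ?_
      rintro x ⟨h1, -⟩
      exact ⟨ht, h1.2⟩
  · push Not at hne
    have hset : ∀ t ∈ U, {x : Pt n | IsSol δ G Λ (γ t) x ∧ Y t x} = ∅ := by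
      intro t ht
      rw [Set.eq_empty_iff_forall_notMem]
      rintro x ⟨h1, -⟩
      exact h1.1 (hne t ht)
    refine (QmOn.const (κ ≤ #((∅ : Set (Pt n)) : Set (Pt n)))).congr' ?_
    intro t ht
    simp only [Set.mem_ofPred_eq]
    rw [hset t ht]

theorem CQ.sys {m n : ℕ} {δ : Pt m → ℂ} {G E : Pt m → Pt n → Pt n} {Λ : Pt m → Pt n → ℂ}
    (h : ExpSys δ G E Λ) {X : Set (Fin (m + n) → ℂ)} (hX : CQ (m + n) X) (κ : Cardinal.{0}) :
    CQ m {s : Pt m | κ ≤ #({x : Pt n | IsSol δ G Λ s x ∧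
      (Fin.append s x : Fin (m + n) → ℂ) ∈ X} : Set (Pt n))} :=
  fun _ hU hUc _ hγ => sys_count h hU hUc hγ (LQN.CQ hγ hX) κ

end Pool.Agent.T2H96.XS
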