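import Pool.Agent.T2H96.XS.Defs

/-!
The nondegenerate zeros of a system of `n` equations in `n` unknowns depend locally analytically on the parameter.
-/

set_option autoImplicit false

namespace Pool.Agent.T2H96.XS

open Set Filter Topology Metric

theorem slice_hasFDerivAt {n : ℕ} {U : Set ℂ} {g : ℂ × Pt n → Pt n}
    (hg : AnalyticOnNhd ℂ g (U ×ˢ univ)) {p : ℂ × Pt n} (hp : p.1 ∈ U) :
    HasFDerivAt (fun y => g (p.1, y)) (fderiv ℂ g p ∘L .inr ℂ ℂ (Pt n)) p.2 := by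
  have h1 : HasFDerivAt g (fderiv ℂ g (p.1, p.2)) (p.1, p.2) :=
    (hg p ⟨hp, mem_univ _⟩).differentiableAt.hasFDerivAt
  exact h1.comp p.2 (hasFDerivAt_prodMk_right p.1 p.2)

theorem pJ_eq {n : ℕ} {U : Set ℂ} {g : ℂ × Pt n → Pt n} (hg : AnalyticOnNhd ℂ g (U ×ˢ univ))
    {p : ℂ × Pt n} (hp : p.1 ∈ U) (i j : Fin n) :
    pJ (fun y => g (p.1, y)) p.2 i j = fderiv ℂ g p (0, Pi.single j 1) i := by
  unfold pJ
  rw [Matrix.of_apply, (slice_hasFDerivAt hg hp).fderiv]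
  simp

theorem Jd_analytic {n : ℕ} {U : Set ℂ} (hU : IsOpen U) {g : ℂ × Pt n → Pt n}
    (hg : AnalyticOnNhd ℂ g (U ×ˢ univ)) : AnalyticOnNhd ℂ (Jd g) (U ×ˢ univ) := by
  have h1 : ∀ i j : Fin n, AnalyticOnNhd ℂ (fun p => fderiv ℂ g p (0, Pi.single j 1) i)
      (U ×ˢ univ) := by
    intro i j p hp
    have h2 : AnalyticAt ℂ (fun p => fderiv ℂ g p) p := (hg.fderiv) p hp
    have h3 : AnalyticAt ℂ (fun p => fderiv ℂ g p ((0, Pi.single j 1) : ℂ × Pt n)) p :=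
      ((ContinuousLinearMap.apply ℂ (Pt n) ((0, Pi.single j 1) : ℂ × Pt n)).analyticAt _).comp h2
    exact (analyticAt_pi_iff.1 h3) i
  have h2 : AnalyticOnNhd ℂ (fun p => (Matrix.of fun i j : Fin n =>
      fderiv ℂ g p (0, Pi.single j 1) i).det) (U ×ˢ univ) := by
    intro p hp
    simp_rw [Matrix.det_apply']
    refine Finset.analyticAt_fun_sum _ fun σ _ => analyticAt_const.mul ?_
    refine Finset.analyticAt_fun_prod _ fun i _ => ?_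
    exact h1 _ _ p hp
  refine h2.congr (hU.prod isOpen_univ) ?_
  intro p hp
  have e : (Matrix.of fun i j : Fin n => fderiv ℂ g p (0, Pi.single j 1) i) =
      pJ (fun y => g (p.1, y)) p.2 := by
    ext i j
    rw [pJ_eq hg hp.1]
    rfl
  show (Matrix.of fun i j : Fin n => fderiv ℂ g p (0, Pi.single j 1) i).det = Jd g p
  rw [e]
  rfl

theorem inv_of_det {n : ℕ} {L : Pt n →L[ℂ] Pt n}
    (h : (Matrix.of fun i j : Fin n => L (Pi.single j 1) i).det ≠ 0) : L.IsInvertible := by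
  have h1 : LinearMap.toMatrix' (L : Pt n →ₗ[ℂ] Pt n) =
      Matrix.of fun i j : Fin n => L (Pi.single j 1) i := by
    ext i j
    rw [LinearMap.toMatrix'_apply]
    rfl
  have h2 : IsUnit (LinearMap.det (L : Pt n →ₗ[ℂ] Pt n)) := by
    rw [← LinearMap.det_toMatrix', h1]
    exact isUnit_iff_ne_zero.2 h
  refine ⟨(LinearEquiv.ofIsUnitDet (f := (L : Pt n →ₗ[ℂ] Pt n))
    (v := Pi.basisFun ℂ (Fin n)) (v' := Pi.basisFun ℂ (Fin n)) ?_).toContinuousLinearEquiv, ?_⟩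
  · rw [LinearMap.toMatrix_eq_toMatrix', h1]
    exact isUnit_iff_ne_zero.2 h
  · ext x
    rfl

theorem ift_n {n : ℕ} {U : Set ℂ} {g : ℂ × Pt n → Pt n} (hg : AnalyticOnNhd ℂ g (U ×ˢ univ))
    {p : ℂ × Pt n} (hp : p.1 ∈ U) (h0 : g p = 0) (h1 : Jd g p ≠ 0) :
    ∃ φ : ℂ → Pt n, AnalyticAt ℂ φ p.1 ∧ φ p.1 = p.2 ∧
      ∀ᶠ q : ℂ × Pt n in 𝓝 p, (g q = 0 ↔ q.2 = φ q.1) := by
  have han : AnalyticAt ℂ g p := hg p ⟨hp, mem_univ _⟩
  have hcd : ContDiffAt ℂ ⊤ g p := han.contDiffAt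
  have hinv : (fderiv ℂ g p ∘L .inr ℂ ℂ (Pt n)).IsInvertible := by
    apply inv_of_det
    intro hdet
    apply h1
    unfold Jd
    rw [← hdet]
    congr 1
    ext i j
    rw [pJ_eq hg hp]
    simp
  refine ⟨hcd.implicitFunction (by simp) hinv,
    (hcd.contDiffAt_implicitFunction (by simp) hinv).analyticAt,
    hcd.implicitFunction_apply_self (by simp) hinv, ?_⟩
  filter_upwards [hcd.eventually_apply_eq_iff_implicitFunction (by simp) hinv] with q hq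
  rw [h0] at hq
  rw [hq]
  exact eq_comm

theorem br_of_jac {n : ℕ} {U : Set ℂ} (hU : IsOpen U) {g : ℂ × Pt n → Pt n}
    (hg : AnalyticOnNhd ℂ g (U ×ˢ univ)) {Λ : ℂ × Pt n → ℂ} (hΛ : AnalyticOnNhd ℂ Λ (U ×ˢ univ)) :
    Br U {p : ℂ × Pt n | p.1 ∈ U ∧ g p = 0 ∧ Jd g p ≠ 0 ∧ Λ p ≠ 0} := by
  refine ⟨hU, fun p hp => hp.1, ?_⟩
  rintro p ⟨hp, h0, h1, h2⟩
  obtain ⟨φ, hφ, hφp, hev⟩ := ift_n hg hp h0 h1
  refine ⟨φ, hφ, hφp, ?_⟩
  have e1 : ∀ᶠ q : ℂ × Pt n in 𝓝 p, q.1 ∈ U :=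
    (continuousAt_fst (p := p)).eventually (hU.mem_nhds hp)
  have e2 : ∀ᶠ q : ℂ × Pt n in 𝓝 p, Jd g q ≠ 0 :=
    ((Jd_analytic hU hg) p ⟨hp, mem_univ _⟩).continuousAt.eventually_ne h1
  have e3 : ∀ᶠ q : ℂ × Pt n in 𝓝 p, Λ q ≠ 0 :=
    (hΛ p ⟨hp, mem_univ _⟩).continuousAt.eventually_ne h2
  filter_upwards [hev, e1, e2, e3] with q q1 q2 q3 q4
  constructor
  · rintro ⟨-, h, -⟩
    exact q1.1 h
  · intro h
    exact ⟨q2, q1.2 h, q3, q4⟩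

theorem cl_of_jac {n : ℕ} {U : Set ℂ} {g : ℂ × Pt n → Pt n}
    (hg : AnalyticOnNhd ℂ g (U ×ˢ univ)) {Λ : ℂ × Pt n → ℂ} {p : ℂ × Pt n} (hp : p.1 ∈ U)
    (hcl : p ∈ closure {p : ℂ × Pt n | p.1 ∈ U ∧ g p = 0 ∧ Jd g p ≠ 0 ∧ Λ p ≠ 0})
    (h1 : Jd g p ≠ 0) (h2 : Λ p ≠ 0) :
    p ∈ {p : ℂ × Pt n | p.1 ∈ U ∧ g p = 0 ∧ Jd g p ≠ 0 ∧ Λ p ≠ 0} := by
  refine ⟨hp, ?_, h1, h2⟩
  by_contra h0
  rw [mem_closure_iff_frequently] at hcl
  refine hcl ?_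
  filter_upwards [(hg p ⟨hp, mem_univ _⟩).continuousAt.eventually_ne h0] with q hq
  rintro ⟨-, h, -⟩
  exact hq h

end Pool.Agent.T2H96.XS
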