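import Pool.Agent.T2H96.XS.Defs

/-!
Systems `P_i(s, x, exp E_i(s, x)) = 0`, `i = 1, …, n`, polynomial in `x` and in the exponentials, are exponential
systems.
-/

set_option autoImplicit false

namespace Pool.Agent.T2H96.XS

open Set Filter Topology Metric

/-- polynomial growth in `x`, locally uniformly in `s` -/
def PolyGrowth {m n : ℕ} {F : Type} [NormedAddCommGroup F] (f : Pt m → Pt n → F) : Prop :=
  ∀ s₀ : Pt m, ∃ (A : ℝ) (ρ : ℕ), ∀ᶠ s in 𝓝 s₀, ∀ x, ‖f s x‖ ≤ A * (1 + ‖x‖) ^ ρ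

theorem pow_up {b A A' : ℝ} {ρ ρ' : ℕ} (hb : 1 ≤ b) (hA : A ≤ A') (hA' : 0 ≤ A') (hρ : ρ ≤ ρ') :
    A * b ^ ρ ≤ A' * b ^ ρ' :=
  calc A * b ^ ρ ≤ A' * b ^ ρ := mul_le_mul_of_nonneg_right hA (by positivity)
    _ ≤ A' * b ^ ρ' := mul_le_mul_of_nonneg_left (pow_le_pow_right₀ hb hρ) hA'

/-- a common bound for finitely many functions -/
theorem PolyGrowth.common {m n : ℕ} {ι : Type} [Finite ι] {f : ι → Pt m → Pt n → ℂ}
    (h : ∀ i, PolyGrowth (f i)) (s₀ : Pt m) :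
    ∃ (A : ℝ) (ρ : ℕ), 1 ≤ A ∧ 1 ≤ ρ ∧ ∀ᶠ s in 𝓝 s₀, ∀ x i, ‖f i s x‖ ≤ A * (1 + ‖x‖) ^ ρ := by
  classical
  have := Fintype.ofFinite ι
  choose A ρ hA using fun i => h i s₀
  refine ⟨∑ i, |A i| + 1, ∑ i, ρ i + 1, ?_, by omega, ?_⟩
  · have : 0 ≤ ∑ i, |A i| := Finset.sum_nonneg fun i _ => abs_nonneg _
    linarith
  · filter_upwards [Filter.eventually_all.2 hA] with s hs x i
    have h1 : 1 ≤ 1 + ‖x‖ := by linarith [norm_nonneg x]
    have h2 : 0 ≤ ∑ i, |A i| := Finset.sum_nonneg fun i _ => abs_nonneg _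
    refine (hs i x).trans (pow_up h1 ?_ (by linarith) ?_)
    · have : |A i| ≤ ∑ i, |A i| :=
        Finset.single_le_sum (f := fun i => |A i|) (fun i _ => abs_nonneg _) (Finset.mem_univ i)
      linarith [le_abs_self (A i)]
    · have : ρ i ≤ ∑ i, ρ i :=
        Finset.single_le_sum (f := fun i => ρ i) (fun i _ => Nat.zero_le _) (Finset.mem_univ i)
      omega

theorem root_bound {d : ℕ} (hd : 1 ≤ d) {a : Fin (d + 1) → ℂ} {y : ℂ} {K : ℝ} (hK : ∀ j, ‖a j‖ ≤ K)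
    (h0 : ∑ j, a j * y ^ (j : ℕ) = 0) : ‖a (Fin.last d)‖ * ‖y‖ ≤ (d + 1) * K := by
  have hK0 : 0 ≤ K := (norm_nonneg _).trans (hK 0)
  have hd0 : (0 : ℝ) ≤ d := Nat.cast_nonneg d
  rcases le_or_gt ‖y‖ 1 with hy | hy
  · calc ‖a (Fin.last d)‖ * ‖y‖ ≤ K * 1 := mul_le_mul (hK _) hy (norm_nonneg _) hK0
      _ ≤ (d + 1) * K := by nlinarith
  · rw [Fin.sum_univ_castSucc] at h0
    have h1 : a (Fin.last d) * y ^ d = -∑ j : Fin d, a j.castSucc * y ^ (j : ℕ) := by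
      have : ((Fin.last d : Fin (d + 1)) : ℕ) = d := Fin.val_last d
      rw [this] at h0
      simp only [Fin.val_castSucc] at h0
      linear_combination h0
    have h2 : ‖a (Fin.last d)‖ * ‖y‖ ^ d ≤ d * K * ‖y‖ ^ (d - 1) := by
      rw [← norm_pow, ← norm_mul, h1, norm_neg]
      calc ‖∑ j : Fin d, a j.castSucc * y ^ (j : ℕ)‖ ≤ ∑ j : Fin d, ‖a j.castSucc * y ^ (j : ℕ)‖ :=
            norm_sum_le _ _
        _ ≤ ∑ _j : Fin d, K * ‖y‖ ^ (d - 1) := Finset.sum_le_sum fun j _ => by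
            rw [norm_mul, norm_pow]
            apply mul_le_mul (hK _) _ (by positivity) hK0
            apply pow_le_pow_right₀ hy.le
            have := j.2
            omega
        _ = d * K * ‖y‖ ^ (d - 1) := by
            rw [Finset.sum_const, Finset.card_univ, Fintype.card_fin, nsmul_eq_mul]
            ring
    have h3 : ‖y‖ ^ d = ‖y‖ * ‖y‖ ^ (d - 1) := by
      rw [← pow_succ']
      congr 1
      omega
    rw [h3, ← mul_assoc] at h2
    have h4 : 0 < ‖y‖ ^ (d - 1) := by positivity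
    have h5 := le_of_mul_le_mul_right h2 h4
    nlinarith

theorem poly_bd {m n : ℕ} {d : Fin n → ℕ} (hd : ∀ i, 1 ≤ d i)
    {a : (i : Fin n) → Fin (d i + 1) → Pt m → Pt n → ℂ}
    (hag : ∀ i j, PolyGrowth (a i j)) {δ : Pt m → ℂ}
    {E : Pt m → Pt n → Pt n}
    (hEg : PolyGrowth E) (hEp : ∀ s₀, δ s₀ ≠ 0 → ∃ (A : ℝ) (ρ : ℕ), ∀ᶠ s in 𝓝 s₀, ∀ x,
      ‖x‖ ≤ A * (1 + ‖E s x‖) ^ ρ) :
    ∀ s₀, δ s₀ ≠ 0 → ∃ (A : ℝ) (ρ : ℕ), ∀ᶠ s in 𝓝 s₀, ∀ x : Pt n,
      ‖∏ i, a i (Fin.last (d i)) s x‖ ≤ A * (1 + ‖x‖) ^ ρ ∧ ‖E s x‖ ≤ A * (1 + ‖x‖) ^ ρ ∧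
      ‖x‖ ≤ A * (1 + ‖E s x‖) ^ ρ ∧
      ‖(fun i => ∑ j, a i j s x * Complex.exp (E s x i) ^ (j : ℕ) : Pt n)‖ ≤
        A * ((1 + ‖x‖) * ∏ i, max 1 ‖Complex.exp (E s x i)‖) ^ ρ ∧
      ((∀ i, ∑ j, a i j s x * Complex.exp (E s x i) ^ (j : ℕ) = 0) → ∀ i,
        ‖∏ i, a i (Fin.last (d i)) s x‖ * ‖Complex.exp (E s x i)‖ ≤ A * (1 + ‖x‖) ^ ρ) := by
  classical
  intro s₀ hs₀
  obtain ⟨A, ρ, hA1, hρ1, hA⟩ := PolyGrowth.common
    (f := fun (ij : Σ i : Fin n, Fin (d i + 1)) => a ij.1 ij.2) (fun ij => hag ij.1 ij.2) s₀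
  obtain ⟨B, σ, hB⟩ := hEg s₀
  obtain ⟨C, τ, hC⟩ := hEp s₀ hs₀
  set D : ℕ := ∑ i, d i with hD
  have hdD : ∀ i, d i ≤ D := fun i =>
    Finset.single_le_sum (f := fun i => d i) (fun i _ => Nat.zero_le _) (Finset.mem_univ i)
  -- the common constants
  set A' : ℝ := ((D + 1 : ℕ) * A) * A ^ n + |B| + |C| with hA'
  set ρ' : ℕ := ρ * (n + 1) + D + σ + τ with hρ'
  have hA0 : 0 ≤ A := by linarith
  have hAn : 1 ≤ A ^ n := one_le_pow₀ hA1
  have hD1 : (1 : ℝ) ≤ (D + 1 : ℕ) := by exact_mod_cast Nat.succ_le_succ (Nat.zero_le D)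
  have hDA : A ≤ (D + 1 : ℕ) * A := by nlinarith
  have hA'0 : 0 ≤ A' := by positivity
  have hle1 : A ^ n ≤ A' := by
    have : 1 * A ^ n ≤ ((D + 1 : ℕ) * A) * A ^ n :=
      mul_le_mul_of_nonneg_right (by linarith) (by positivity)
    rw [hA']
    have := abs_nonneg B
    have := abs_nonneg C
    linarith
  have hle2 : (D + 1 : ℕ) * A ≤ A' := by
    have : ((D + 1 : ℕ) * A) * 1 ≤ ((D + 1 : ℕ) * A) * A ^ n :=
      mul_le_mul_of_nonneg_left hAn (by positivity)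
    rw [hA']
    have := abs_nonneg B
    have := abs_nonneg C
    linarith
  have hle3 : ((D + 1 : ℕ) * A) * A ^ n ≤ A' := by
    rw [hA']
    have := abs_nonneg B
    have := abs_nonneg C
    linarith
  have hle4 : B ≤ A' := by
    have h1 : 0 ≤ ((D + 1 : ℕ) * A) * A ^ n := by positivity
    have := le_abs_self B
    have := abs_nonneg C
    rw [hA']
    linarith
  have hle5 : C ≤ A' := by
    have h1 : 0 ≤ ((D + 1 : ℕ) * A) * A ^ n := by positivity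
    have := le_abs_self C
    have := abs_nonneg B
    rw [hA']
    linarith
  have hr1 : ρ * n ≤ ρ' := by rw [hρ']; nlinarith
  have hr2 : ρ * (n + 1) ≤ ρ' := by rw [hρ']; omega
  have hr3 : ρ ≤ ρ' := by rw [hρ']; nlinarith
  have hr4 : D ≤ ρ' := by rw [hρ']; omega
  refine ⟨A', ρ', ?_⟩
  filter_upwards [hA, hB, hC] with s hs1 hs2 hs3 x
  have hX : 1 ≤ 1 + ‖x‖ := by linarith [norm_nonneg x]
  have hY : 1 ≤ 1 + ‖E s x‖ := by linarith [norm_nonneg (E s x)]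
  have haij : ∀ (i : Fin n) (j : Fin (d i + 1)), ‖a i j s x‖ ≤ A * (1 + ‖x‖) ^ ρ :=
    fun i j => hs1 x ⟨i, j⟩
  set K : ℝ := A * (1 + ‖x‖) ^ ρ with hK
  have hK0 : 0 ≤ K := by positivity
  have hK1 : 1 ≤ K := by
    have : 1 ≤ (1 + ‖x‖) ^ ρ := one_le_pow₀ hX
    nlinarith
  have hprod : ‖∏ i, a i (Fin.last (d i)) s x‖ ≤ K ^ n := by
    rw [norm_prod]
    calc ∏ i, ‖a i (Fin.last (d i)) s x‖ ≤ ∏ _i : Fin n, K :=
          Finset.prod_le_prod (fun i _ => norm_nonneg _) (fun i _ => haij i _)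
      _ = K ^ n := by rw [Finset.prod_const, Finset.card_univ, Fintype.card_fin]
  have hKn : K ^ n = A ^ n * (1 + ‖x‖) ^ (ρ * n) := by rw [hK, mul_pow, pow_mul]
  refine ⟨?_, ?_, ?_, ?_, ?_⟩
  · refine hprod.trans ?_
    rw [hKn]
    exact pow_up hX hle1 hA'0 hr1
  · exact (hs2 x).trans (pow_up hX hle4 hA'0 (by rw [hρ']; omega))
  · exact (hs3 x).trans (pow_up hY hle5 hA'0 (by rw [hρ']; omega))
  · -- the bound for the equations
    set w : ℝ := ∏ i, max 1 ‖Complex.exp (E s x i)‖ with hw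
    have hw1 : 1 ≤ w := by
      rw [hw]
      calc (1 : ℝ) = ∏ _i : Fin n, (1 : ℝ) := by simp
        _ ≤ _ := Finset.prod_le_prod (fun _ _ => zero_le_one) (fun i _ => le_max_left _ _)
    have hwi : ∀ i, max 1 ‖Complex.exp (E s x i)‖ ≤ w := by
      intro i
      rw [hw, ← Finset.mul_prod_erase Finset.univ _ (Finset.mem_univ i)]
      have h1 : 1 ≤ ∏ j ∈ Finset.univ.erase i, max 1 ‖Complex.exp (E s x j)‖ := by
        calc (1 : ℝ) = ∏ _j ∈ Finset.univ.erase i, (1 : ℝ) := by simp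
          _ ≤ _ := Finset.prod_le_prod (fun _ _ => zero_le_one) (fun j _ => le_max_left _ _)
      have h2 : 0 ≤ max 1 ‖Complex.exp (E s x i)‖ := le_trans zero_le_one (le_max_left _ _)
      nlinarith
    have h0 : 0 ≤ A' * ((1 + ‖x‖) * w) ^ ρ' := by positivity
    rw [pi_norm_le_iff_of_nonneg h0]
    intro i
    have h1 : ‖∑ j, a i j s x * Complex.exp (E s x i) ^ (j : ℕ)‖ ≤ (D + 1 : ℕ) * (K * w ^ D) := by
      calc ‖∑ j, a i j s x * Complex.exp (E s x i) ^ (j : ℕ)‖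
          ≤ ∑ j, ‖a i j s x * Complex.exp (E s x i) ^ (j : ℕ)‖ := norm_sum_le _ _
        _ ≤ ∑ _j : Fin (d i + 1), K * w ^ D := Finset.sum_le_sum fun j _ => by
            rw [norm_mul, norm_pow]
            apply mul_le_mul (haij i j) _ (by positivity) hK0
            calc ‖Complex.exp (E s x i)‖ ^ (j : ℕ) ≤ w ^ (j : ℕ) :=
                  pow_le_pow_left₀ (norm_nonneg _) ((le_max_right _ _).trans (hwi i)) _
              _ ≤ w ^ D := by
                  apply pow_le_pow_right₀ hw1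
                  have := j.2
                  have := hdD i
                  omega
        _ = (d i + 1 : ℕ) * (K * w ^ D) := by
            rw [Finset.sum_const, Finset.card_univ, Fintype.card_fin, nsmul_eq_mul]
        _ ≤ (D + 1 : ℕ) * (K * w ^ D) := by
            apply mul_le_mul_of_nonneg_right _ (by positivity)
            exact_mod_cast Nat.succ_le_succ (hdD i)
    refine h1.trans ?_
    have h2 : (1 + ‖x‖) ^ ρ ≤ (1 + ‖x‖) ^ ρ' := pow_le_pow_right₀ hX hr3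
    have h3 : w ^ D ≤ w ^ ρ' := pow_le_pow_right₀ hw1 hr4
    calc ((D + 1 : ℕ) : ℝ) * (K * w ^ D) = ((D + 1 : ℕ) * A) * ((1 + ‖x‖) ^ ρ * w ^ D) := by
          rw [hK]; ring
      _ ≤ A' * ((1 + ‖x‖) ^ ρ' * w ^ ρ') := by
          apply mul_le_mul hle2 (mul_le_mul h2 h3 (by positivity) (by positivity)) (by positivity)
            hA'0
      _ = A' * ((1 + ‖x‖) * w) ^ ρ' := by rw [mul_pow]
  · intro h0 i
    have h1 := root_bound (hd i) (a := fun j => a i j s x) (y := Complex.exp (E s x i))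
      (fun j => haij i j) (h0 i)
    have h2 : ‖∏ i, a i (Fin.last (d i)) s x‖ ≤ ‖a i (Fin.last (d i)) s x‖ * K ^ n := by
      rw [norm_prod, ← Finset.mul_prod_erase Finset.univ _ (Finset.mem_univ i)]
      apply mul_le_mul_of_nonneg_left _ (norm_nonneg _)
      calc ∏ j ∈ Finset.univ.erase i, ‖a j (Fin.last (d j)) s x‖
          ≤ ∏ _j ∈ Finset.univ.erase i, K :=
            Finset.prod_le_prod (fun i _ => norm_nonneg _) (fun j _ => haij j _)
        _ = K ^ (n - 1) := by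
            rw [Finset.prod_const, Finset.card_erase_of_mem (Finset.mem_univ i),
              Finset.card_univ, Fintype.card_fin]
        _ ≤ K ^ n := pow_le_pow_right₀ hK1 (by omega)
    calc ‖∏ i, a i (Fin.last (d i)) s x‖ * ‖Complex.exp (E s x i)‖
        ≤ ‖a i (Fin.last (d i)) s x‖ * K ^ n * ‖Complex.exp (E s x i)‖ :=
          mul_le_mul_of_nonneg_right h2 (norm_nonneg _)
      _ = (‖a i (Fin.last (d i)) s x‖ * ‖Complex.exp (E s x i)‖) * K ^ n := by ring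
      _ ≤ ((d i + 1) * K) * K ^ n := mul_le_mul_of_nonneg_right h1 (by positivity)
      _ ≤ ((D + 1 : ℕ) * K) * K ^ n := by
          apply mul_le_mul_of_nonneg_right _ (by positivity)
          apply mul_le_mul_of_nonneg_right _ hK0
          have : (d i : ℝ) ≤ D := by exact_mod_cast hdD i
          push_cast
          linarith
      _ = (((D + 1 : ℕ) * A) * A ^ n) * (1 + ‖x‖) ^ (ρ * (n + 1)) := by
          rw [hKn, hK]; ring
      _ ≤ A' * (1 + ‖x‖) ^ ρ' := pow_up hX hle3 hA'0 hr2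

theorem poly_expSys {m n : ℕ} {d : Fin n → ℕ} (hd : ∀ i, 1 ≤ d i)
    {a : (i : Fin n) → Fin (d i + 1) → Pt m → Pt n → ℂ}
    (ha : ∀ i j, AnalyticOnNhd ℂ (fun p : Pt m × Pt n => a i j p.1 p.2) univ)
    (hag : ∀ i j, PolyGrowth (a i j)) {δ : Pt m → ℂ} (hδ : AnalyticOnNhd ℂ δ univ)
    {E : Pt m → Pt n → Pt n} (hE : AnalyticOnNhd ℂ (fun p : Pt m × Pt n => E p.1 p.2) univ)
    (hEg : PolyGrowth E) (hEp : ∀ s₀, δ s₀ ≠ 0 → ∃ (A : ℝ) (ρ : ℕ), ∀ᶠ s in 𝓝 s₀, ∀ x,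
      ‖x‖ ≤ A * (1 + ‖E s x‖) ^ ρ) :
    ExpSys δ (fun s x i => ∑ j, a i j s x * Complex.exp (E s x i) ^ (j : ℕ)) E
      (fun s x => ∏ i, a i (Fin.last (d i)) s x) := by
  refine ⟨hδ, ?_, hE, ?_, ?_⟩
  · intro p hp
    rw [analyticAt_pi_iff]
    intro i
    refine Finset.analyticAt_fun_sum _ fun j _ => ?_
    exact (ha i j p hp).mul (((analyticAt_pi_iff.1 (hE p hp)) i).cexp.pow _)
  · intro p hp
    exact Finset.analyticAt_fun_prod _ fun i _ => ha i _ p hp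
  · intro s₀ hs₀
    obtain ⟨A, ρ, hA⟩ := poly_bd hd hag hEg hEp s₀ hs₀
    refine ⟨A, ρ, ?_⟩
    filter_upwards [hA] with s hs x
    obtain ⟨h1, h2, h3, h4, h5⟩ := hs x
    exact ⟨h1, h2, h3, h4, fun h0 _ => h5 fun i => congrFun h0 i⟩

end Pool.Agent.T2H96.XS
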