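import Pool.Agent.T2H96.XS.Defs

/-!
Branches on which a condition holds generically.
-/

set_option autoImplicit false

namespace Pool.Agent.T2H96.XS

open Set Filter Topology Metric
open Pool.Agent.TH735.QM Pool.Agent.TH735.FO

/-- the condition `Y` holds at all but countably many points of the branch of `Z` through `p` -/
def GenAt {n : ℕ} (Z : Set (ℂ × Pt n)) (Y : ℂ → Pt n → Prop) (p : ℂ × Pt n) : Prop :=
  ∃ φ : ℂ → Pt n, AnalyticAt ℂ φ p.1 ∧ φ p.1 = p.2 ∧ (∀ᶠ q : ℂ × Pt n in 𝓝 p, (q ∈ Z ↔ q.2 = φ q.1)) ∧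
    ∃ r > 0, (ball p.1 r ∩ {t | ¬ Y t (φ t)}).Countable

theorem branch_type {n : ℕ} {U : Set ℂ} (hU : IsOpen U) {Z : Set (ℂ × Pt n)} {Y : ℂ → Pt n → Prop}
    (hY : LQN U Y) {p : ℂ × Pt n} (hp : p.1 ∈ U) {φ : ℂ → Pt n} (hφ : AnalyticAt ℂ φ p.1)
    (hφp : φ p.1 = p.2) (hev : ∀ᶠ q : ℂ × Pt n in 𝓝 p, (q ∈ Z ↔ q.2 = φ q.1)) :
    ∃ r > 0, ball p.1 r ⊆ U ∧ (∀ t ∈ ball p.1 r, ∀ᶠ q : ℂ × Pt n in 𝓝 (t, φ t),
        (q ∈ Z ↔ q.2 = φ q.1)) ∧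
      (((ball p.1 r ∩ {t | Y t (φ t)}).Countable ∧ ∀ t ∈ ball p.1 r, ¬ GenAt Z Y (t, φ t)) ∨
      ((ball p.1 r ∩ {t | ¬ Y t (φ t)}).Countable ∧ ∀ t ∈ ball p.1 r, GenAt Z Y (t, φ t))) := by
  have hcont : Tendsto (fun t => (t, φ t)) (𝓝 p.1) (𝓝 p) := by
    have h1 : Tendsto φ (𝓝 p.1) (𝓝 p.2) := by
      have := hφ.continuousAt.tendsto
      rwa [hφp] at this
    exact tendsto_id.prodMk_nhds h1
  have h1 : ∀ᶠ t in 𝓝 p.1, t ∈ U ∧ AnalyticAt ℂ φ t ∧ ∀ᶠ q : ℂ × Pt n in 𝓝 (t, φ t),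
      (q ∈ Z ↔ q.2 = φ q.1) := by
    filter_upwards [hU.mem_nhds hp, hφ.eventually_analyticAt, hcont.eventually hev.eventually_nhds]
      with t h1 h2 h3
    exact ⟨h1, h2, h3⟩
  obtain ⟨r, hr, hr'⟩ := Metric.eventually_nhds_iff_ball.1 h1
  refine ⟨r, hr, fun t ht => (hr' t ht).1, fun t ht => (hr' t ht).2.2, ?_⟩
  rcases hY (ball p.1 r) (fun t ht => (hr' t ht).1) isOpen_ball
      (convex_ball p.1 r).isPreconnected φ (fun t ht => (hr' t ht).2.1) with h2 | h2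
  · left
    refine ⟨h2, ?_⟩
    rintro t ht ⟨φ', hφ', hφ't, hev', r', hr'0, hc⟩
    -- the two functions agree near `t`
    have hcont' : Tendsto (fun s => (s, φ s)) (𝓝 t) (𝓝 (t, φ t)) :=
      tendsto_id.prodMk_nhds (hr' t ht).2.1.continuousAt
    have hagree : ∀ᶠ s in 𝓝 t, φ s = φ' s := by
      filter_upwards [hcont'.eventually (hr' t ht).2.2, hcont'.eventually hev'] with s hs hs'
      exact hs'.1 (hs.2 rfl)
    obtain ⟨d, hd, hd'⟩ := Metric.eventually_nhds_iff_ball.1 (hagree.and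
      (isOpen_ball.mem_nhds ht))
    apply ball_not_countable t (lt_min hd hr'0)
    refine (h2.union hc).mono ?_
    intro s hs
    have hs1 := hd' s (ball_subset_ball (min_le_left _ _) hs)
    by_cases hYs : Y s (φ s)
    · exact Or.inl ⟨hs1.2, hYs⟩
    · right
      refine ⟨ball_subset_ball (min_le_right _ _) hs, ?_⟩
      show ¬ Y s (φ' s)
      rw [← hs1.1]
      exact hYs
  · right
    have h3 : (ball p.1 r ∩ {t | ¬ Y t (φ t)}).Countable := h2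
    refine ⟨h3, ?_⟩
    intro t ht
    obtain ⟨d, hd, hd'⟩ := Metric.isOpen_iff.1 isOpen_ball t ht
    exact ⟨φ, (hr' t ht).2.1, rfl, (hr' t ht).2.2, d, hd,
      h3.mono (inter_subset_inter_left _ hd')⟩

theorem gen_split {n : ℕ} {U : Set ℂ} {Z : Set (ℂ × Pt n)} (hZ : Br U Z) {Y : ℂ → Pt n → Prop}
    (hY : LQN U Y) :
    ∃ Z' ⊆ Z, Br U Z' ∧ (∀ p ∈ Z, p ∈ closure Z' → p ∈ Z') ∧
      {p | p ∈ Z ∧ ¬ (Y p.1 p.2 ↔ p ∈ Z')}.Countable := by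
  have hnb : ∀ p : ℂ × Pt n, ∀ φ : ℂ → Pt n, (∀ᶠ q : ℂ × Pt n in 𝓝 p, (q ∈ Z ↔ q.2 = φ q.1)) →
      ∀ r > 0, ∀ᶠ q : ℂ × Pt n in 𝓝 p, q.1 ∈ ball p.1 r ∧ (q ∈ Z ↔ q.2 = φ q.1) := by
    intro p φ hev r hr
    have h1 : ∀ᶠ q : ℂ × Pt n in 𝓝 p, q.1 ∈ ball p.1 r :=
      (continuousAt_fst (p := p)).eventually (ball_mem_nhds p.1 hr)
    exact h1.and hev
  refine ⟨{p | p ∈ Z ∧ GenAt Z Y p}, fun p hp => hp.1, ?_, ?_, ?_⟩
  · refine ⟨hZ.op, fun p hp => hZ.sub p hp.1, ?_⟩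
    rintro p ⟨hp, hg⟩
    obtain ⟨φ, hφ, hφp, hev⟩ := hZ.br p hp
    obtain ⟨r, hr, -, -, h1 | h1⟩ := branch_type hZ.op hY (hZ.sub p hp) hφ hφp hev
    · exfalso
      have := h1.2 p.1 (mem_ball_self hr)
      rw [hφp] at this
      exact this hg
    · refine ⟨φ, hφ, hφp, ?_⟩
      filter_upwards [hnb p φ hev r hr] with q hq
      constructor
      · rintro ⟨h2, -⟩
        exact hq.2.1 h2
      · intro h2
        refine ⟨hq.2.2 h2, ?_⟩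
        have h3 := h1.2 q.1 hq.1
        rw [← h2] at h3
        exact h3
  · intro p hp hcl
    refine ⟨hp, ?_⟩
    obtain ⟨φ, hφ, hφp, hev⟩ := hZ.br p hp
    obtain ⟨r, hr, -, -, h1 | h1⟩ := branch_type hZ.op hY (hZ.sub p hp) hφ hφp hev
    · exfalso
      rw [mem_closure_iff_frequently] at hcl
      refine hcl ?_
      filter_upwards [hnb p φ hev r hr] with q hq
      rintro ⟨h2, h3⟩
      have h4 := hq.2.1 h2
      have h5 := h1.2 q.1 hq.1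
      rw [← h4] at h5
      exact h5 h3
    · have := h1.2 p.1 (mem_ball_self hr)
      rwa [hφp] at this
  · apply countable_of_locally
    rintro p ⟨hp, -⟩
    obtain ⟨φ, hφ, hφp, hev⟩ := hZ.br p hp
    obtain ⟨r, hr, hrU, -, htype⟩ := branch_type hZ.op hY (hZ.sub p hp) hφ hφp hev
    refine ⟨_, hnb p φ hev r hr, ?_⟩
    rcases htype with ⟨hc, hg⟩ | ⟨hc, hg⟩
    · refine (hc.image (fun t => (t, φ t))).mono ?_
      rintro ⟨t, x⟩ ⟨⟨ht, hfx⟩, hxZ, hne⟩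
      simp only at ht hfx hne
      have hx : x = φ t := hfx.1 hxZ
      subst hx
      refine ⟨t, ⟨ht, ?_⟩, rfl⟩
      by_contra hY'
      exact hne ⟨fun h => absurd h hY', fun h => absurd h.2 (hg t ht)⟩
    · refine (hc.image (fun t => (t, φ t))).mono ?_
      rintro ⟨t, x⟩ ⟨⟨ht, hfx⟩, hxZ, hne⟩
      simp only at ht hfx hne
      have hx : x = φ t := hfx.1 hxZ
      subst hx
      refine ⟨t, ⟨ht, ?_⟩, rfl⟩
      intro hY'
      exact hne ⟨fun _ => ⟨hxZ, hg t ht⟩, fun _ => hY'⟩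

end Pool.Agent.T2H96.XS
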