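import Pool.Agent.T2H96.XS.Sep
import Pool.Agent.T2H96.XS.Jac

/-!
PACKAGE T. The test function (uses `sep`, `pack`, `cauchy` of `Sep.lean` and `Jd_analytic` of `Jac.lean`, which are
proved by somebody else: just use them).

Paper proof. Notation at a point `(t, x)` with `t ∈ D`: `X = 1 + ‖x‖`, `Y = 1 + ‖E (t, x)‖`, `λ = ‖Λ (t, x)‖`,
`W = wt (E (t, x)) ≥ 1`. At a zero `bz` and `bL` give `λ * max 1 |exp (E i)| ≤ A X^ρ` for all `i`, so
`λ^n * W ≤ (A X^ρ)^n`.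

1. Derivatives. For `‖y‖ ≤ ‖x‖ + 2` one has `‖E (t, y)‖ ≤ A (3 X)^ρ`, so by `cauchy` (radius `2/3` or any other fixed radius)
   `‖E (t, y) - E (t, x)‖ ≤ C X^ρ ‖y - x‖` for `y` near `x`; choose `r_x = 1 / (C' X^ρ)` with
   `‖E (t, y) - E (t, x)‖ ≤ 1` on `ball x (3 r_x)`. There `wt (E (t, y)) ≤ e^n W`, so `‖g (t, y)‖ ≤ K := C (X W)^ρ`, and
   `cauchy` gives the hypotheses of `sep` on `ball x r_x` with `M = C X^(3ρ) W^ρ` (at least `1`).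
2. `|Jd g (t, x)| ≤ n! M^n` (entries bounded by the norm of the derivative).
3. Test function. `φ_ε(z) = ∑ ε^(k+1) z^k / (k+1)!`, i.e. `(exp (ε z) - 1) / z` and `ε` at `z = 0` (entire; e.g. `dslope` of
   `z ↦ exp (ε z)` at `0`). For `0 < ε ≤ 1`: `|φ_ε(z)| ≤ max 1 e^(ε Re z)` and `|z| |φ_ε(z)| ≤ 2 max 1 e^(ε Re z)`; it
   vanishes only if `ε z ∈ 2πi ℤ`, `z ≠ 0`. If `p ε ≤ 1` then `∏ i |φ_ε(E i)|^p ≤ W * (3 / Y)^p`.
   Put `f (t, x) = Jd g (t, x) * Λ (t, x)^Q * q x * ∏ i, φ_ε (E (t, x) i)^p` with `Q = n * (n * ρ) + n + 1`, `q` a polynomial in `x`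
   (`|q x| ≤ C X^d`), `ε ≤ 1 / p` so small that `|ε E (t₁, x) i| < 2 π` for `x ∈ T` (then `φ_ε` does not vanish there).
   `q` is chosen LAST but its degree `d = T.card` is fixed before `p`: by Lagrange interpolation `q` can have arbitrary
   values on `T`: `q x = ∑ a ∈ T, v a * ∏ b ∈ T \ {a}, (x (i a b) - b (i a b)) / (a (i a b) - b (i a b))`, where `i a b` is a
   coordinate with `a i ≠ b i`; choose the values such that `f (t₁, a)`, `a ∈ T`, are distinct and nonzero. (So the constant in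
   `|q x| ≤ C X^d` depends on `ε, p`, which does no harm.)
4. At a zero: `|Jd| λ^(n n ρ) ≤ C X^κ₁`, `λ^n W ≤ (A X^ρ)^n`, so `|f| ≤ λ C X^κ₂ (3 / Y)^p` with `κ₂` independent of
   `p`, and `bp` gives `X ≤ 2 A Y^ρ`. With `p = ρ p'`, `p' = κ₂ + ρ + 1`: `|f| ≤ C λ X^(-ρ-1) ≤ C A X^(-1)`. This gives the
   two bounds (`hbd`, `hprop`).
5. Count. If `1 ≤ N |f|` then `X ≤ C N`, `1 / λ ≤ C N`, `W ≤ (A X^ρ / λ)^n ≤ C N^κ`, `M ≤ C N^κ`, `1 / r_x ≤ C N^κ` and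
   `1 / |Jd| ≤ N λ^Q |q| ∏ |φ|^p ≤ C N^κ`. By `sep` two zeros of this kind at `t` have distance at least `1 / (C N^κ)`, by
   `pack` there are at most `C N^κ` of them. (Use a predicate 'bounded by a power of `N + 1`' closed under sums,
   products, powers.)
-/

set_option autoImplicit false

namespace Pool.Agent.T2H96.XS

open Set Filter Topology Metric

theorem T_one_le_prod {ι : Type*} (s : Finset ι) (f : ι → ℝ) (h : ∀ i ∈ s, 1 ≤ f i) :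
    1 ≤ ∏ i ∈ s, f i := by
  calc (1 : ℝ) = ∏ _i ∈ s, (1 : ℝ) := by simp
    _ ≤ _ := Finset.prod_le_prod (fun _ _ => zero_le_one) h

/-! ### Lagrange interpolation -/

theorem T_lag {n : ℕ} (T : Finset (Pt n)) (v : Pt n → ℂ) : ∃ q : Pt n → ℂ,
    AnalyticOnNhd ℂ q univ ∧ (∃ C : ℝ, 1 ≤ C ∧ ∀ x, ‖q x‖ ≤ C * (1 + ‖x‖) ^ T.card) ∧
    ∀ a ∈ T, q a = v a := by
  classical
  induction T using Finset.induction_on with
  | empty =>
    refine ⟨fun _ => 0, analyticOnNhd_const, ⟨1, le_rfl, fun x => ?_⟩, by simp⟩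
    simp
  | insert a T ha ih =>
    obtain ⟨q, hq, ⟨C, hC, hqC⟩, hqv⟩ := ih
    -- the product
    have h1 : ∀ b ∈ T, ∃ L : Pt n → ℂ, AnalyticOnNhd ℂ L univ ∧ L a = 1 ∧ L b = 0 ∧
        ∃ C : ℝ, 1 ≤ C ∧ ∀ x, ‖L x‖ ≤ C * (1 + ‖x‖) := by
      intro b hb
      obtain ⟨i, hi⟩ : ∃ i, a i ≠ b i := by
        by_contra hcon
        push Not at hcon
        exact ha ((funext hcon : a = b) ▸ hb)
      refine ⟨fun x => (x i - b i) / (a i - b i), fun x _ => ?_, div_self (sub_ne_zero.2 hi),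
        by simp, 1 + (1 + ‖b‖) / ‖a i - b i‖, ?_, fun x => ?_⟩
      · have : AnalyticAt ℂ (fun x : Pt n => x i) x :=
          (ContinuousLinearMap.proj (R := ℂ) (φ := fun _ : Fin n => ℂ) i).analyticAt x
        exact (this.sub analyticAt_const).div_const
      · have : 0 ≤ (1 + ‖b‖) / ‖a i - b i‖ := by positivity
        linarith
      · rw [norm_div]
        have e1 : ‖x i - b i‖ ≤ (1 + ‖b‖) * (1 + ‖x‖) := by
          have := norm_sub_le (x i) (b i)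
          have h2 := norm_le_pi_norm x i
          have h3 := norm_le_pi_norm b i
          nlinarith [norm_nonneg x, norm_nonneg b]
        calc ‖x i - b i‖ / ‖a i - b i‖ ≤ (1 + ‖b‖) * (1 + ‖x‖) / ‖a i - b i‖ := by gcongr
          _ = (1 + ‖b‖) / ‖a i - b i‖ * (1 + ‖x‖) := by ring
          _ ≤ _ := by
            have : 0 ≤ 1 + ‖x‖ := by positivity
            nlinarith
    choose! L hLan hLa hLb c hc1 hLc using h1
    let P : Pt n → ℂ := fun x => ∏ b ∈ T, L b x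
    have hPa : P a = 1 := Finset.prod_eq_one fun b hb => hLa b hb
    have hPT : ∀ c ∈ T, P c = 0 := fun c hc => Finset.prod_eq_zero hc (hLb c hc)
    have hPan : AnalyticOnNhd ℂ P univ := by
      intro x hx
      exact Finset.analyticAt_fun_prod _ fun b hb => hLan b hb x hx
    have hPC : ∃ C : ℝ, 1 ≤ C ∧ ∀ x, ‖P x‖ ≤ C * (1 + ‖x‖) ^ T.card := by
      refine ⟨∏ b ∈ T, c b, T_one_le_prod _ _ hc1, fun x => ?_⟩
      calc ‖P x‖ = ∏ b ∈ T, ‖L b x‖ := norm_prod _ _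
        _ ≤ ∏ b ∈ T, (c b * (1 + ‖x‖)) :=
          Finset.prod_le_prod (fun b _ => norm_nonneg _) fun b hb => hLc b hb x
        _ = _ := by rw [Finset.prod_mul_distrib, Finset.prod_const]
    obtain ⟨C', hC', hPC⟩ := hPC
    refine ⟨fun x => q x + (v a - q a) * P x, ?_, ⟨C + ‖v a - q a‖ * C', ?_, fun x => ?_⟩, ?_⟩
    · intro x hx
      exact (hq x hx).add (analyticAt_const.mul (hPan x hx))
    · have : 0 ≤ ‖v a - q a‖ * C' := by positivity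
      linarith
    · have hX : 1 ≤ 1 + ‖x‖ := by linarith [norm_nonneg x]
      have hpow : (1 + ‖x‖) ^ T.card ≤ (1 + ‖x‖) ^ (insert a T).card :=
        pow_le_pow_right₀ hX (Finset.card_le_card (Finset.subset_insert _ _))
      calc ‖q x + (v a - q a) * P x‖ ≤ ‖q x‖ + ‖v a - q a‖ * ‖P x‖ := by
            rw [← norm_mul]; exact norm_add_le _ _
        _ ≤ C * (1 + ‖x‖) ^ T.card + ‖v a - q a‖ * (C' * (1 + ‖x‖) ^ T.card) := by
            gcongr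
            · exact hqC x
            · exact hPC x
        _ = (C + ‖v a - q a‖ * C') * (1 + ‖x‖) ^ T.card := by ring
        _ ≤ _ := by gcongr
    · intro b hb
      rw [Finset.mem_insert] at hb
      rcases hb with rfl | hb
      · simp only [hPa]; ring
      · simp only [hPT b hb, hqv b hb]; ring

/-! ### the function `(exp (ε z) - 1) / z` -/

/-- `(exp (ε z) - 1) / z` -/
noncomputable def T_ph (ε : ℝ) (z : ℂ) : ℂ := dslope (fun w => Complex.exp (ε * w)) 0 z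

theorem T_ph_an (ε : ℝ) : AnalyticOnNhd ℂ (T_ph ε) univ := by
  have h1 : DifferentiableOn ℂ (fun w : ℂ => Complex.exp (ε * w)) univ := by
    apply Differentiable.differentiableOn
    fun_prop
  have h2 : DifferentiableOn ℂ (T_ph ε) univ :=
    (Complex.differentiableOn_dslope univ_mem).2 h1
  exact h2.analyticOnNhd isOpen_univ

theorem T_ph_mul (ε : ℝ) (z : ℂ) : z * T_ph ε z = Complex.exp (ε * z) - 1 := by
  have h := sub_smul_dslope (fun w : ℂ => Complex.exp (ε * w)) 0 z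
  simpa [T_ph] using h

theorem T_ph_zero (ε : ℝ) : T_ph ε 0 = ε := by
  have h : HasDerivAt (fun w : ℂ => Complex.exp (ε * w)) (Complex.exp (ε * 0) * (ε * 1)) 0 :=
    ((hasDerivAt_id (0 : ℂ)).const_mul (ε : ℂ)).cexp
  rw [T_ph, dslope_same, h.deriv]
  simp

theorem T_ph_ne {ε : ℝ} (hε : 0 < ε) {z : ℂ} (hz : ε * ‖z‖ < 1) : T_ph ε z ≠ 0 := by
  intro h0
  have h1 := T_ph_mul ε z
  rw [h0, mul_zero] at h1
  have h2 : Complex.exp (ε * z) = 1 := (sub_eq_zero.1 h1.symm)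
  rw [Complex.exp_eq_one_iff] at h2
  obtain ⟨k, hk⟩ := h2
  have h3 : ‖(ε : ℂ) * z‖ < 1 := by
    rw [norm_mul, Complex.norm_real, Real.norm_eq_abs, abs_of_pos hε]; exact hz
  have hk0 : k = 0 := by
    by_contra hne
    rw [hk] at h3
    have h4 : ‖(k : ℂ) * (2 * Real.pi * Complex.I)‖ = |(k : ℝ)| * (2 * Real.pi) := by
      rw [norm_mul, norm_mul, norm_mul, Complex.norm_I, Complex.norm_real, Complex.norm_intCast,
        Real.norm_eq_abs, abs_of_pos Real.pi_pos]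
      simp
    rw [h4] at h3
    have h5 : (1 : ℝ) ≤ |(k : ℝ)| := by
      rw [← Int.cast_abs]
      exact_mod_cast Int.one_le_abs hne
    nlinarith [Real.pi_gt_three]
  rw [hk0] at hk
  have hz0 : z = 0 := by
    have h6 : (ε : ℂ) * z = 0 := by rw [hk]; simp
    rcases mul_eq_zero.1 h6 with h7 | h7
    · exact absurd (Complex.ofReal_eq_zero.1 h7) hε.ne'
    · exact h7
  rw [hz0, T_ph_zero] at h0
  exact hε.ne' (Complex.ofReal_eq_zero.1 h0)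

theorem T_ph_le {ε : ℝ} (hε : 0 < ε) (hε1 : ε ≤ 1) (z : ℂ) :
    (1 + ‖z‖) * ‖T_ph ε z‖ ≤ 3 * max 1 (Real.exp (ε * z.re)) := by
  set m : ℝ := max 1 (Real.exp (ε * z.re)) with hm
  have hm1 : 1 ≤ m := le_max_left _ _
  have hz1 : ‖z‖ * ‖T_ph ε z‖ ≤ 2 * m := by
    rw [← norm_mul, T_ph_mul]
    have e1 : ‖Complex.exp (ε * z)‖ = Real.exp (ε * z.re) := by
      rw [Complex.norm_exp]; simp
    have e2 := norm_sub_le (Complex.exp (ε * z)) 1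
    rw [e1, norm_one] at e2
    have e3 : Real.exp (ε * z.re) ≤ m := le_max_right _ _
    linarith
  have hz2 : ‖T_ph ε z‖ ≤ m := by
    rcases eq_or_ne z 0 with rfl | hz
    · rw [T_ph_zero, Complex.norm_real, Real.norm_eq_abs, abs_of_pos hε]
      linarith
    · -- mean value inequality on a half plane
      have hc : Convex ℝ {w : ℂ | w.re ≤ max 0 z.re} := convex_halfSpace_re_le _
      have hd : ∀ w ∈ {w : ℂ | w.re ≤ max 0 z.re},
          HasDerivWithinAt (fun w : ℂ => Complex.exp (ε * w)) (Complex.exp (ε * w) * (ε * 1))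
            {w : ℂ | w.re ≤ max 0 z.re} w := fun w _ =>
        (((hasDerivAt_id w).const_mul (ε : ℂ)).cexp).hasDerivWithinAt
      have hb : ∀ w ∈ {w : ℂ | w.re ≤ max 0 z.re}, ‖Complex.exp (ε * w) * (ε * 1)‖ ≤ m := by
        intro w hw
        rw [mul_one, norm_mul, Complex.norm_exp, Complex.norm_real, Real.norm_eq_abs,
          abs_of_pos hε]
        have e1 : ((ε : ℂ) * w).re = ε * w.re := by simp
        rw [e1]
        have e2 : Real.exp (ε * w.re) ≤ m := by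
          have hw' : w.re ≤ max 0 z.re := hw
          rcases le_total 0 z.re with h0 | h0
          · rw [max_eq_right h0] at hw'
            refine le_trans ?_ (le_max_right _ _)
            apply Real.exp_le_exp.2
            exact mul_le_mul_of_nonneg_left hw' hε.le
          · rw [max_eq_left h0] at hw'
            refine le_trans ?_ (le_max_left _ _)
            rw [Real.exp_le_one_iff]
            nlinarith
        calc Real.exp (ε * w.re) * ε ≤ m * 1 := by gcongr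
          _ = m := mul_one _
      have h3 := Convex.norm_image_sub_le_of_norm_hasDerivWithin_le hd hb hc
        (x := 0) (y := z) (by simp) (by simp)
      have h4 : Complex.exp (ε * z) - Complex.exp (ε * 0) = z * T_ph ε z := by
        rw [T_ph_mul]; simp
      rw [h4, sub_zero, norm_mul, mul_comm ‖z‖] at h3
      exact le_of_mul_le_mul_right h3 (norm_pos_iff.2 hz)
  nlinarith

theorem T_ph_pow {ε : ℝ} (hε : 0 < ε) (hε1 : ε ≤ 1) {p : ℕ} (hp : p * ε ≤ 1) (z : ℂ) :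
    (1 + ‖z‖) ^ p * ‖T_ph ε z‖ ^ p ≤ 3 ^ p * max 1 ‖Complex.exp z‖ := by
  rw [← mul_pow]
  have h1 := T_ph_le hε hε1 z
  calc ((1 + ‖z‖) * ‖T_ph ε z‖) ^ p ≤ (3 * max 1 (Real.exp (ε * z.re))) ^ p := by gcongr
    _ = 3 ^ p * (max 1 (Real.exp (ε * z.re))) ^ p := mul_pow _ _ _
    _ ≤ _ := by
      gcongr
      rw [Complex.norm_exp]
      rcases le_total 0 z.re with h0 | h0
      · have e1 : max 1 (Real.exp (ε * z.re)) = Real.exp (ε * z.re) :=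
          max_eq_right (Real.one_le_exp (by positivity))
        rw [e1, ← Real.exp_nat_mul]
        refine le_trans ?_ (le_max_right _ _)
        apply Real.exp_le_exp.2
        nlinarith
      · have e1 : max 1 (Real.exp (ε * z.re)) = 1 :=
          max_eq_left (Real.exp_le_one_iff.2 (by nlinarith))
        rw [e1, one_pow]
        exact le_max_left _ _

theorem T_one_le_wt {n : ℕ} (e : Pt n) : 1 ≤ wt e := by
  unfold wt
  exact T_one_le_prod _ _ fun i _ => le_max_left _ _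

theorem T_prod_ge {n : ℕ} (e : Pt n) : 1 + ‖e‖ ≤ ∏ i, (1 + ‖e i‖) := by
  have h1 : ∀ i, 1 ≤ 1 + ‖e i‖ := fun i => by linarith [norm_nonneg (e i)]
  have h2 : (1 : ℝ) ≤ ∏ i, (1 + ‖e i‖) := T_one_le_prod _ _ fun i _ => h1 i
  have h3 : ‖e‖ ≤ ∏ i, (1 + ‖e i‖) - 1 := by
    rw [pi_norm_le_iff_of_nonneg (by linarith)]
    intro i
    have h4 : 1 + ‖e i‖ ≤ ∏ i, (1 + ‖e i‖) := by
      have := Finset.mul_prod_erase Finset.univ (fun i => 1 + ‖e i‖) (Finset.mem_univ i)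
      rw [← this]
      have h5 : (1 : ℝ) ≤ ∏ x ∈ Finset.univ.erase i, (1 + ‖e x‖) :=
        T_one_le_prod _ _ fun i _ => h1 i
      nlinarith [h1 i]
    linarith
  linarith

theorem T_phs {n : ℕ} {ε : ℝ} (hε : 0 < ε) (hε1 : ε ≤ 1) {p : ℕ} (hp : p * ε ≤ 1) (e : Pt n) :
    (1 + ‖e‖) ^ p * ‖∏ i, T_ph ε (e i) ^ p‖ ≤ 3 ^ (n * p) * wt e := by
  have h1 : ∏ i, ((1 + ‖e i‖) ^ p * ‖T_ph ε (e i)‖ ^ p) ≤
      ∏ i, (3 ^ p * max 1 ‖Complex.exp (e i)‖) := by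
    apply Finset.prod_le_prod
    · intro i _; positivity
    · intro i _
      exact T_ph_pow hε hε1 hp (e i)
  rw [Finset.prod_mul_distrib, Finset.prod_mul_distrib, Finset.prod_const, Finset.card_univ,
    Fintype.card_fin, ← pow_mul, mul_comm p n, Finset.prod_pow] at h1
  have h2 : ‖∏ i, T_ph ε (e i) ^ p‖ = ∏ i, ‖T_ph ε (e i)‖ ^ p := by
    rw [norm_prod]
    simp only [norm_pow]
  rw [h2]
  refine le_trans ?_ h1
  gcongr
  exact T_prod_ge e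

/-! ### derivatives -/

theorem T_sliceA {n : ℕ} {D : Set ℂ} {g : ℂ × Pt n → Pt n} (hg : AnalyticOnNhd ℂ g (D ×ˢ univ))
    {t : ℂ} (ht : t ∈ D) : AnalyticOnNhd ℂ (fun y => g (t, y)) univ := by
  intro y _
  have h2 : AnalyticAt ℂ (fun y : Pt n => ((t, y) : ℂ × Pt n)) y :=
    analyticAt_const.prod analyticAt_id
  exact AnalyticAt.fun_comp (g := g) (f := fun y : Pt n => ((t, y) : ℂ × Pt n))
    (hg (t, y) ⟨ht, mem_univ _⟩) h2

theorem T_slice {n : ℕ} {D : Set ℂ} {g : ℂ × Pt n → Pt n} (hg : AnalyticOnNhd ℂ g (D ×ˢ univ))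
    {t : ℂ} (ht : t ∈ D) : Differentiable ℂ fun y => g (t, y) := fun y =>
  (T_sliceA hg ht y (mem_univ _)).differentiableAt

theorem T_wt_le {n : ℕ} {e e' : Pt n} (h : ‖e' - e‖ ≤ 1) : wt e' ≤ Real.exp 1 ^ n * wt e := by
  unfold wt
  have h1 : ∀ i ∈ (Finset.univ : Finset (Fin n)), max 1 ‖Complex.exp (e' i)‖ ≤
      Real.exp 1 * max 1 ‖Complex.exp (e i)‖ := by
    intro i _
    have h2 : ‖e' i - e i‖ ≤ 1 := (norm_le_pi_norm (e' - e) i).trans h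
    have h3 := (Complex.abs_re_le_norm (e' i - e i)).trans h2
    rw [Complex.sub_re] at h3
    have h4 := (abs_le.1 h3).2
    have h5 : (1 : ℝ) ≤ Real.exp 1 := Real.one_le_exp zero_le_one
    apply max_le
    · have h6 : (1 : ℝ) ≤ max 1 ‖Complex.exp (e i)‖ := le_max_left _ _
      nlinarith
    · calc ‖Complex.exp (e' i)‖ = Real.exp (e' i).re := Complex.norm_exp _
        _ ≤ Real.exp (1 + (e i).re) := Real.exp_le_exp.2 (by linarith)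
        _ = Real.exp 1 * ‖Complex.exp (e i)‖ := by rw [Real.exp_add, Complex.norm_exp]
        _ ≤ _ := by gcongr; exact le_max_right _ _
  calc ∏ i, max 1 ‖Complex.exp (e' i)‖ ≤ ∏ i, (Real.exp 1 * max 1 ‖Complex.exp (e i)‖) :=
        Finset.prod_le_prod (fun i _ => by positivity) h1
    _ = _ := by
      rw [Finset.prod_mul_distrib, Finset.prod_const, Finset.card_univ, Fintype.card_fin]

theorem T_det_le {n : ℕ} (J : Matrix (Fin n) (Fin n) ℂ) {M : ℝ} (h : ∀ i j, ‖J i j‖ ≤ M) :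
    ‖J.det‖ ≤ n.factorial * M ^ n := by
  have h1 := Matrix.det_le (A := J) (abv := (NormedField.toAbsoluteValue ℂ)) (x := M)
    (fun i j => h i j)
  rw [Fintype.card_fin, nsmul_eq_mul] at h1
  exact h1

theorem T_der {n : ℕ} {D : Set ℂ} {g E : ℂ × Pt n → Pt n} {Λ : ℂ × Pt n → ℂ} {A : ℝ} {ρ : ℕ}
    (h : Ctl D g E Λ A ρ) : ∃ C : ℝ, 1 ≤ C ∧ ∀ t ∈ D, ∀ x, ∃ r M : ℝ, 0 < r ∧
      1 / r ≤ C * (1 + ‖x‖) ^ ρ ∧ 1 ≤ M ∧ M ≤ C * (1 + ‖x‖) ^ (3 * ρ) * wt (E (t, x)) ^ ρ ∧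
      ‖Jd g (t, x)‖ ≤ n.factorial * M ^ n ∧
      (g (t, x) = 0 → ∀ y, g (t, y) = 0 → y ∈ ball x r → y ≠ x →
        ‖Jd g (t, x)‖ ≤ (n * n.factorial : ℕ) * M ^ (n + 1) * ‖y - x‖) := by
  have hA := h.A1
  have hA0 : 0 < A := by linarith
  have hexp : (1 : ℝ) ≤ Real.exp 1 := Real.one_le_exp zero_le_one
  refine ⟨9 * A ^ 3 * 2 ^ ρ * (Real.exp 1 ^ n) ^ ρ * 4 ^ (2 * ρ) + 3 * A * 4 ^ ρ, ?_,
    fun t ht x => ?_⟩
  · have h1 : 0 ≤ 9 * A ^ 3 * 2 ^ ρ * (Real.exp 1 ^ n) ^ ρ * 4 ^ (2 * ρ) := by positivity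
    have h2 : (1 : ℝ) ≤ 4 ^ ρ := one_le_pow₀ (by norm_num)
    nlinarith
  obtain ⟨X, hX⟩ : ∃ X, X = 1 + ‖x‖ := ⟨_, rfl⟩
  obtain ⟨W, hW⟩ : ∃ W, W = wt (E (t, x)) := ⟨_, rfl⟩
  have hX1 : 1 ≤ X := by rw [hX]; linarith [norm_nonneg x]
  have hX0 : 0 < X := by linarith
  have hW1 : 1 ≤ W := by rw [hW]; exact T_one_le_wt _
  have hW0 : 0 < W := by linarith
  rw [← hX, ← hW]
  obtain ⟨KE, hKE⟩ : ∃ KE, KE = A * (4 * X) ^ ρ := ⟨_, rfl⟩
  have hKE1 : 1 ≤ KE := by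
    rw [hKE]
    have : (1 : ℝ) ≤ (4 * X) ^ ρ := one_le_pow₀ (by linarith)
    nlinarith
  have hKE0 : 0 < KE := by linarith
  -- the exponents
  have hE := T_slice h.anE ht
  have hEb := cauchy (x := x) one_pos (T_sliceA h.anE ht) (K := KE) (by
    intro y hy
    rw [mem_ball, dist_eq_norm, mul_one] at hy
    refine (h.bE t ht y).trans ?_
    rw [hKE]
    have : 1 + ‖y‖ ≤ 4 * X := by
      have := norm_add_le (y - x) x
      rw [sub_add_cancel] at this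
      rw [hX]; linarith [norm_nonneg x]
    gcongr)
  have hEl : ∀ y ∈ ball x 1, ‖E (t, y) - E (t, x)‖ ≤ KE * ‖y - x‖ := by
    intro y hy
    exact Convex.norm_image_sub_le_of_norm_fderiv_le (𝕜 := ℂ) (f := fun y => E (t, y))
      (fun z _ => hE z) (fun z hz => by simpa using hEb.1 z hz) (convex_ball x 1)
      (mem_ball_self one_pos) hy
  obtain ⟨r, hr⟩ : ∃ r, r = 1 / (3 * KE) := ⟨_, rfl⟩
  have hr0 : 0 < r := by rw [hr]; positivity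
  have h3r : 3 * r = 1 / KE := by rw [hr]; field_simp
  have h3r1 : 3 * r ≤ 1 := by
    rw [h3r, div_le_one hKE0]; exact hKE1
  have hE1 : ∀ y ∈ ball x (3 * r), ‖E (t, y) - E (t, x)‖ ≤ 1 := by
    intro y hy
    have h1 := hEl y (ball_subset_ball h3r1 hy)
    rw [mem_ball, dist_eq_norm, h3r] at hy
    calc _ ≤ KE * ‖y - x‖ := h1
      _ ≤ KE * (1 / KE) := by gcongr
      _ = 1 := by field_simp
  -- the equations
  have hg := T_slice h.ang ht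
  obtain ⟨Kg, hKg⟩ : ∃ Kg, Kg = A * ((2 * X) * (Real.exp 1 ^ n * W)) ^ ρ := ⟨_, rfl⟩
  have hKg1 : 1 ≤ Kg := by
    rw [hKg]
    have h1 : (1 : ℝ) ≤ Real.exp 1 ^ n := one_le_pow₀ hexp
    have h2 : (1 : ℝ) ≤ (2 * X) * (Real.exp 1 ^ n * W) := by
      have : (1 : ℝ) ≤ Real.exp 1 ^ n * W := one_le_mul_of_one_le_of_one_le h1 hW1
      nlinarith
    have h3 : (1 : ℝ) ≤ ((2 * X) * (Real.exp 1 ^ n * W)) ^ ρ := one_le_pow₀ h2
    nlinarith
  have hgb := cauchy (x := x) hr0 (T_sliceA h.ang ht) (K := Kg) (by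
    intro y hy
    refine (h.bg t ht y).trans ?_
    have h1 := T_wt_le (hE1 y hy)
    rw [mem_ball, dist_eq_norm] at hy
    have h2 : 1 + ‖y‖ ≤ 2 * X := by
      have := norm_add_le (y - x) x
      rw [sub_add_cancel] at this
      rw [hX]; linarith [norm_nonneg x]
    have h3 : 0 ≤ wt (E (t, y)) := zero_le_one.trans (T_one_le_wt _)
    rw [hKg]
    rw [← hW] at h1
    gcongr)
  obtain ⟨M, hM⟩ : ∃ M, M = Kg / r ^ 2 := ⟨_, rfl⟩
  have hr1 : r ≤ 1 := by linarith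
  have hKgr : Kg / r ≤ M := by
    rw [hM]
    apply div_le_div_of_nonneg_left (by linarith) (by positivity)
    nlinarith
  have hM1 : 1 ≤ M := by
    refine le_trans ?_ hKgr
    rw [le_div_iff₀ hr0]; linarith
  have hd1 : ‖fderiv ℂ (fun y => g (t, y)) x‖ ≤ M := (hgb.1 x (mem_ball_self hr0)).trans hKgr
  have hMe : M = 9 * A ^ 3 * 2 ^ ρ * (Real.exp 1 ^ n) ^ ρ * 4 ^ (2 * ρ) * X ^ (3 * ρ) * W ^ ρ := by
    rw [hM, hr, hKg, hKE]
    rw [mul_pow, mul_pow, mul_pow]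
    field_simp
    ring
  refine ⟨r, M, hr0, ?_, hM1, ?_, ?_, ?_⟩
  · rw [hr, one_div_one_div, hKE, mul_pow]
    have h1 : 0 ≤ 9 * A ^ 3 * 2 ^ ρ * (Real.exp 1 ^ n) ^ ρ * 4 ^ (2 * ρ) * X ^ ρ := by positivity
    linarith
  · rw [hMe]
    have h1 : 0 ≤ 3 * A * 4 ^ ρ * X ^ (3 * ρ) * W ^ ρ := by positivity
    linarith
  · apply T_det_le
    intro i j
    have h1 : ‖pJ (fun y => g (t, y)) x i j‖ ≤ ‖fderiv ℂ (fun y => g (t, y)) x
        (Pi.single j 1)‖ := norm_le_pi_norm (fderiv ℂ (fun y => g (t, y)) x (Pi.single j 1)) i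
    have h2 := (fderiv ℂ (fun y => g (t, y)) x).le_opNorm (Pi.single j 1)
    have h3 : ‖(Pi.single j 1 : Pt n)‖ ≤ 1 := by
      rw [pi_norm_le_iff_of_nonneg zero_le_one]
      intro k
      rcases eq_or_ne k j with rfl | hk
      · simp
      · rw [Pi.single_eq_of_ne hk, norm_zero]; exact zero_le_one
    calc _ ≤ _ := h1
      _ ≤ _ := h2
      _ ≤ M * 1 := by gcongr
      _ = M := mul_one _
  · intro hx y hy hyr hne
    exact sep hM1 (fun z _ => hg z) hd1 (fun z hz => by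
      rw [hM]; exact hgb.2 z hz) hx hy hyr hne

/-! ### polynomially bounded quantities -/

/-- `u` is bounded by a constant times a power of `b` -/
def T_pb {α : Type*} (b u : α → ℝ) : Prop := ∃ (C : ℝ) (κ : ℕ), 0 ≤ C ∧ ∀ a, u a ≤ C * b a ^ κ

section pb

variable {α : Type*} {b u v : α → ℝ}

theorem T_pb_const (c : ℝ) : T_pb b fun _ => c :=
  ⟨|c|, 0, abs_nonneg _, fun a => by simpa using le_abs_self c⟩

theorem T_pb_self : T_pb b b := ⟨1, 1, zero_le_one, fun a => by simp⟩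

theorem T_pb_mono (hv : T_pb b v) (h : ∀ a, u a ≤ v a) : T_pb b u := by
  obtain ⟨C, κ, hC, hv⟩ := hv
  exact ⟨C, κ, hC, fun a => (h a).trans (hv a)⟩

theorem T_pb_add (hb : ∀ a, 1 ≤ b a) (hu : T_pb b u) (hv : T_pb b v) :
    T_pb b fun a => u a + v a := by
  obtain ⟨C, κ, hC, hu⟩ := hu
  obtain ⟨C', κ', hC', hv⟩ := hv
  refine ⟨C + C', κ + κ', by positivity, fun a => ?_⟩
  have h1 : b a ^ κ ≤ b a ^ (κ + κ') := pow_le_pow_right₀ (hb a) (by omega)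
  have h2 : b a ^ κ' ≤ b a ^ (κ + κ') := pow_le_pow_right₀ (hb a) (by omega)
  calc u a + v a ≤ C * b a ^ κ + C' * b a ^ κ' := add_le_add (hu a) (hv a)
    _ ≤ C * b a ^ (κ + κ') + C' * b a ^ (κ + κ') := by gcongr
    _ = _ := by ring

theorem T_pb_mul (hb : ∀ a, 1 ≤ b a) (hv0 : ∀ a, 0 ≤ v a) (hu : T_pb b u) (hv : T_pb b v) :
    T_pb b fun a => u a * v a := by
  obtain ⟨C, κ, hC, hu⟩ := hu
  obtain ⟨C', κ', hC', hv⟩ := hv
  refine ⟨C * C', κ + κ', by positivity, fun a => ?_⟩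
  have h0 : 0 ≤ C * b a ^ κ := by
    have := hb a
    positivity
  calc u a * v a ≤ (C * b a ^ κ) * v a := mul_le_mul_of_nonneg_right (hu a) (hv0 a)
    _ ≤ (C * b a ^ κ) * (C' * b a ^ κ') := mul_le_mul_of_nonneg_left (hv a) h0
    _ = _ := by ring

theorem T_pb_pow (hu0 : ∀ a, 0 ≤ u a) (hu : T_pb b u) (k : ℕ) : T_pb b fun a => u a ^ k := by
  obtain ⟨C, κ, hC, hu⟩ := hu
  refine ⟨C ^ k, κ * k, by positivity, fun a => ?_⟩
  calc u a ^ k ≤ (C * b a ^ κ) ^ k := pow_le_pow_left₀ (hu0 a) (hu a) k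
    _ = _ := by rw [mul_pow, pow_mul]

end pb

/-! ### the size of the test function -/

/-- at the zeros `|Λ|^n W` is bounded -/
theorem T_lam {n : ℕ} {D : Set ℂ} {g E : ℂ × Pt n → Pt n} {Λ : ℂ × Pt n → ℂ} {A : ℝ} {ρ : ℕ}
    (h : Ctl D g E Λ A ρ) {t : ℂ} (ht : t ∈ D) {x : Pt n} (hx : g (t, x) = 0)
    (hJ : Jd g (t, x) ≠ 0) :
    ‖Λ (t, x)‖ ^ n * wt (E (t, x)) ≤ (A * (1 + ‖x‖) ^ ρ) ^ n := by
  have h1 : ‖Λ (t, x)‖ ^ n * wt (E (t, x)) =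
      ∏ i : Fin n, (‖Λ (t, x)‖ * max 1 ‖Complex.exp (E (t, x) i)‖) := by
    rw [Finset.prod_mul_distrib, Finset.prod_const, Finset.card_univ, Fintype.card_fin]
    rfl
  rw [h1]
  calc _ ≤ ∏ _i : Fin n, (A * (1 + ‖x‖) ^ ρ) := by
        apply Finset.prod_le_prod
        · intro i _; positivity
        · intro i _
          rw [mul_max_of_nonneg _ _ (norm_nonneg _), mul_one]
          exact max_le (h.bL t ht x) (h.bz t ht x hx hJ i)
    _ = _ := by rw [Finset.prod_const, Finset.card_univ, Fintype.card_fin]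

theorem T_size {n : ℕ} {D : Set ℂ} {g E : ℂ × Pt n → Pt n} {Λ : ℂ × Pt n → ℂ} {A : ℝ} {ρ : ℕ}
    (h : Ctl D g E Λ A ρ) (d : ℕ) : ∃ p' : ℕ, ∀ (ε : ℝ), 0 < ε → ε ≤ 1 →
      ((ρ * p' : ℕ) : ℝ) * ε ≤ 1 → ∀ Cq : ℝ, 1 ≤ Cq → ∀ q : Pt n → ℂ,
      (∀ x, ‖q x‖ ≤ Cq * (1 + ‖x‖) ^ d) → ∃ C3 : ℝ, 1 ≤ C3 ∧ ∀ t ∈ D, ∀ x, g (t, x) = 0 →
      (1 + ‖x‖) ^ (ρ + 1) * ‖Jd g (t, x) * Λ (t, x) ^ (n * (ρ * n) + n + 1) * q x *
        ∏ i, T_ph ε (E (t, x) i) ^ (ρ * p')‖ ≤ C3 * ‖Λ (t, x)‖ := by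
  obtain ⟨C1, hC1, hder⟩ := T_der h
  have hA := h.A1
  obtain ⟨κ2, hκ2⟩ : ∃ κ2, κ2 = 3 * ρ * n + ρ * (n * (ρ * n)) + ρ * n + d := ⟨_, rfl⟩
  refine ⟨κ2 + (ρ + 1), fun ε hε hε1 hp Cq hCq q hq => ?_⟩
  obtain ⟨p, hpdef⟩ : ∃ p, p = ρ * (κ2 + (ρ + 1)) := ⟨_, rfl⟩
  rw [← hpdef] at hp ⊢
  obtain ⟨C2, hC2⟩ : ∃ C2 : ℝ, C2 = n.factorial * C1 ^ n * A ^ (n * (ρ * n)) * (3 ^ (n * p) * A ^ n)
    * Cq := ⟨_, rfl⟩
  have hC21 : 1 ≤ C2 := by
    rw [hC2]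
    have e1 : (1 : ℝ) ≤ n.factorial := by exact_mod_cast Nat.one_le_iff_ne_zero.2 (Nat.factorial_ne_zero n)
    have e2 : (1 : ℝ) ≤ C1 ^ n := one_le_pow₀ hC1
    have e3 : (1 : ℝ) ≤ A ^ (n * (ρ * n)) := one_le_pow₀ hA
    have e4 : (1 : ℝ) ≤ 3 ^ (n * p) := one_le_pow₀ (by norm_num)
    have e5 : (1 : ℝ) ≤ A ^ n := one_le_pow₀ hA
    exact one_le_mul_of_one_le_of_one_le (one_le_mul_of_one_le_of_one_le
      (one_le_mul_of_one_le_of_one_le (one_le_mul_of_one_le_of_one_le e1 e2) e3)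
      (one_le_mul_of_one_le_of_one_le e4 e5)) hCq
  refine ⟨(2 * A) ^ (κ2 + (ρ + 1)) * C2, one_le_mul_of_one_le_of_one_le
    (one_le_pow₀ (by linarith)) hC21, fun t ht x hx => ?_⟩
  by_cases hJne : Jd g (t, x) = 0
  · rw [hJne, zero_mul, zero_mul, zero_mul, norm_zero, mul_zero]
    have : (0 : ℝ) ≤ (2 * A) ^ (κ2 + (ρ + 1)) * C2 := by
      have h1 : (0 : ℝ) ≤ 2 * A := by linarith
      have h2 : (0 : ℝ) ≤ C2 := by linarith
      positivity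
    positivity
  obtain ⟨r, M, hr, hrC, hM1, hMC, hJ, -⟩ := hder t ht x
  have hLW := T_lam h ht hx hJne
  have hph := T_phs hε hε1 hp (E (t, x))
  have hbp := h.bp t ht x
  have hqx := hq x
  obtain ⟨X, hX⟩ : ∃ X, X = 1 + ‖x‖ := ⟨_, rfl⟩
  obtain ⟨W, hW⟩ : ∃ W, W = wt (E (t, x)) := ⟨_, rfl⟩
  obtain ⟨Y, hY⟩ : ∃ Y, Y = 1 + ‖E (t, x)‖ := ⟨_, rfl⟩
  obtain ⟨l, hl⟩ : ∃ l, l = ‖Λ (t, x)‖ := ⟨_, rfl⟩
  obtain ⟨Φ, hΦ⟩ : ∃ Φ, Φ = ‖∏ i, T_ph ε (E (t, x) i) ^ p‖ := ⟨_, rfl⟩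
  obtain ⟨J, hJdef⟩ : ∃ J, J = ‖Jd g (t, x)‖ := ⟨_, rfl⟩
  obtain ⟨q0, hq0⟩ : ∃ q0, q0 = ‖q x‖ := ⟨_, rfl⟩
  have hX1 : 1 ≤ X := by rw [hX]; linarith [norm_nonneg x]
  have hW1 : 1 ≤ W := by rw [hW]; exact T_one_le_wt _
  have hY1 : 1 ≤ Y := by rw [hY]; linarith [norm_nonneg (E (t, x))]
  have hl0 : 0 ≤ l := by rw [hl]; exact norm_nonneg _
  have hΦ0 : 0 ≤ Φ := by rw [hΦ]; exact norm_nonneg _
  have hJ0 : 0 ≤ J := by rw [hJdef]; exact norm_nonneg _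
  have hq00 : 0 ≤ q0 := by rw [hq0]; exact norm_nonneg _
  rw [norm_mul, norm_mul, norm_mul, norm_pow, ← hX, ← hl, ← hΦ, ← hJdef, ← hq0]
  rw [← hX, ← hl, ← hW] at hLW
  rw [← hΦ, ← hY, ← hW] at hph
  rw [← hJdef] at hJ
  rw [← hX, ← hW] at hMC
  rw [← hX, ← hq0] at hqx
  rw [← hY] at hbp
  have hX0 : 0 < X := by linarith
  have hW0 : 0 < W := by linarith
  have hY0 : 0 < Y := by linarith
  have hA0 : 0 < A := by linarith
  -- `X ≤ 2 A Y^ρ`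
  have s1 : X ≤ 2 * A * Y ^ ρ := by
    have e1 : (1 : ℝ) ≤ A * Y ^ ρ := one_le_mul_of_one_le_of_one_le hA (one_le_pow₀ hY1)
    rw [hX]; linarith
  -- the Jacobian
  have s2 : J * l ^ (n * (ρ * n)) ≤ n.factorial * C1 ^ n * X ^ (3 * ρ * n) *
      (A ^ (n * (ρ * n)) * X ^ (ρ * (n * (ρ * n)))) := by
    have e1 : J ≤ n.factorial * (C1 * X ^ (3 * ρ) * W ^ ρ) ^ n := hJ.trans (by gcongr)
    calc J * l ^ (n * (ρ * n)) ≤ n.factorial * (C1 * X ^ (3 * ρ) * W ^ ρ) ^ n * l ^ (n * (ρ * n)) := by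
          gcongr
      _ = n.factorial * C1 ^ n * X ^ (3 * ρ * n) * (l ^ n * W) ^ (ρ * n) := by
          rw [mul_pow, mul_pow, mul_pow, ← pow_mul, ← pow_mul, ← pow_mul]; ring
      _ ≤ n.factorial * C1 ^ n * X ^ (3 * ρ * n) * ((A * X ^ ρ) ^ n) ^ (ρ * n) := by gcongr
      _ = _ := by rw [← pow_mul, mul_pow, ← pow_mul]
  have s3 : l ^ n * (Y ^ p * Φ) ≤ 3 ^ (n * p) * A ^ n * X ^ (ρ * n) := by
    calc l ^ n * (Y ^ p * Φ) ≤ l ^ n * (3 ^ (n * p) * W) := by gcongr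
      _ = 3 ^ (n * p) * (l ^ n * W) := by ring
      _ ≤ 3 ^ (n * p) * (A * X ^ ρ) ^ n := by gcongr
      _ = _ := by rw [mul_pow, ← pow_mul]; ring
  have s4 : Y ^ p * (J * l ^ (n * (ρ * n) + n + 1) * q0 * Φ) ≤ C2 * X ^ κ2 * l := by
    calc Y ^ p * (J * l ^ (n * (ρ * n) + n + 1) * q0 * Φ) =
        (J * l ^ (n * (ρ * n))) * (l ^ n * (Y ^ p * Φ)) * q0 * l := by ring
      _ ≤ (n.factorial * C1 ^ n * X ^ (3 * ρ * n) * (A ^ (n * (ρ * n)) * X ^ (ρ * (n * (ρ * n))))) *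
          (3 ^ (n * p) * A ^ n * X ^ (ρ * n)) * (Cq * X ^ d) * l := by gcongr
      _ = _ := by rw [hC2, hκ2]; ring
  have s5 : X ^ (κ2 + (ρ + 1)) ≤ (2 * A) ^ (κ2 + (ρ + 1)) * Y ^ p := by
    calc X ^ (κ2 + (ρ + 1)) ≤ (2 * A * Y ^ ρ) ^ (κ2 + (ρ + 1)) := by gcongr
      _ = _ := by rw [mul_pow, ← pow_mul, hpdef]
  have s6 : X ^ κ2 * (X ^ (ρ + 1) * (J * l ^ (n * (ρ * n) + n + 1) * q0 * Φ)) ≤
      X ^ κ2 * ((2 * A) ^ (κ2 + (ρ + 1)) * C2 * l) := by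
    calc _ = X ^ (κ2 + (ρ + 1)) * (J * l ^ (n * (ρ * n) + n + 1) * q0 * Φ) := by
          rw [pow_add]; ring
      _ ≤ (2 * A) ^ (κ2 + (ρ + 1)) * Y ^ p * (J * l ^ (n * (ρ * n) + n + 1) * q0 * Φ) := by gcongr
      _ = (2 * A) ^ (κ2 + (ρ + 1)) * (Y ^ p * (J * l ^ (n * (ρ * n) + n + 1) * q0 * Φ)) := by ring
      _ ≤ (2 * A) ^ (κ2 + (ρ + 1)) * (C2 * X ^ κ2 * l) := by gcongr
      _ = _ := by ring
  exact le_of_mul_le_mul_left s6 (by positivity)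

/-- the number of the zeros at which the test function is at least `1 / N` -/
theorem T_count {n : ℕ} {D : Set ℂ} {g E : ℂ × Pt n → Pt n} {Λ : ℂ × Pt n → ℂ} {A : ℝ} {ρ : ℕ}
    (h : Ctl D g E Λ A ρ) (f : ℂ × Pt n → ℂ) (Q d p : ℕ) (ε : ℝ) (hε : 0 < ε) (hε1 : ε ≤ 1)
    (hp : (p : ℝ) * ε ≤ 1) (Cq : ℝ) (q : Pt n → ℂ) (hq : ∀ x, ‖q x‖ ≤ Cq * (1 + ‖x‖) ^ d)
    (hf : ∀ t x, f (t, x) = Jd g (t, x) * Λ (t, x) ^ Q * q x * ∏ i, T_ph ε (E (t, x) i) ^ p)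
    (C3 : ℝ) (hC3 : 1 ≤ C3) (hsz : ∀ t ∈ D, ∀ x, g (t, x) = 0 →
      (1 + ‖x‖) ^ (ρ + 1) * ‖f (t, x)‖ ≤ C3 * ‖Λ (t, x)‖) (hQ : Q ≠ 0) :
    ∃ C κ : ℕ, ∀ t ∈ D, ∀ N : ℕ, ∀ S : Finset (Pt n),
      (∀ x ∈ S, g (t, x) = 0 ∧ 1 ≤ (N : ℝ) * ‖f (t, x)‖) → S.card ≤ C * (N + 1) ^ κ := by
  obtain ⟨C1, hC1, hder⟩ := T_der h
  choose! rr MM hr hrC hM1 hMC hJ hsep using hder
  have hA := h.A1
  have hA0 : 0 < A := by linarith
  let α := {a : ℂ × ℕ × Pt n // a.1 ∈ D ∧ g (a.1, a.2.2) = 0 ∧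
    1 ≤ (a.2.1 : ℝ) * ‖f (a.1, a.2.2)‖}
  let b : α → ℝ := fun a => (a.1.2.1 : ℝ) + 1
  have hb : ∀ a, 1 ≤ b a := fun a => by
    have : (0 : ℝ) ≤ a.1.2.1 := Nat.cast_nonneg _
    simp only [b]; linarith
  let X : α → ℝ := fun a => 1 + ‖a.1.2.2‖
  let l : α → ℝ := fun a => ‖Λ (a.1.1, a.1.2.2)‖
  let W : α → ℝ := fun a => wt (E (a.1.1, a.1.2.2))
  let J : α → ℝ := fun a => ‖Jd g (a.1.1, a.1.2.2)‖
  let r : α → ℝ := fun a => rr a.1.1 a.1.2.2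
  let M : α → ℝ := fun a => MM a.1.1 a.1.2.2
  have hX1 : ∀ a, 1 ≤ X a := fun a => by
    simp only [X]; linarith [norm_nonneg a.1.2.2]
  have hX0 : ∀ a, 0 ≤ X a := fun a => zero_le_one.trans (hX1 a)
  have hW1 : ∀ a, 1 ≤ W a := fun a => T_one_le_wt _
  have hW0 : ∀ a, 0 ≤ W a := fun a => zero_le_one.trans (hW1 a)
  have hN0 : ∀ a : α, (0 : ℝ) ≤ a.1.2.1 := fun a => Nat.cast_nonneg _
  have hNb : ∀ a : α, (a.1.2.1 : ℝ) ≤ b a := fun a => by simp only [b]; linarith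
  have hf0 : ∀ a : α, f (a.1.1, a.1.2.2) ≠ 0 := by
    intro a h0
    have := a.2.2.2
    rw [h0, norm_zero, mul_zero] at this
    linarith
  have hl0 : ∀ a, 0 < l a := by
    intro a
    apply norm_pos_iff.2
    intro h0
    apply hf0 a
    rw [hf, h0, zero_pow hQ]; ring
  have hJ0 : ∀ a, 0 < J a := by
    intro a
    apply norm_pos_iff.2
    intro h0
    apply hf0 a
    rw [hf, h0]; ring
  have hX1' : ∀ (a : α) (k : ℕ), 1 ≤ X a ^ k := fun a k => one_le_pow₀ (hX1 a)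
  -- `X`
  have pX : T_pb b X := by
    refine T_pb_mono (T_pb_mul hb (fun a => zero_le_one.trans (hb a)) (T_pb_const (C3 * A))
      T_pb_self) fun a => ?_
    have h1 := hsz a.1.1 a.2.1 a.1.2.2 a.2.2.1
    have h2 := h.bL a.1.1 a.2.1 a.1.2.2
    change X a ^ (ρ + 1) * _ ≤ C3 * l a at h1
    change l a ≤ A * X a ^ ρ at h2
    have h3 : X a ^ ρ * (X a * ‖f (a.1.1, a.1.2.2)‖) ≤ X a ^ ρ * (C3 * A) := by
      calc _ = X a ^ (ρ + 1) * ‖f (a.1.1, a.1.2.2)‖ := by ring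
        _ ≤ C3 * l a := h1
        _ ≤ C3 * (A * X a ^ ρ) := by gcongr
        _ = _ := by ring
    have h4 : X a * ‖f (a.1.1, a.1.2.2)‖ ≤ C3 * A :=
      le_of_mul_le_mul_left h3 (lt_of_lt_of_le zero_lt_one (hX1' a ρ))
    have h5 := a.2.2.2
    calc X a = X a * 1 := (mul_one _).symm
      _ ≤ X a * (a.1.2.1 * ‖f (a.1.1, a.1.2.2)‖) := mul_le_mul_of_nonneg_left h5 (hX0 a)
      _ = (X a * ‖f (a.1.1, a.1.2.2)‖) * a.1.2.1 := by ring
      _ ≤ (C3 * A) * a.1.2.1 := mul_le_mul_of_nonneg_right h4 (hN0 a)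
      _ ≤ (C3 * A) * b a := mul_le_mul_of_nonneg_left (hNb a) (by positivity)
  -- `1 / l`
  have pl : T_pb b fun a => 1 / l a := by
    refine T_pb_mono (T_pb_mul hb (fun a => zero_le_one.trans (hb a)) (T_pb_const C3)
      T_pb_self) fun a => ?_
    rw [div_le_iff₀ (hl0 a)]
    have h1 := hsz a.1.1 a.2.1 a.1.2.2 a.2.2.1
    change X a ^ (ρ + 1) * _ ≤ C3 * l a at h1
    have h5 := a.2.2.2
    have h6 : ‖f (a.1.1, a.1.2.2)‖ ≤ X a ^ (ρ + 1) * ‖f (a.1.1, a.1.2.2)‖ := by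
      have := hX1' a (ρ + 1)
      nlinarith [norm_nonneg (f (a.1.1, a.1.2.2))]
    calc 1 ≤ (a.1.2.1 : ℝ) * ‖f (a.1.1, a.1.2.2)‖ := h5
      _ ≤ a.1.2.1 * (C3 * l a) := mul_le_mul_of_nonneg_left (h6.trans h1) (hN0 a)
      _ ≤ b a * (C3 * l a) := mul_le_mul_of_nonneg_right (hNb a)
          (mul_nonneg (by linarith) (hl0 a).le)
      _ = C3 * b a * l a := by ring
  -- `W`
  have pXr : T_pb b fun a => A * X a ^ ρ :=
    T_pb_mul hb (fun a => pow_nonneg (hX0 a) _) (T_pb_const A) (T_pb_pow hX0 pX ρ)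
  have hAX0 : ∀ a : α, 0 ≤ A * X a ^ ρ := fun a => mul_nonneg hA0.le (pow_nonneg (hX0 a) _)
  have hl1 : ∀ a : α, 0 ≤ 1 / l a := fun a => by have := hl0 a; positivity
  have pW : T_pb b W := by
    refine T_pb_mono (T_pb_mul hb (fun a => pow_nonneg (hl1 a) n) (T_pb_pow hAX0 pXr n)
      (T_pb_pow hl1 pl n)) fun a => ?_
    have h1 := T_lam h a.2.1 a.2.2.1 (norm_pos_iff.1 (hJ0 a))
    change l a ^ n * W a ≤ (A * X a ^ ρ) ^ n at h1
    have h2 : 0 < l a ^ n := pow_pos (hl0 a) n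
    rw [one_div, inv_pow, ← div_eq_mul_inv, le_div_iff₀ h2]
    linarith
  have pM : T_pb b M := by
    refine T_pb_mono (T_pb_mul hb (fun a => pow_nonneg (hW0 a) ρ) (T_pb_mul hb
      (fun a => pow_nonneg (hX0 a) (3 * ρ)) (T_pb_const C1) (T_pb_pow hX0 pX (3 * ρ)))
      (T_pb_pow hW0 pW ρ)) fun a => ?_
    exact hMC a.1.1 a.2.1 a.1.2.2
  have hM0 : ∀ a, 0 ≤ M a := fun a => zero_le_one.trans (hM1 a.1.1 a.2.1 a.1.2.2)
  have pr : T_pb b fun a => 1 / r a := by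
    refine T_pb_mono (T_pb_mul hb (fun a => pow_nonneg (hX0 a) ρ) (T_pb_const C1)
      (T_pb_pow hX0 pX ρ)) fun a => ?_
    exact hrC a.1.1 a.2.1 a.1.2.2
  have pJ' : T_pb b fun a => 1 / J a := by
    refine T_pb_mono (T_pb_mul hb (fun a => hW0 a) (T_pb_mul hb
      (fun a => pow_nonneg (hX0 a) d) (T_pb_mul hb (fun a => pow_nonneg (hAX0 a) Q)
      (T_pb_mul hb (fun a => zero_le_one.trans (hb a)) (T_pb_const (3 ^ (n * p) * |Cq|)) T_pb_self)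
      (T_pb_pow hAX0 pXr Q)) (T_pb_pow hX0 pX d)) pW) fun a => ?_
    rw [div_le_iff₀ (hJ0 a)]
    have h5 := a.2.2.2
    rw [hf, norm_mul, norm_mul, norm_mul, norm_pow] at h5
    change 1 ≤ (a.1.2.1 : ℝ) * (J a * l a ^ Q * ‖q a.1.2.2‖ * _) at h5
    have h2 := h.bL a.1.1 a.2.1 a.1.2.2
    change l a ≤ A * X a ^ ρ at h2
    have h3 : ‖q a.1.2.2‖ ≤ |Cq| * X a ^ d := by
      refine (hq a.1.2.2).trans ?_
      exact mul_le_mul_of_nonneg_right (le_abs_self _) (pow_nonneg (hX0 a) d)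
    have h4 : ‖∏ i, T_ph ε (E (a.1.1, a.1.2.2) i) ^ p‖ ≤ 3 ^ (n * p) * W a := by
      have h6 := T_phs hε hε1 hp (E (a.1.1, a.1.2.2))
      have h7 : (1 : ℝ) ≤ (1 + ‖E (a.1.1, a.1.2.2)‖) ^ p :=
        one_le_pow₀ (by linarith [norm_nonneg (E (a.1.1, a.1.2.2))])
      refine le_trans ?_ h6
      have h8 := norm_nonneg (∏ i, T_ph ε (E (a.1.1, a.1.2.2) i) ^ p)
      nlinarith
    have hJa := (hJ0 a).le
    have hla := (hl0 a).le
    have hba : 0 ≤ b a := zero_le_one.trans (hb a)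
    have hXa := hX0 a
    have hWa := hW0 a
    have hAXa := hAX0 a
    calc 1 ≤ _ := h5
      _ ≤ b a * (J a * (A * X a ^ ρ) ^ Q * (|Cq| * X a ^ d) * (3 ^ (n * p) * W a)) := by
          gcongr
          exact hNb a
      _ = _ := by ring
  -- the separation
  have hJ1 : ∀ a : α, 0 ≤ 1 / J a := fun a => by have := hJ0 a; positivity
  have hr0 : ∀ a : α, 0 < r a := fun a => hr a.1.1 a.2.1 a.1.2.2
  have pH : T_pb b fun a => 1 / r a + ((n * n.factorial : ℕ) : ℝ) * M a ^ (n + 1) * (1 / J a) :=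
    T_pb_add hb pr (T_pb_mul hb hJ1 (T_pb_mul hb (fun a => pow_nonneg (hM0 a) (n + 1))
      (T_pb_const _) (T_pb_pow hM0 pM (n + 1))) pJ')
  obtain ⟨CX, κX, hCX, hXle⟩ := pX
  obtain ⟨CH, κH, hCH, hHle⟩ := pH
  refine ⟨⌈(4 * CX * (CH + 1) + 3) ^ (2 * n)⌉₊, (κX + κH) * (2 * n), fun t ht N S hS => ?_⟩
  have hb1 : (1 : ℝ) ≤ (N : ℝ) + 1 := by
    have : (0 : ℝ) ≤ N := Nat.cast_nonneg _
    linarith
  have hb0 : (0 : ℝ) < (N : ℝ) + 1 := by linarith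
  have hpack := pack S (r := CX * ((N : ℝ) + 1) ^ κX) (η := 1 / ((CH + 1) * ((N : ℝ) + 1) ^ κH))
    (by positivity) (by positivity) (by
      intro x hx
      have h1 := hXle ⟨(t, N, x), ht, hS x hx⟩
      change 1 + ‖x‖ ≤ CX * ((N : ℝ) + 1) ^ κX at h1
      linarith) (by
      intro x hx y hy hxy
      let a : α := ⟨(t, N, x), ht, hS x hx⟩
      have h1 := hHle a
      change 1 / r a + ((n * n.factorial : ℕ) : ℝ) * M a ^ (n + 1) * (1 / J a) ≤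
        CH * ((N : ℝ) + 1) ^ κH at h1
      have hra := hr0 a
      have hJa := hJ0 a
      have hMa := hM0 a
      have h2 : 1 ≤ (1 / r a + ((n * n.factorial : ℕ) : ℝ) * M a ^ (n + 1) * (1 / J a)) *
          ‖x - y‖ := by
        by_cases hyr : y ∈ ball x (r a)
        · have h3 := hsep t ht x (hS x hx).1 y (hS y hy).1 hyr (Ne.symm hxy)
          change J a ≤ ((n * n.factorial : ℕ) : ℝ) * M a ^ (n + 1) * ‖y - x‖ at h3
          rw [norm_sub_rev] at h3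
          have h4 : 1 ≤ ((n * n.factorial : ℕ) : ℝ) * M a ^ (n + 1) * (1 / J a) * ‖x - y‖ := by
            calc 1 = J a * (1 / J a) := by field_simp
              _ ≤ (((n * n.factorial : ℕ) : ℝ) * M a ^ (n + 1) * ‖x - y‖) * (1 / J a) := by
                gcongr
              _ = _ := by ring
          have h5 : 0 ≤ 1 / r a * ‖x - y‖ := by positivity
          rw [add_mul]
          linarith
        · rw [mem_ball, dist_eq_norm, not_lt, norm_sub_rev] at hyr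
          have h4 : 1 ≤ 1 / r a * ‖x - y‖ := by
            rw [one_div, ← div_eq_inv_mul, le_div_iff₀ hra, one_mul]; exact hyr
          have h5 : 0 ≤ ((n * n.factorial : ℕ) : ℝ) * M a ^ (n + 1) * (1 / J a) * ‖x - y‖ := by
            positivity
          rw [add_mul]
          linarith
      rw [div_le_iff₀ (by positivity)]
      have hpw : (0 : ℝ) ≤ ((N : ℝ) + 1) ^ κH := by positivity
      calc 1 ≤ _ := h2
        _ ≤ (CH * ((N : ℝ) + 1) ^ κH) * ‖x - y‖ := mul_le_mul_of_nonneg_right h1 (norm_nonneg _)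
        _ ≤ ((CH + 1) * ((N : ℝ) + 1) ^ κH) * ‖x - y‖ := by
            apply mul_le_mul_of_nonneg_right _ (norm_nonneg _)
            nlinarith
        _ = _ := mul_comm _ _)
  have hfin : (S.card : ℝ) ≤ (⌈(4 * CX * (CH + 1) + 3) ^ (2 * n)⌉₊ : ℝ) *
      ((N : ℝ) + 1) ^ ((κX + κH) * (2 * n)) := by
    refine hpack.trans ?_
    have e1 : 4 * (CX * ((N : ℝ) + 1) ^ κX) / (1 / ((CH + 1) * ((N : ℝ) + 1) ^ κH)) + 3 ≤
        (4 * CX * (CH + 1) + 3) * ((N : ℝ) + 1) ^ (κX + κH) := by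
      have e2 : 4 * (CX * ((N : ℝ) + 1) ^ κX) / (1 / ((CH + 1) * ((N : ℝ) + 1) ^ κH)) =
          4 * CX * (CH + 1) * ((N : ℝ) + 1) ^ (κX + κH) := by
        rw [div_div_eq_mul_div, div_one, pow_add]; ring
      have e3 : (1 : ℝ) ≤ ((N : ℝ) + 1) ^ (κX + κH) := one_le_pow₀ hb1
      rw [e2]
      linarith
    have e4 : 0 ≤ 4 * (CX * ((N : ℝ) + 1) ^ κX) / (1 / ((CH + 1) * ((N : ℝ) + 1) ^ κH)) + 3 := by
      positivity
    calc _ ≤ ((4 * CX * (CH + 1) + 3) * ((N : ℝ) + 1) ^ (κX + κH)) ^ (2 * n) :=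
          pow_le_pow_left₀ e4 e1 _
      _ = (4 * CX * (CH + 1) + 3) ^ (2 * n) * ((N : ℝ) + 1) ^ ((κX + κH) * (2 * n)) := by
          rw [mul_pow, ← pow_mul]
      _ ≤ _ := by
          gcongr
          exact Nat.le_ceil _
  exact_mod_cast hfin

theorem exists_test {n : ℕ} {D : Set ℂ} {g E : ℂ × Pt n → Pt n} {Λ : ℂ × Pt n → ℂ} {A : ℝ} {ρ : ℕ}
    (h : Ctl D g E Λ A ρ) {t₁ : ℂ} (ht₁ : t₁ ∈ D) (T : Finset (Pt n))
    (hT : ∀ x ∈ T, g (t₁, x) = 0 ∧ Jd g (t₁, x) ≠ 0 ∧ Λ (t₁, x) ≠ 0) :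
    ∃ f : ℂ × Pt n → ℂ, AnalyticOnNhd ℂ f (D ×ˢ univ) ∧
      (∀ p, f p ≠ 0 → Jd g p ≠ 0 ∧ Λ p ≠ 0) ∧
      (∃ B : ℝ, ∀ t ∈ D, ∀ x, g (t, x) = 0 → ‖f (t, x)‖ ≤ B) ∧
      (∀ N : ℕ, ∃ r : ℝ, ∀ t ∈ D, ∀ x, g (t, x) = 0 → 1 ≤ (N : ℝ) * ‖f (t, x)‖ → ‖x‖ ≤ r) ∧
      (∃ C κ : ℕ, ∀ t ∈ D, ∀ N : ℕ, ∀ S : Finset (Pt n),
        (∀ x ∈ S, g (t, x) = 0 ∧ 1 ≤ (N : ℝ) * ‖f (t, x)‖) → S.card ≤ C * (N + 1) ^ κ) ∧
      InjOn (fun x => f (t₁, x)) (T : Set (Pt n)) ∧ ∀ x ∈ T, f (t₁, x) ≠ 0 := by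
  obtain ⟨p', hp'⟩ := T_size h T.card
  obtain ⟨p, hpdef⟩ : ∃ p, p = ρ * p' := ⟨_, rfl⟩
  rw [← hpdef] at hp'
  obtain ⟨Q, hQdef⟩ : ∃ Q, Q = n * (ρ * n) + n + 1 := ⟨_, rfl⟩
  rw [← hQdef] at hp'
  have hQ0 : Q ≠ 0 := by omega
  -- `ε`
  obtain ⟨s, hs⟩ : ∃ s, s = ∑ x ∈ T, ‖E (t₁, x)‖ := ⟨_, rfl⟩
  have hs0 : 0 ≤ s := by rw [hs]; exact Finset.sum_nonneg fun _ _ => norm_nonneg _
  have hpr : (0 : ℝ) ≤ p := Nat.cast_nonneg _
  obtain ⟨ε, hεdef⟩ : ∃ ε, ε = 1 / ((p : ℝ) + 1 + s) := ⟨_, rfl⟩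
  have hε : 0 < ε := by rw [hεdef]; positivity
  have hε1 : ε ≤ 1 := by
    rw [hεdef, div_le_one (by positivity)]; linarith
  have hpε : (p : ℝ) * ε ≤ 1 := by
    rw [hεdef, mul_one_div, div_le_one (by positivity)]; linarith
  have hEε : ∀ x ∈ T, ∀ i, ε * ‖E (t₁, x) i‖ < 1 := by
    intro x hx i
    have h1 : ‖E (t₁, x) i‖ ≤ s := by
      rw [hs]
      exact (norm_le_pi_norm (E (t₁, x)) i).trans
        (Finset.single_le_sum (f := fun x => ‖E (t₁, x)‖) (fun _ _ => norm_nonneg _) hx)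
    rw [hεdef, one_div, ← div_eq_inv_mul, div_lt_one (by positivity)]
    linarith
  -- the values
  obtain ⟨k, hk⟩ : ∃ k : Pt n → ℕ, InjOn k (T : Set (Pt n)) :=
    Set.countable_iff_exists_injOn.1 T.countable_toSet
  let F0 : Pt n → ℂ := fun a => Jd g (t₁, a) * Λ (t₁, a) ^ Q * ∏ i, T_ph ε (E (t₁, a) i) ^ p
  have hF0 : ∀ a ∈ T, F0 a ≠ 0 := by
    intro a ha
    refine mul_ne_zero (mul_ne_zero (hT a ha).2.1 (pow_ne_zero _ (hT a ha).2.2)) ?_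
    exact Finset.prod_ne_zero_iff.2 fun i _ => pow_ne_zero _ (T_ph_ne hε (hEε a ha i))
  obtain ⟨q, hqan, ⟨Cq, hCq, hqC⟩, hqv⟩ := T_lag T (fun a => ((k a : ℂ) + 1) / F0 a)
  obtain ⟨C3, hC3, hsz⟩ := hp' ε hε hε1 hpε Cq hCq q hqC
  have hA := h.A1
  let f : ℂ × Pt n → ℂ := fun z => Jd g z * Λ z ^ Q * q z.2 * ∏ i, T_ph ε (E z i) ^ p
  have hfT : ∀ a ∈ T, f (t₁, a) = (k a : ℂ) + 1 := by
    intro a ha
    have h1 : f (t₁, a) = F0 a * q a := by simp only [f, F0]; ring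
    rw [h1, hqv a ha, mul_div_cancel₀ _ (hF0 a ha)]
  have hX1 : ∀ x : Pt n, 1 ≤ 1 + ‖x‖ := fun x => by linarith [norm_nonneg x]
  have hXf : ∀ t ∈ D, ∀ x, g (t, x) = 0 → (1 + ‖x‖) * ‖f (t, x)‖ ≤ C3 * A := by
    intro t ht x hx
    have h1 := hsz t ht x hx
    have h2 := h.bL t ht x
    have h3 : (1 + ‖x‖) ^ ρ * ((1 + ‖x‖) * ‖f (t, x)‖) ≤ (1 + ‖x‖) ^ ρ * (C3 * A) := by
      calc _ = (1 + ‖x‖) ^ (ρ + 1) * ‖f (t, x)‖ := by ring
        _ ≤ C3 * ‖Λ (t, x)‖ := h1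
        _ ≤ C3 * (A * (1 + ‖x‖) ^ ρ) := by gcongr
        _ = _ := by ring
    exact le_of_mul_le_mul_left h3 (lt_of_lt_of_le zero_lt_one (one_le_pow₀ (hX1 x)))
  refine ⟨f, ?_, ?_, ⟨C3 * A, fun t ht x hx => ?_⟩, fun N => ⟨N * (C3 * A), fun t ht x hx hN => ?_⟩,
    ?_, ?_, ?_⟩
  · intro z hz
    have h1 : AnalyticAt ℂ (fun z : ℂ × Pt n => q z.2) z :=
      (hqan z.2 (mem_univ _)).fun_comp analyticAt_snd
    have h2 : AnalyticAt ℂ (fun z => ∏ i, T_ph ε (E z i) ^ p) z := by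
      refine Finset.analyticAt_fun_prod _ fun i _ => ?_
      have h3 : AnalyticAt ℂ (fun z => E z i) z := (analyticAt_pi_iff.1 (h.anE z hz)) i
      have h4 : AnalyticAt ℂ (fun z => T_ph ε (E z i)) z :=
        AnalyticAt.fun_comp (g := T_ph ε) (f := fun z => E z i) (T_ph_an ε _ (mem_univ _)) h3
      exact h4.pow p
    exact (((Jd_analytic h.op h.ang z hz).mul ((h.anL z hz).pow Q)).mul h1).mul h2
  · intro z hz
    constructor
    · intro h0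
      apply hz
      simp only [f, h0]; ring
    · intro h0
      apply hz
      simp only [f, h0, zero_pow hQ0]; ring
  · have h1 := hXf t ht x hx
    have h2 := hX1 x
    nlinarith [norm_nonneg (f (t, x))]
  · have h1 := hXf t ht x hx
    have h2 := hX1 x
    have hN0 : (0 : ℝ) ≤ N := Nat.cast_nonneg _
    calc ‖x‖ ≤ (1 + ‖x‖) * 1 := by linarith
      _ ≤ (1 + ‖x‖) * (N * ‖f (t, x)‖) := by gcongr
      _ = N * ((1 + ‖x‖) * ‖f (t, x)‖) := by ring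
      _ ≤ N * (C3 * A) := by gcongr
  · exact T_count h f Q T.card p ε hε hε1 hpε Cq q hqC (fun t x => rfl) C3 hC3 hsz hQ0
  · intro a ha c hc hac
    simp only [hfT a ha, hfT c hc] at hac
    apply hk ha hc
    have : (k a : ℂ) = k c := by linear_combination hac
    exact_mod_cast this
  · intro a ha
    rw [hfT a ha]
    exact Nat.cast_add_one_ne_zero _

end Pool.Agent.T2H96.XS
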