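import Pool.Agent.T2H96.XS.Core
import Pool.Agent.T2H96.XS.Test
import Pool.Agent.T2H96.XS.Gen

/-!
Counting the nondegenerate solutions of an exponential system which satisfy a condition.
-/

set_option autoImplicit false

namespace Pool.Agent.T2H96.XS

open Set Filter Topology Metric Cardinal
open Pool.Agent.TH735.QM Pool.Agent.TH735.FO

theorem local_count {n : ℕ} {c : ℂ} {R : ℝ} {g E : ℂ × Pt n → Pt n} {Λ : ℂ × Pt n → ℂ} {A : ℝ} {ρ : ℕ}
    (h : Ctl (ball c R) g E Λ A ρ) {Y : ℂ → Pt n → Prop} (hY : LQN (ball c R) Y) (k : ℕ) :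
    QmOn (ball c R) {t | {x | (g (t, x) = 0 ∧ Jd g (t, x) ≠ 0 ∧ Λ (t, x) ≠ 0) ∧ Y t x}.encard ≤ k} := by
  classical
  set Z : Set (ℂ × Pt n) := {p | p.1 ∈ ball c R ∧ g p = 0 ∧ Jd g p ≠ 0 ∧ Λ p ≠ 0} with hZdef
  have hZ : Br (ball c R) Z := br_of_jac isOpen_ball h.ang h.anL
  obtain ⟨Z', hsub, hZ', hcl', hexc⟩ := gen_split hZ hY
  have key : QmOn (ball c R) {t | {x | (t, x) ∈ Z'}.encard ≤ k} := by
    by_cases hunc : {t | t ∈ ball c R ∧ {x | (t, x) ∈ Z'}.encard ≤ k}.Countable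
    · left
      exact hunc
    · right
      convert countable_empty using 1
      ext t
      simp only [Set.mem_sdiff, Set.mem_ofPred_eq, mem_empty_iff_false, iff_false, not_and,
        not_not]
      intro ht
      by_contra hcon
      rw [not_le] at hcon
      have hcon' : ((k + 1 : ℕ) : ℕ∞) ≤ {x | (t, x) ∈ Z'}.encard := by
        push_cast
        exact Order.add_one_le_of_lt hcon
      obtain ⟨T, hT, hTc⟩ := Set.exists_subset_encard_eq hcon'
      have hTfin : T.Finite := by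
        rw [← Set.encard_lt_top_iff, hTc]
        exact ENat.natCast_lt_top _
      have hTcard : hTfin.toFinset.card = k + 1 := by
        rw [hTfin.encard_eq_coe_toFinset_card] at hTc
        exact_mod_cast hTc
      have hTZ : ∀ x ∈ hTfin.toFinset, (t, x) ∈ Z' := fun x hx => hT (hTfin.mem_toFinset.1 hx)
      obtain ⟨f, hf, hf1, ⟨B, hB⟩, hf3, ⟨C, κ, hf4⟩, hf5, hf6⟩ := exists_test h ht hTfin.toFinset
        (fun x hx => ((hsub (hTZ x hx)).2 : _))
      have := core (Z := Z') (f := f) hZ' hf (by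
          intro p hp hpc hfp
          have h1 := hf1 p hfp
          have h2 : p ∈ Z := cl_of_jac h.ang hp (closure_mono hsub hpc) h1.1 h1.2
          exact hcl' p h2 hpc)
        ⟨B, fun p hp => hB p.1 (hsub hp).1 p.2 (hsub hp).2.1⟩ (by
          intro N
          obtain ⟨r, hr⟩ := hf3 N
          exact ⟨r, fun p hp => hr p.1 (hsub hp).1 p.2 (hsub hp).2.1⟩)
        ⟨C, κ, fun s hs N S hS => hf4 s hs N S fun x hx =>
          ⟨(hsub (hS x hx).1).2.1, (hS x hx).2⟩⟩ k hunc t ht hTfin.toFinset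
        (fun x hx => ⟨hTZ x hx, hf6 x hx⟩) hf5
      omega
  refine key.congr (hexc.image Prod.fst) ?_
  intro t ht htb
  have hset : {x | (t, x) ∈ Z'} = {x | (g (t, x) = 0 ∧ Jd g (t, x) ≠ 0 ∧ Λ (t, x) ≠ 0) ∧ Y t x} := by
    ext x
    simp only [Set.mem_ofPred_eq]
    by_cases hx : (t, x) ∈ Z
    · have hYx : Y t x ↔ (t, x) ∈ Z' := by
        by_contra hcon
        exact htb ⟨(t, x), ⟨hx, hcon⟩, rfl⟩
      rw [← hYx]
      exact ⟨fun h' => ⟨hx.2, h'⟩, fun h' => h'.2⟩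
    · constructor
      · intro h'
        exact absurd (hsub h') hx
      · rintro ⟨h', -⟩
        exact absurd (show (t, x) ∈ Z from ⟨ht, h'⟩) hx
  simp only [Set.mem_ofPred_eq]
  rw [hset]

theorem append_analytic {m n : ℕ} {W : Set ℂ} {γ : ℂ → Pt m} (hγ : AnalyticOnNhd ℂ γ W)
    {z : ℂ → Pt n} (hz : AnalyticOnNhd ℂ z W) :
    AnalyticOnNhd ℂ (fun t => (Fin.append (γ t) (z t) : Fin (m + n) → ℂ)) W := by
  intro t ht
  rw [analyticAt_pi_iff]
  intro j
  refine Fin.addCases (fun j => ?_) (fun j => ?_) j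
  · simp only [Fin.append_left]
    exact analyticAt_pi_iff.1 (hγ t ht) j
  · simp only [Fin.append_right]
    exact analyticAt_pi_iff.1 (hz t ht) j

theorem LQN.CQ {m n : ℕ} {U : Set ℂ} {γ : ℂ → Pt m} (hγ : AnalyticOnNhd ℂ γ U)
    {X : Set (Fin (m + n) → ℂ)} (hX : CQ (m + n) X) :
    LQN (n := n) U fun t x => (Fin.append (γ t) x : Fin (m + n) → ℂ) ∈ X := by
  intro W hW hWo hWc z hz
  exact hX W hWo hWc (fun t => (Fin.append (γ t) (z t) : Fin (m + n) → ℂ))
    (append_analytic (fun t ht => hγ t (hW ht)) hz)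

theorem LQN.mono {n : ℕ} {U V : Set ℂ} {Y : ℂ → Pt n → Prop} (h : LQN U Y) (hV : V ⊆ U) : LQN V Y :=
  fun W hW => h W (hW.trans hV)

/-- the cardinality of `{x | T t x}` is the same for all `t ∈ U` outside of a countable set -/
theorem genCardN {n : ℕ} {U : Set ℂ} {T : ℂ → Pt n → Prop}
    (h : ∀ k : ℕ, QmOn U {t | {x | T t x}.encard ≤ (k : ℕ∞)}) {B₀ : Set ℂ} (hB₀ : B₀.Countable)
    (hc : ∀ t ∈ U, t ∉ B₀ → {x | T t x}.Countable) (κ : Cardinal.{0}) :
    QmOn U {t | κ ≤ #({x | T t x} : Set (Pt n))} := by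
  obtain ⟨B, hB, hgen⟩ := generic_set h
  have e : ∀ t ∈ U, t ∉ B ∪ B₀ → ∀ t' ∈ U, t' ∉ B ∪ B₀ →
      #({x | T t x} : Set (Pt n)) = #({x | T t' x} : Set (Pt n)) := by
    intro t ht htB t' ht' htB'
    have e : {x | T t x}.encard = {x | T t' x}.encard := by
      have h1 := hgen t ht (fun h => htB (Or.inl h)) t' ht' (fun h => htB' (Or.inl h))
      simp only [Set.mem_ofPred_eq] at h1
      apply le_antisymm
      · by_contra hcon
        rw [not_le] at hcon
        have hlt : {x | T t' x}.encard < ⊤ := lt_of_lt_of_le hcon le_top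
        obtain ⟨k, hk⟩ := ENat.ne_top_iff_exists.1 hlt.ne
        rw [← hk] at hcon
        exact absurd ((h1 k).2 hk.symm.le) (not_le.2 hcon)
      · by_contra hcon
        rw [not_le] at hcon
        have hlt : {x | T t x}.encard < ⊤ := lt_of_lt_of_le hcon le_top
        obtain ⟨k, hk⟩ := ENat.ne_top_iff_exists.1 hlt.ne
        rw [← hk] at hcon
        exact absurd ((h1 k).1 hk.symm.le) (not_le.2 hcon)
    rw [Set.encard, Set.encard, ENat.card, ENat.card] at e
    refine Cardinal.toENat_injOn ?_ ?_ e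
    · exact Cardinal.le_aleph0_iff_set_countable.2 (hc t ht fun h => htB (Or.inr h))
    · exact Cardinal.le_aleph0_iff_set_countable.2 (hc t' ht' fun h => htB' (Or.inr h))
  by_cases hUB : ∃ t₀ ∈ U, t₀ ∉ B ∪ B₀
  · obtain ⟨t₀, ht₀, ht₀B⟩ := hUB
    refine (QmOn.const (κ ≤ #({x | T t₀ x} : Set (Pt n)))).congr (hB.union hB₀) ?_
    intro t ht htB
    simp only [Set.mem_ofPred_eq]
    rw [e t ht htB t₀ ht₀ ht₀B]
  · push Not at hUB
    left
    exact (hB.union hB₀).mono fun t ht => hUB t ht.1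

theorem sol_countable {n : ℕ} {U : Set ℂ} {Z : Set (ℂ × Pt n)} (hZ : Br U Z) (t : ℂ) :
    {x | (t, x) ∈ Z}.Countable := by
  apply countable_of_locally
  intro x hx
  obtain ⟨φ, -, hφp, hev⟩ := hZ.br (t, x) hx
  have h1 : Tendsto (fun y : Pt n => (t, y)) (𝓝 x) (𝓝 (t, x)) :=
    (tendsto_const_nhds).prodMk_nhds tendsto_id
  refine ⟨_, h1.eventually hev, ?_⟩
  refine (countable_singleton (φ t)).mono ?_
  rintro y ⟨h2, h3⟩
  exact h2.1 h3

theorem one_le_wt {n : ℕ} (e : Pt n) : 1 ≤ wt e := by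
  unfold wt
  calc (1 : ℝ) = ∏ _i : Fin n, (1 : ℝ) := by simp
    _ ≤ _ := Finset.prod_le_prod (fun _ _ => zero_le_one) (fun i _ => le_max_left _ _)

end Pool.Agent.T2H96.XS
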