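import Pool.Agent.T2H96.XS.Defs

/-!
The number of points of an analytically moving family over a disc is generically constant, if there is a
function `f` on it which tends to zero at the ends.

The points are pushed forward to `ℂ` by `1 / f`; this gives a family of weights of polynomial growth which moves
analytically, in the sense of the starting library `Pool.Agent.TH735.FO`.
-/

set_option autoImplicit false

namespace Pool.Agent.T2H96.XS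

open Set Filter Topology Metric
open Pool.Agent.TH735.QM Pool.Agent.TH735.FO

section

variable {n : ℕ} {c : ℂ} {R : ℝ} {Z : Set (ℂ × Pt n)} {f : ℂ × Pt n → ℂ}

theorem lvl_finite (hcnt : ∃ C κ : ℕ, ∀ t ∈ ball c R, ∀ N : ℕ, ∀ T : Finset (Pt n),
      (∀ x ∈ T, (t, x) ∈ Z ∧ 1 ≤ (N : ℝ) * ‖f (t, x)‖) → T.card ≤ C * (N + 1) ^ κ)
    {t : ℂ} (ht : t ∈ ball c R) (N : ℕ) : {x | (t, x) ∈ Z ∧ 1 ≤ (N : ℝ) * ‖f (t, x)‖}.Finite := by
  obtain ⟨C, κ, h⟩ := hcnt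
  by_contra hinf
  obtain ⟨T, hT, hTc⟩ := Set.Infinite.exists_subset_card_eq hinf (C * (N + 1) ^ κ + 1)
  have := h t ht N T fun x hx => hT hx
  omega

theorem one_le_of {a u : ℂ} {N : ℕ} (h : a * u = 1) (hu : ‖u‖ ≤ N) : 1 ≤ (N : ℝ) * ‖a‖ := by
  have h1 : ‖a‖ * ‖u‖ = 1 := by rw [← norm_mul, h, norm_one]
  rw [← h1, mul_comm]
  exact mul_le_mul_of_nonneg_right hu (norm_nonneg a)

/-- the fibres of `1 / f` -/
def fib (Z : Set (ℂ × Pt n)) (f : ℂ × Pt n → ℂ) (t u : ℂ) : Set (Pt n) :=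
  {x | (t, x) ∈ Z ∧ f (t, x) * u = 1}

theorem fib_finite (hcnt : ∃ C κ : ℕ, ∀ t ∈ ball c R, ∀ N : ℕ, ∀ T : Finset (Pt n),
      (∀ x ∈ T, (t, x) ∈ Z ∧ 1 ≤ (N : ℝ) * ‖f (t, x)‖) → T.card ≤ C * (N + 1) ^ κ)
    {t : ℂ} (ht : t ∈ ball c R) (u : ℂ) : (fib Z f t u).Finite := by
  obtain ⟨N, hN⟩ := exists_nat_ge ‖u‖
  exact (lvl_finite hcnt ht N).subset fun x hx => ⟨hx.1, one_le_of hx.2 hN⟩

/-- the weights -/
noncomputable def mm (Z : Set (ℂ × Pt n)) (f : ℂ × Pt n → ℂ) (t u : ℂ) : ℕ := (fib Z f t u).ncard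

theorem mm_ne {t : ℂ} {u : ℂ} (h : mm Z f t u ≠ 0) : ∃ x, (t, x) ∈ Z ∧ f (t, x) * u = 1 := by
  by_contra hcon
  push Not at hcon
  apply h
  unfold mm
  have : fib Z f t u = ∅ := by
    rw [Set.eq_empty_iff_forall_notMem]
    rintro x ⟨h1, h2⟩
    exact hcon x h1 h2
  rw [this, Set.ncard_empty]

theorem mm_fin (hcnt : ∃ C κ : ℕ, ∀ t ∈ ball c R, ∀ N : ℕ, ∀ T : Finset (Pt n),
      (∀ x ∈ T, (t, x) ∈ Z ∧ 1 ≤ (N : ℝ) * ‖f (t, x)‖) → T.card ≤ C * (N + 1) ^ κ)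
    {t : ℂ} (ht : t ∈ ball c R) (r : ℝ) : {u | ‖u‖ ≤ r ∧ mm Z f t u ≠ 0}.Finite := by
  obtain ⟨N, hN⟩ := exists_nat_ge r
  refine ((lvl_finite hcnt ht N).image fun x => (f (t, x))⁻¹).subset ?_
  rintro u ⟨hu, hm⟩
  obtain ⟨x, hx, hxu⟩ := mm_ne hm
  exact ⟨x, ⟨hx, one_le_of hxu (hu.trans hN)⟩, inv_eq_of_mul_eq_one_right hxu⟩

/-- The local structure: near `t₀` the points with `1 / f` near `e` are on finitely many branches. -/
theorem branches (hZ : Br (ball c R) Z) (hf : AnalyticOnNhd ℂ f (ball c R ×ˢ univ))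
    (hcl : ∀ p : ℂ × Pt n, p.1 ∈ ball c R → p ∈ closure Z → f p ≠ 0 → p ∈ Z)
    (hprop : ∀ N : ℕ, ∃ r : ℝ, ∀ p ∈ Z, 1 ≤ (N : ℝ) * ‖f p‖ → ‖p.2‖ ≤ r)
    (hcnt : ∃ C κ : ℕ, ∀ t ∈ ball c R, ∀ N : ℕ, ∀ T : Finset (Pt n),
      (∀ x ∈ T, (t, x) ∈ Z ∧ 1 ≤ (N : ℝ) * ‖f (t, x)‖) → T.card ≤ C * (N + 1) ^ κ)
    {t₀ : ℂ} (ht₀ : t₀ ∈ ball c R) (e : ℂ) :
    ∃ (X₀ : Finset (Pt n)) (φ : Pt n → ℂ → Pt n) (ε₀ : ℝ), 0 < ε₀ ∧
      X₀.card = mm Z f t₀ e ∧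
      (∀ a ∈ X₀, AnalyticAt ℂ (fun t => (f (t, φ a t))⁻¹) t₀ ∧ (f (t₀, φ a t₀))⁻¹ = e) ∧
      (∀ᶠ t in 𝓝 t₀, ∀ x, (t, x) ∈ Z → f (t, x) ≠ 0 → (f (t, x))⁻¹ ∈ closedBall e ε₀ →
        ∃ a ∈ X₀, x = φ a t) ∧
      (∀ᶠ t in 𝓝 t₀, ∀ a ∈ X₀, (t, φ a t) ∈ Z ∧ f (t, φ a t) ≠ 0) ∧
      ∀ᶠ t in 𝓝 t₀, Set.InjOn (fun a => φ a t) (X₀ : Set (Pt n)) := by
  classical
  obtain ⟨N, hN⟩ := exists_nat_ge (‖e‖ + 1)
  have hfin := fib_finite hcnt ht₀ e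
  set X₀ := hfin.toFinset with hX₀
  have hmem : ∀ a, a ∈ X₀ ↔ ((t₀, a) ∈ Z ∧ f (t₀, a) * e = 1) := by
    intro a
    rw [hX₀, Set.Finite.mem_toFinset]
    rfl
  have hbr : ∀ a : Pt n, ∃ φ : ℂ → Pt n, a ∈ X₀ → (AnalyticAt ℂ φ t₀ ∧ φ t₀ = a ∧
      ∀ᶠ q : ℂ × Pt n in 𝓝 (t₀, a), (q ∈ Z ↔ q.2 = φ q.1)) := by
    intro a
    by_cases ha : a ∈ X₀
    · obtain ⟨φ, h1, h2, h3⟩ := hZ.br (t₀, a) ((hmem a).1 ha).1
      exact ⟨φ, fun _ => ⟨h1, h2, h3⟩⟩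
    · exact ⟨fun _ => 0, fun h => absurd h ha⟩
  choose φ hφ using hbr
  -- the radius
  have hV := (lvl_finite (f := f) hcnt ht₀ N).image fun x => (f (t₀, x))⁻¹
  set V := (fun x => (f (t₀, x))⁻¹) '' {x | (t₀, x) ∈ Z ∧ 1 ≤ (N : ℝ) * ‖f (t₀, x)‖} with hVdef
  have hopen : (V \ {e})ᶜ ∈ 𝓝 e :=
    (hV.subset sdiff_subset).isClosed.isOpen_compl.mem_nhds fun h => h.2 rfl
  obtain ⟨ε₁, hε₁, hball⟩ := Metric.mem_nhds_iff.1 hopen
  set ε₀ := min (ε₁ / 2) 1 with hε₀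
  have hε₀pos : 0 < ε₀ := lt_min (by positivity) one_pos
  have hε₀1 : ε₀ ≤ 1 := min_le_right _ _
  have hlvl : ∀ z : ℂ, z ≠ 0 → z⁻¹ ∈ closedBall e ε₀ → 1 ≤ (N : ℝ) * ‖z‖ := by
    intro z hz hz1
    apply one_le_of (u := z⁻¹) (mul_inv_cancel₀ hz)
    have h1 := norm_le_norm_add_norm_sub' z⁻¹ e
    rw [mem_closedBall, dist_eq_norm] at hz1
    have h2 : ‖z⁻¹‖ ≤ ‖e‖ + ‖z⁻¹ - e‖ := by
      have := norm_add_le e (z⁻¹ - e)
      rwa [add_sub_cancel] at this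
    linarith
  have hval : ∀ x, (t₀, x) ∈ Z → f (t₀, x) ≠ 0 → (f (t₀, x))⁻¹ ∈ closedBall e ε₀ → x ∈ X₀ := by
    intro x hx hfx hxe
    have h1 : (f (t₀, x))⁻¹ ∈ V := ⟨x, ⟨hx, hlvl _ hfx hxe⟩, rfl⟩
    have h2 : (f (t₀, x))⁻¹ ∈ ball e ε₁ := by
      rw [mem_closedBall] at hxe
      rw [mem_ball]
      have : ε₀ ≤ ε₁ / 2 := min_le_left _ _
      linarith
    have h3 : (f (t₀, x))⁻¹ = e := by
      by_contra hne
      exact hball h2 ⟨h1, hne⟩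
    rw [hmem]
    refine ⟨hx, ?_⟩
    rw [← h3, mul_inv_cancel₀ hfx]
  have hfc : ∀ y : Pt n, ContinuousAt f (t₀, y) := fun y =>
    (hf (t₀, y) ⟨ht₀, mem_univ _⟩).continuousAt
  obtain ⟨r, hr⟩ := hprop N
  refine ⟨X₀, φ, ε₀, hε₀pos, ?_, ?_, ?_, ?_, ?_⟩
  · unfold mm
    rw [hX₀, Set.ncard_eq_toFinset_card _ hfin]
  · intro a ha
    obtain ⟨h1, h2, -⟩ := hφ a ha
    have h3 := (hmem a).1 ha
    have hfa : f (t₀, a) ≠ 0 := fun h0 => by simp [h0] at h3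
    refine ⟨?_, ?_⟩
    · have h4 : AnalyticAt ℂ (fun t => f (t, φ a t)) t₀ := by
        have h5 : AnalyticAt ℂ f ((fun t : ℂ => (t, φ a t)) t₀) := by
          show AnalyticAt ℂ f (t₀, φ a t₀)
          rw [h2]
          exact hf (t₀, a) ⟨ht₀, mem_univ _⟩
        exact h5.comp (f := fun t => (t, φ a t)) (x := t₀) (analyticAt_id.prod h1)
      apply h4.inv
      show f (t₀, φ a t₀) ≠ 0
      rw [h2]
      exact hfa
    · rw [h2]
      exact inv_eq_of_mul_eq_one_right h3.2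
  · -- compactness
    have key : ∀ᶠ t in 𝓝 t₀, ∀ x ∈ closedBall (0 : Pt n) r, ((t, x) ∈ Z → f (t, x) ≠ 0 →
        (f (t, x))⁻¹ ∈ closedBall e ε₀ → ∃ a ∈ X₀, x = φ a t) := by
      apply (isCompact_closedBall (0 : Pt n) r).eventually_forall_of_forall_eventually
      intro y _
      by_cases hycl : (t₀, y) ∈ closure Z
      · by_cases hfy : f (t₀, y) = 0
        · have h1 : ∀ᶠ q : ℂ × Pt n in 𝓝 (t₀, y), (N : ℝ) * ‖f q‖ < 1 := by
            have h2 : Tendsto (fun q => (N : ℝ) * ‖f q‖) (𝓝 (t₀, y)) (𝓝 ((N : ℝ) * ‖f (t₀, y)‖)) :=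
              ((hfc y).norm).const_mul _
            rw [hfy, norm_zero, mul_zero] at h2
            exact h2.eventually_lt_const one_pos
          filter_upwards [h1] with q hq _ hq0 hqe
          exact absurd (hlvl _ hq0 hqe) (not_le.2 hq)
        · have hyZ := hcl (t₀, y) ht₀ hycl hfy
          by_cases hye : (f (t₀, y))⁻¹ ∈ closedBall e ε₀
          · have hyX := hval y hyZ hfy hye
            filter_upwards [(hφ y hyX).2.2] with q hq hqZ _ _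
            exact ⟨y, hyX, hq.1 hqZ⟩
          · have h1 : ∀ᶠ q : ℂ × Pt n in 𝓝 (t₀, y), (f q)⁻¹ ∉ closedBall e ε₀ := by
              have h2 : ContinuousAt (fun q => (f q)⁻¹) (t₀, y) := (hfc y).inv₀ hfy
              exact h2.eventually (isClosed_closedBall.isOpen_compl.mem_nhds hye)
            filter_upwards [h1] with q hq _ _ hqe
            exact absurd hqe hq
      · have h1 : ∀ᶠ q : ℂ × Pt n in 𝓝 (t₀, y), q ∉ closure Z :=
          isClosed_closure.isOpen_compl.mem_nhds hycl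
        filter_upwards [h1] with q hq hqZ
        exact absurd (subset_closure hqZ) hq
    filter_upwards [key] with t ht x hx hfx hxe
    have h1 := hr (t, x) hx (hlvl _ hfx hxe)
    exact ht x (by simpa using h1) hx hfx hxe
  · rw [Filter.eventually_all_finset]
    intro a ha
    obtain ⟨h1, h2, h3⟩ := hφ a ha
    have h4 := (hmem a).1 ha
    have hfa : f (t₀, a) ≠ 0 := fun h0 => by simp [h0] at h4
    have hcont : Tendsto (fun t => (t, φ a t)) (𝓝 t₀) (𝓝 (t₀, a)) := by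
      have h5 : Tendsto (φ a) (𝓝 t₀) (𝓝 a) := by
        have := h1.continuousAt.tendsto
        rwa [h2] at this
      exact tendsto_id.prodMk_nhds h5
    filter_upwards [hcont.eventually h3, hcont.eventually ((hfc a).eventually_ne hfa)] with t ht ht'
    exact ⟨ht.2 rfl, ht'⟩
  · have hpair : ∀ a ∈ X₀, ∀ b ∈ X₀, ∀ᶠ t in 𝓝 t₀, φ a t = φ b t → a = b := by
      intro a ha b hb
      by_cases hab : a = b
      · exact Eventually.of_forall fun _ _ => hab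
      · have h1 := (hφ a ha).1.continuousAt
        have h2 := (hφ b hb).1.continuousAt
        have h3 : φ a t₀ ≠ φ b t₀ := by
          rw [(hφ a ha).2.1, (hφ b hb).2.1]
          exact hab
        filter_upwards [(h1.tendsto.prodMk_nhds h2.tendsto).eventually
            (isClosed_diagonal.isOpen_compl.mem_nhds (x := (φ a t₀, φ b t₀)) h3)] with t ht h
        exact absurd h ht
    have h1 : ∀ᶠ t in 𝓝 t₀, ∀ a ∈ X₀, ∀ b ∈ X₀, φ a t = φ b t → a = b := by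
      rw [Filter.eventually_all_finset]
      intro a ha
      rw [Filter.eventually_all_finset]
      intro b hb
      exact hpair a ha b hb
    filter_upwards [h1] with t ht a ha b hb hab
    exact ht a ha b hb hab

/-- the sum formula -/
theorem sum_formula (hcnt : ∃ C κ : ℕ, ∀ t ∈ ball c R, ∀ N : ℕ, ∀ T : Finset (Pt n),
      (∀ x ∈ T, (t, x) ∈ Z ∧ 1 ≤ (N : ℝ) * ‖f (t, x)‖) → T.card ≤ C * (N + 1) ^ κ)
    {t : ℂ} (ht : t ∈ ball c R) {X₀ : Finset (Pt n)} {φ : Pt n → ℂ → Pt n} {e : ℂ} {ε₀ ε : ℝ}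
    (h1 : ∀ x, (t, x) ∈ Z → f (t, x) ≠ 0 → (f (t, x))⁻¹ ∈ closedBall e ε₀ → ∃ a ∈ X₀, x = φ a t)
    (h2 : ∀ a ∈ X₀, (t, φ a t) ∈ Z ∧ f (t, φ a t) ≠ 0)
    (h3 : Set.InjOn (fun a => φ a t) (X₀ : Set (Pt n))) (hε : ε ≤ ε₀)
    (h4 : ∀ a ∈ X₀, (f (t, φ a t))⁻¹ ∈ ball e ε) {V : Type} [AddCommMonoid V] (ψ : ℂ → V) :
    ∑ᶠ u ∈ ball e ε, mm Z f t u • ψ u = ∑ a ∈ X₀, ψ (f (t, φ a t))⁻¹ := by
  classical
  have hfin : {u | u ∈ ball e ε ∧ mm Z f t u ≠ 0}.Finite := by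
    obtain ⟨r, hr⟩ := (isBounded_ball (x := e) (r := ε)).subset_closedBall (0 : ℂ)
    refine (mm_fin hcnt ht r).subset ?_
    rintro u ⟨hu, hm⟩
    exact ⟨by simpa using hr hu, hm⟩
  rw [sm_eq hfin ψ]
  have hfib : ∀ u ∈ ball e ε, mm Z f t u = (X₀.filter fun a => (f (t, φ a t))⁻¹ = u).card := by
    intro u hu
    have hset : fib Z f t u =
        (((X₀.filter fun a => (f (t, φ a t))⁻¹ = u).image fun a => φ a t : Finset (Pt n)) :
          Set (Pt n)) := by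
      ext x
      simp only [Finset.coe_image, Finset.coe_filter, mem_image, Set.mem_ofPred_eq]
      constructor
      · rintro ⟨hx, hxu⟩
        have hfx : f (t, x) ≠ 0 := fun h0 => by simp [h0] at hxu
        have hinv : (f (t, x))⁻¹ = u := inv_eq_of_mul_eq_one_right hxu
        obtain ⟨a, ha, rfl⟩ := h1 x hx hfx (by
          rw [hinv]
          exact ball_subset_closedBall (ball_subset_ball hε hu))
        exact ⟨a, ⟨ha, hinv⟩, rfl⟩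
      · rintro ⟨a, ⟨ha, hau⟩, rfl⟩
        refine ⟨(h2 a ha).1, ?_⟩
        rw [← hau, mul_inv_cancel₀ (h2 a ha).2]
    unfold mm
    rw [hset, Set.ncard_coe_finset, Finset.card_image_of_injOn]
    intro a ha b hb hab
    exact h3 (Finset.mem_coe.2 (Finset.mem_filter.1 (Finset.mem_coe.1 ha)).1)
      (Finset.mem_coe.2 (Finset.mem_filter.1 (Finset.mem_coe.1 hb)).1) hab
  have hmaps : ∀ a ∈ X₀, (f (t, φ a t))⁻¹ ∈ hfin.toFinset := by
    intro a ha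
    rw [Set.Finite.mem_toFinset]
    refine ⟨h4 a ha, ?_⟩
    rw [hfib _ (h4 a ha)]
    have hpos : (X₀.filter fun b => (f (t, φ b t))⁻¹ = (f (t, φ a t))⁻¹).Nonempty :=
      ⟨a, Finset.mem_filter.2 ⟨ha, rfl⟩⟩
    exact (Finset.card_pos.2 hpos).ne'
  rw [← Finset.sum_fiberwise_of_maps_to hmaps]
  refine Finset.sum_congr rfl fun u hu => ?_
  rw [Set.Finite.mem_toFinset] at hu
  rw [hfib u hu.1, Finset.sum_congr rfl (g := fun _ => ψ u) (fun a ha => by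
    rw [(Finset.mem_filter.1 ha).2]), Finset.sum_const]

theorem mm_dv (hZ : Br (ball c R) Z) (hf : AnalyticOnNhd ℂ f (ball c R ×ˢ univ))
    (hcl : ∀ p : ℂ × Pt n, p.1 ∈ ball c R → p ∈ closure Z → f p ≠ 0 → p ∈ Z)
    (hprop : ∀ N : ℕ, ∃ r : ℝ, ∀ p ∈ Z, 1 ≤ (N : ℝ) * ‖f p‖ → ‖p.2‖ ≤ r)
    (hcnt : ∃ C κ : ℕ, ∀ t ∈ ball c R, ∀ N : ℕ, ∀ T : Finset (Pt n),
      (∀ x ∈ T, (t, x) ∈ Z ∧ 1 ≤ (N : ℝ) * ‖f (t, x)‖) → T.card ≤ C * (N + 1) ^ κ) :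
    Dv (ball c R) (mm Z f) where
  fin := fun t ht r => mm_fin hcnt ht r
  win := by
    intro t₀ ht₀ e
    obtain ⟨X₀, φ, ε₀, hε₀, hcard, han, h1, h2, h3⟩ := branches hZ hf hcl hprop hcnt ht₀ e
    refine ⟨ε₀, hε₀, ?_⟩
    intro ε hε
    have h4 : ∀ᶠ t in 𝓝 t₀, ∀ a ∈ X₀, (f (t, φ a t))⁻¹ ∈ ball e ε := by
      rw [Filter.eventually_all_finset]
      intro a ha
      have h5 := (han a ha).1.continuousAt.tendsto
      rw [(han a ha).2] at h5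
      exact h5.eventually (ball_mem_nhds e hε.1)
    refine ⟨?_, ?_⟩
    · filter_upwards [h1, h2, h4] with t ht1 ht2 ht4 u hu hm
      obtain ⟨x, hx, hxu⟩ := mm_ne hm
      have hfx : f (t, x) ≠ 0 := fun h0 => by simp [h0] at hxu
      have hinv : (f (t, x))⁻¹ = u := inv_eq_of_mul_eq_one_right hxu
      obtain ⟨a, ha, rfl⟩ := ht1 x hx hfx (by
        rw [hinv]
        exact ball_subset_closedBall hu)
      rw [← hinv]
      exact ht4 a ha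
    · filter_upwards [h1, h2, h3, h4, isOpen_ball.mem_nhds ht₀] with t ht1 ht2 ht3 ht4 htD
      have := sum_formula hcnt htD ht1 ht2 ht3 hε.2 ht4 (fun _ => (1 : ℕ))
      simp only [smul_eq_mul, mul_one, Finset.sum_const] at this
      rw [this, hcard]
  an := by
    intro t₀ ht₀ e
    obtain ⟨X₀, φ, ε₀, hε₀, hcard, han, h1, h2, h3⟩ := branches hZ hf hcl hprop hcnt ht₀ e
    refine ⟨ε₀, hε₀, ?_⟩
    intro ε hε ψ hψ
    have h4 : ∀ᶠ t in 𝓝 t₀, ∀ a ∈ X₀, (f (t, φ a t))⁻¹ ∈ ball e ε := by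
      rw [Filter.eventually_all_finset]
      intro a ha
      have h5 := (han a ha).1.continuousAt.tendsto
      rw [(han a ha).2] at h5
      exact h5.eventually (ball_mem_nhds e hε.1)
    have h5 : AnalyticAt ℂ (fun t => ∑ a ∈ X₀, ψ (f (t, φ a t))⁻¹) t₀ := by
      refine Finset.analyticAt_fun_sum _ fun a ha => ?_
      have h6 : AnalyticAt ℂ ψ ((fun t => (f (t, φ a t))⁻¹) t₀) := by
        show AnalyticAt ℂ ψ (f (t₀, φ a t₀))⁻¹
        rw [(han a ha).2]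
        exact hψ e (mem_ball_self hε.1)
      exact h6.comp (f := fun t => (f (t, φ a t))⁻¹) (x := t₀) (han a ha).1
    refine h5.congr ?_
    filter_upwards [h1, h2, h3, h4, isOpen_ball.mem_nhds ht₀] with t ht1 ht2 ht3 ht4 htD
    exact (sum_formula hcnt htD ht1 ht2 ht3 hε.2 ht4 ψ).symm

theorem mm_gr (hbd : ∃ B : ℝ, ∀ p ∈ Z, ‖f p‖ ≤ B)
    (hcnt : ∃ C κ : ℕ, ∀ t ∈ ball c R, ∀ N : ℕ, ∀ T : Finset (Pt n),
      (∀ x ∈ T, (t, x) ∈ Z ∧ 1 ≤ (N : ℝ) * ‖f (t, x)‖) → T.card ≤ C * (N + 1) ^ κ) :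
    ∃ (δ : ℝ) (C κ : ℕ), Gr (ball c R) (mm Z f) δ C κ := by
  classical
  obtain ⟨B, hB⟩ := hbd
  obtain ⟨C, κ, hC⟩ := id hcnt
  refine ⟨1 / (|B| + 1), C, κ, by positivity, ?_, ?_⟩
  · intro t ht u hm
    obtain ⟨x, hx, hxu⟩ := mm_ne hm
    have h1 : ‖f (t, x)‖ * ‖u‖ = 1 := by rw [← norm_mul, hxu, norm_one]
    have h2 : ‖f (t, x)‖ ≤ |B| + 1 := (hB _ hx).trans (by linarith [le_abs_self B])
    rw [div_le_iff₀ (by positivity)]
    rw [← h1]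
    nlinarith [norm_nonneg u, norm_nonneg (f (t, x))]
  · intro t ht N
    have hfin : {u | u ∈ closedBall (0 : ℂ) (N : ℝ) ∧ mm Z f t u ≠ 0}.Finite := by
      refine (mm_fin hcnt ht N).subset ?_
      rintro u ⟨hu, hm⟩
      exact ⟨by simpa using hu, hm⟩
    rw [sm_eq_nat hfin]
    set F := hfin.toFinset with hF
    have h1 : ∑ u ∈ F, mm Z f t u = (F.biUnion fun u => (fib_finite hcnt ht u).toFinset).card := by
      rw [Finset.card_biUnion]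
      · refine Finset.sum_congr rfl fun u _ => ?_
        unfold mm
        rw [Set.ncard_eq_toFinset_card _ (fib_finite hcnt ht u)]
      · intro u _ v _ huv
        rw [Function.onFun, Finset.disjoint_left]
        intro x hx hx'
        rw [Set.Finite.mem_toFinset] at hx hx'
        apply huv
        rw [← inv_eq_of_mul_eq_one_right hx.2, ← inv_eq_of_mul_eq_one_right hx'.2]
    rw [h1]
    apply hC t ht N
    intro x hx
    rw [Finset.mem_biUnion] at hx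
    obtain ⟨u, hu, hxu⟩ := hx
    rw [hF, Set.Finite.mem_toFinset] at hu
    rw [Set.Finite.mem_toFinset] at hxu
    exact ⟨hxu.1, one_le_of hxu.2 (by simpa using hu.1)⟩

theorem core
    (hZ : Br (ball c R) Z) (hf : AnalyticOnNhd ℂ f (ball c R ×ˢ univ))
    (hcl : ∀ p : ℂ × Pt n, p.1 ∈ ball c R → p ∈ closure Z → f p ≠ 0 → p ∈ Z)
    (hbd : ∃ B : ℝ, ∀ p ∈ Z, ‖f p‖ ≤ B)
    (hprop : ∀ N : ℕ, ∃ r : ℝ, ∀ p ∈ Z, 1 ≤ (N : ℝ) * ‖f p‖ → ‖p.2‖ ≤ r)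
    (hcnt : ∃ C κ : ℕ, ∀ t ∈ ball c R, ∀ N : ℕ, ∀ T : Finset (Pt n),
      (∀ x ∈ T, (t, x) ∈ Z ∧ 1 ≤ (N : ℝ) * ‖f (t, x)‖) → T.card ≤ C * (N + 1) ^ κ)
    (k : ℕ) (hunc : ¬ {t | t ∈ ball c R ∧ {x | (t, x) ∈ Z}.encard ≤ k}.Countable) :
    ∀ t ∈ ball c R, ∀ T : Finset (Pt n), (∀ x ∈ T, (t, x) ∈ Z ∧ f (t, x) ≠ 0) →
      InjOn (fun x => f (t, x)) (T : Set (Pt n)) → T.card ≤ k := by
  classical
  have hdv := mm_dv hZ hf hcl hprop hcnt
  obtain ⟨δ, C, κ, hgr⟩ := mm_gr hbd hcnt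
  have h1 := count_generic hdv hgr k (by
    intro hc
    apply hunc
    refine hc.mono ?_
    rintro t ⟨ht, hk⟩
    refine ⟨ht, le_trans ?_ hk⟩
    have hsub : {u | mm Z f t u ≠ 0} ⊆ (fun x => (f (t, x))⁻¹) '' {x | (t, x) ∈ Z} := by
      intro u hu
      obtain ⟨x, hx, hxu⟩ := mm_ne hu
      exact ⟨x, hx, inv_eq_of_mul_eq_one_right hxu⟩
    exact (Set.encard_le_encard hsub).trans (Set.encard_image_le _ _))
  intro t ht T hT hinj
  have h2 := h1 t ht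
  have h3 : ((T.image fun x => (f (t, x))⁻¹ : Finset ℂ) : Set ℂ) ⊆ {u | mm Z f t u ≠ 0} := by
    intro u hu
    rw [Finset.coe_image] at hu
    obtain ⟨x, hx, rfl⟩ := hu
    have hx' := hT x hx
    show mm Z f t (f (t, x))⁻¹ ≠ 0
    unfold mm
    have : (fib Z f t (f (t, x))⁻¹).Nonempty := ⟨x, hx'.1, mul_inv_cancel₀ hx'.2⟩
    exact ((Set.ncard_pos (fib_finite hcnt ht _)).2 this).ne'
  have h4 := (Set.encard_le_encard h3).trans h2
  rw [Set.encard_coe_eq_coe_finsetCard, Finset.card_image_of_injOn] at h4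
  · exact_mod_cast h4
  · intro a ha b hb hab
    exact hinj ha hb (inv_injective hab)

end

end Pool.Agent.T2H96.XS
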