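import Pool.Agent.TH735.FO.Glob2

/-!
Systems of `n` exponential equations in `n` unknowns: definitions.
-/

set_option autoImplicit false

namespace Pool.Agent.T2H96.XS

open Set Filter Topology Metric
open Pool.Agent.TH735.QM

/-- points of `ℂ^n` (with the maximum norm) -/
abbrev Pt (n : ℕ) := Fin n → ℂ

/-- near each of its points `Z` is the graph of an analytic function of the first coordinate -/
structure Br {n : ℕ} (U : Set ℂ) (Z : Set (ℂ × Pt n)) : Prop where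
  op : IsOpen U
  sub : ∀ p ∈ Z, p.1 ∈ U
  br : ∀ p ∈ Z, ∃ φ : ℂ → Pt n, AnalyticAt ℂ φ p.1 ∧ φ p.1 = p.2 ∧
    ∀ᶠ q : ℂ × Pt n in 𝓝 p, (q ∈ Z ↔ q.2 = φ q.1)

/-- all sections of `Y` by analytic functions on connected open subsets of `U` are countable or
cocountable -/
def LQN {n : ℕ} (U : Set ℂ) (Y : ℂ → Pt n → Prop) : Prop :=
  ∀ W ⊆ U, IsOpen W → IsPreconnected W → ∀ z : ℂ → Pt n, AnalyticOnNhd ℂ z W →
    QmOn W {t | Y t (z t)}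

/-- the Jacobian matrix of `h` at `x` -/
noncomputable def pJ {n : ℕ} (h : Pt n → Pt n) (x : Pt n) : Matrix (Fin n) (Fin n) ℂ :=
  Matrix.of fun i j => fderiv ℂ h x (Pi.single j 1) i

/-- the Jacobian determinant of `g(t, ·)` at `x`, where `p = (t, x)` -/
noncomputable def Jd {n : ℕ} (g : ℂ × Pt n → Pt n) (p : ℂ × Pt n) : ℂ :=
  (pJ (fun y => g (p.1, y)) p.2).det

/-- the product of the numbers `max(1, |exp e_i|)` -/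
noncomputable def wt {n : ℕ} (e : Pt n) : ℝ := ∏ i, max 1 ‖Complex.exp (e i)‖

/-- bounds for a system `g(t, x) = 0` of `n` equations in the `n` unknowns `x`, for `t ∈ D`: `E(t, x)` are the
exponents, `Λ(t, x)` the leading coefficient -/
structure Ctl {n : ℕ} (D : Set ℂ) (g E : ℂ × Pt n → Pt n) (Λ : ℂ × Pt n → ℂ) (A : ℝ) (ρ : ℕ) :
    Prop where
  op : IsOpen D
  ang : AnalyticOnNhd ℂ g (D ×ˢ univ)
  anE : AnalyticOnNhd ℂ E (D ×ˢ univ)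
  anL : AnalyticOnNhd ℂ Λ (D ×ˢ univ)
  A1 : 1 ≤ A
  r1 : 1 ≤ ρ
  bL : ∀ t ∈ D, ∀ x, ‖Λ (t, x)‖ ≤ A * (1 + ‖x‖) ^ ρ
  bE : ∀ t ∈ D, ∀ x, ‖E (t, x)‖ ≤ A * (1 + ‖x‖) ^ ρ
  bp : ∀ t ∈ D, ∀ x, ‖x‖ ≤ A * (1 + ‖E (t, x)‖) ^ ρ
  bg : ∀ t ∈ D, ∀ x, ‖g (t, x)‖ ≤ A * ((1 + ‖x‖) * wt (E (t, x))) ^ ρ
  bz : ∀ t ∈ D, ∀ x, g (t, x) = 0 → Jd g (t, x) ≠ 0 → ∀ i,
    ‖Λ (t, x)‖ * ‖Complex.exp (E (t, x) i)‖ ≤ A * (1 + ‖x‖) ^ ρ

/-- An exponential system with parameters `s ∈ ℂ^m` and unknowns `x ∈ ℂ^n`: the equations are `G(s, x) = 0`. Near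
every `s₀` with `δ(s₀) ≠ 0`, the functions `Λ` and `E` are of polynomial growth in `x`, `x` is bounded by a power of
`E(s, x)`, `G` is bounded by a power of `|x|` and of the `|exp E_i|` that are larger than `1`, and at the
nondegenerate solutions (nonzero Jacobian determinant) `|Λ exp(E_i)|` is bounded by a power of `|x|`. -/
structure ExpSys {m n : ℕ} (δ : Pt m → ℂ) (G E : Pt m → Pt n → Pt n) (Λ : Pt m → Pt n → ℂ) :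
    Prop where
  an_d : AnalyticOnNhd ℂ δ univ
  an_G : AnalyticOnNhd ℂ (fun p : Pt m × Pt n => G p.1 p.2) univ
  an_E : AnalyticOnNhd ℂ (fun p : Pt m × Pt n => E p.1 p.2) univ
  an_L : AnalyticOnNhd ℂ (fun p : Pt m × Pt n => Λ p.1 p.2) univ
  bd : ∀ s₀, δ s₀ ≠ 0 → ∃ (A : ℝ) (ρ : ℕ), ∀ᶠ s in 𝓝 s₀, ∀ x : Pt n,
    ‖Λ s x‖ ≤ A * (1 + ‖x‖) ^ ρ ∧ ‖E s x‖ ≤ A * (1 + ‖x‖) ^ ρ ∧ ‖x‖ ≤ A * (1 + ‖E s x‖) ^ ρ ∧
    ‖G s x‖ ≤ A * ((1 + ‖x‖) * ∏ i, max 1 ‖Complex.exp (E s x i)‖) ^ ρ ∧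
    (G s x = 0 → (pJ (G s) x).det ≠ 0 → ∀ i,
      ‖Λ s x‖ * ‖Complex.exp (E s x i)‖ ≤ A * (1 + ‖x‖) ^ ρ)

/-- `x` is a nondegenerate solution of `G(s, x) = 0` with `Λ(s, x) ≠ 0`, and `δ(s) ≠ 0` -/
def IsSol {m n : ℕ} (δ : Pt m → ℂ) (G : Pt m → Pt n → Pt n) (Λ : Pt m → Pt n → ℂ)
    (s : Pt m) (x : Pt n) : Prop :=
  δ s ≠ 0 ∧ G s x = 0 ∧ (pJ (G s) x).det ≠ 0 ∧ Λ s x ≠ 0

end Pool.Agent.T2H96.XS
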