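import Pool.Agent.T2H96.XS.Defs

/-!
Quantitative injectivity near a nondegenerate zero, packing, and Cauchy estimates in `ℂ^n`.
-/

set_option autoImplicit false

namespace Pool.Agent.T2H96.XS

open Set Filter Topology Metric

theorem det_bound {n : ℕ} {A : Matrix (Fin n) (Fin n) ℂ} {M : ℝ} (h : ∀ i j, ‖A i j‖ ≤ M) :
    ‖A.det‖ ≤ n.factorial * M ^ n := by
  have h1 := Matrix.det_le (A := A) (abv := NormedField.toAbsoluteValue ℂ) (x := M) h
  rw [Fintype.card_fin, nsmul_eq_mul] at h1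
  exact h1

theorem norm_single_le {n : ℕ} (j : Fin n) : ‖(Pi.single j 1 : Pt n)‖ ≤ 1 := by
  rw [pi_norm_le_iff_of_nonneg zero_le_one]
  intro i
  by_cases h : i = j
  · subst h; simp
  · simp [Pi.single_eq_of_ne h]

theorem pJ_entry {n : ℕ} {h : Pt n → Pt n} {x : Pt n} {M : ℝ} (h1 : ‖fderiv ℂ h x‖ ≤ M)
    (i j : Fin n) : ‖pJ h x i j‖ ≤ M := by
  have hM : 0 ≤ M := (norm_nonneg _).trans h1
  unfold pJ
  rw [Matrix.of_apply]
  calc ‖fderiv ℂ h x (Pi.single j 1) i‖ ≤ ‖fderiv ℂ h x (Pi.single j 1)‖ := norm_le_pi_norm _ i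
    _ ≤ ‖fderiv ℂ h x‖ * ‖(Pi.single j 1 : Pt n)‖ := ContinuousLinearMap.le_opNorm _ _
    _ ≤ M * 1 := mul_le_mul h1 (norm_single_le j) (norm_nonneg _) hM
    _ = M := mul_one M

theorem pJ_mulVec {n : ℕ} (h : Pt n → Pt n) (x v : Pt n) :
    (pJ h x).mulVec v = fderiv ℂ h x v := by
  have h1 : v = ∑ j, v j • (Pi.single j 1 : Pt n) := by
    ext i
    rw [Finset.sum_apply]
    simp [Pi.single_apply]
  ext i
  conv_rhs => rw [h1, map_sum]
  rw [Finset.sum_apply]
  unfold pJ Matrix.mulVec dotProduct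
  refine Finset.sum_congr rfl fun j _ => ?_
  rw [map_smul, Pi.smul_apply, smul_eq_mul, mul_comm]
  rfl

theorem mulVec_bound {n : ℕ} {B : Matrix (Fin n) (Fin n) ℂ} {M : ℝ} (hM : 0 ≤ M)
    (h : ∀ i j, ‖B i j‖ ≤ M) (v : Pt n) : ‖B.mulVec v‖ ≤ n * M * ‖v‖ := by
  rw [pi_norm_le_iff_of_nonneg (by positivity)]
  intro i
  unfold Matrix.mulVec dotProduct
  calc ‖∑ j, B i j * v j‖ ≤ ∑ j, ‖B i j * v j‖ := norm_sum_le _ _
    _ ≤ ∑ _j : Fin n, M * ‖v‖ := Finset.sum_le_sum fun j _ => by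
        rw [norm_mul]
        exact mul_le_mul (h i j) (norm_le_pi_norm v j) (norm_nonneg _) hM
    _ = n * M * ‖v‖ := by
        rw [Finset.sum_const, Finset.card_univ, Fintype.card_fin, nsmul_eq_mul]
        ring

theorem sep {n : ℕ} {h : Pt n → Pt n} {x y : Pt n} {r M : ℝ} (hM : 1 ≤ M)
    (hh : ∀ z ∈ ball x r, DifferentiableAt ℂ h z) (h1 : ‖fderiv ℂ h x‖ ≤ M)
    (h2 : ∀ z ∈ ball x r, ‖fderiv ℂ h z - fderiv ℂ h x‖ ≤ M * ‖z - x‖)
    (hx : h x = 0) (hy : h y = 0) (hyr : y ∈ ball x r) (hne : y ≠ x) :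
    ‖(pJ h x).det‖ ≤ (n * n.factorial : ℕ) * M ^ (n + 1) * ‖y - x‖ := by
  have hM0 : 0 ≤ M := by linarith
  set v := y - x with hv
  have hv0 : 0 < ‖v‖ := norm_pos_iff.2 (sub_ne_zero.2 hne)
  have hvr : ‖v‖ < r := by rw [hv, ← dist_eq_norm]; exact hyr
  have hsub : closedBall x ‖v‖ ⊆ ball x r := closedBall_subset_ball hvr
  have h3 : ‖h y - h x - fderiv ℂ h x (y - x)‖ ≤ (M * ‖v‖) * ‖y - x‖ := by
    refine Convex.norm_image_sub_le_of_norm_fderiv_le' (𝕜 := ℂ) (s := closedBall x ‖v‖)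
      (fun z hz => hh z (hsub hz)) (fun z hz => ?_) (convex_closedBall x ‖v‖)
      (mem_closedBall_self (norm_nonneg _)) (by rw [mem_closedBall, dist_eq_norm])
    refine (h2 z (hsub hz)).trans ?_
    apply mul_le_mul_of_nonneg_left _ hM0
    rw [mem_closedBall, dist_eq_norm] at hz
    exact hz
  rw [hx, hy, sub_zero, zero_sub, norm_neg, ← hv] at h3
  set B := (pJ h x).adjugate with hB
  have hBe : ∀ i j, ‖B i j‖ ≤ n.factorial * M ^ n := by
    intro i j
    rw [hB, Matrix.adjugate_apply]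
    apply det_bound
    intro a b
    rw [Matrix.updateRow_apply]
    by_cases haj : a = j
    · rw [if_pos haj]
      by_cases hbi : b = i
      · subst hbi; simp [hM]
      · rw [Pi.single_eq_of_ne hbi, norm_zero]; exact hM0
    · rw [if_neg haj]
      exact pJ_entry h1 a b
  have h4 : (pJ h x).det • v = B.mulVec (fderiv ℂ h x v) := by
    rw [← pJ_mulVec, Matrix.mulVec_mulVec, hB, Matrix.adjugate_mul, Matrix.smul_mulVec,
      Matrix.one_mulVec]
  have h5 : ‖(pJ h x).det‖ * ‖v‖ ≤ n * (n.factorial * M ^ n) * (M * ‖v‖ * ‖v‖) := by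
    rw [← norm_smul, h4]
    refine (mulVec_bound (by positivity) hBe _).trans ?_
    exact mul_le_mul_of_nonneg_left h3 (by positivity)
  have h6 : ‖(pJ h x).det‖ * ‖v‖ ≤ ((n * n.factorial : ℕ) * M ^ (n + 1) * ‖v‖) * ‖v‖ := by
    refine h5.trans (le_of_eq ?_)
    push_cast
    ring
  exact le_of_mul_le_mul_right h6 hv0

theorem cauchy0 {E F : Type*} [NormedAddCommGroup E] [NormedSpace ℂ E] [NormedAddCommGroup F]
    [NormedSpace ℂ F] {h : E → F} (hd : Differentiable ℂ h) {y : E} {r K : ℝ} (hr : 0 < r)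
    (hK : ∀ z ∈ closedBall y r, ‖h z‖ ≤ K) : ‖fderiv ℂ h y‖ ≤ K / r := by
  have hK0 : 0 ≤ K := (norm_nonneg _).trans (hK y (mem_closedBall_self hr.le))
  refine ContinuousLinearMap.opNorm_le_bound _ (by positivity) fun v => ?_
  by_cases hv : v = 0
  · simp [hv]
  have hv' : 0 < ‖v‖ := norm_pos_iff.2 hv
  have hg : ∀ s : ℂ, HasDerivAt (fun s : ℂ => h (y + s • v)) (fderiv ℂ h (y + s • v) v) s := by
    intro s
    have h1 : HasDerivAt (fun s : ℂ => y + s • v) v s := by
      simpa using ((hasDerivAt_id s).smul_const v).const_add y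
    exact (hd (y + s • v)).hasFDerivAt.comp_hasDerivAt s h1
  have hgd : Differentiable ℂ (fun s : ℂ => h (y + s • v)) := fun s => (hg s).differentiableAt
  have h1 := Complex.norm_deriv_le_of_forall_mem_sphere_norm_le (c := 0) (R := r / ‖v‖) (C := K)
    (f := fun s : ℂ => h (y + s • v)) (by positivity) hgd.diffContOnCl (by
      intro z hz
      apply hK
      rw [mem_sphere, dist_zero_right] at hz
      rw [mem_closedBall, dist_eq_norm, add_sub_cancel_left, norm_smul, hz]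
      rw [div_mul_cancel₀ _ hv'.ne'])
  rw [(hg 0).deriv, zero_smul, add_zero] at h1
  refine h1.trans (le_of_eq ?_)
  field_simp

theorem cauchy {n : ℕ} {h : Pt n → Pt n} {x : Pt n} {r K : ℝ} (hr : 0 < r)
    (hh : AnalyticOnNhd ℂ h univ) (hK : ∀ y ∈ ball x (3 * r), ‖h y‖ ≤ K) :
    (∀ y ∈ ball x r, ‖fderiv ℂ h y‖ ≤ K / r) ∧
    ∀ y ∈ ball x r, ‖fderiv ℂ h y - fderiv ℂ h x‖ ≤ K / r ^ 2 * ‖y - x‖ := by
  have hd : Differentiable ℂ h := fun z => (hh z (mem_univ _)).differentiableAt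
  have hd' : Differentiable ℂ (fderiv ℂ h) := fun z => ((hh.fderiv) z (mem_univ _)).differentiableAt
  have h1 : ∀ y ∈ ball x (2 * r), ‖fderiv ℂ h y‖ ≤ K / r := by
    intro y hy
    refine cauchy0 hd hr fun z hz => hK z ?_
    rw [mem_ball] at hy ⊢
    rw [mem_closedBall] at hz
    have := dist_triangle z y x
    linarith
  refine ⟨fun y hy => h1 y (ball_subset_ball (by linarith) hy), ?_⟩
  intro y hy
  refine Convex.norm_image_sub_le_of_norm_fderiv_le (𝕜 := ℂ) (s := ball x r)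
    (fun z _ => hd' z) (fun z hz => ?_) (convex_ball x r) (mem_ball_self hr) hy
  -- closed balls of radius slightly less than `r`
  have h2 : ∀ r' ∈ Ioo 0 r, ‖fderiv ℂ (fderiv ℂ h) z‖ ≤ K / r / r' := by
    intro r' hr'
    refine cauchy0 hd' hr'.1 fun w hw => h1 w ?_
    rw [mem_ball] at hz ⊢
    rw [mem_closedBall] at hw
    have := dist_triangle w z x
    linarith [hr'.2]
  have h3 : Tendsto (fun r' => K / r / r') (𝓝[<] r) (𝓝 (K / r / r)) := by
    apply Tendsto.mono_left _ nhdsWithin_le_nhds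
    exact (tendsto_const_nhds (x := K / r)).div tendsto_id hr.ne'
  have h4 : ∀ᶠ r' in 𝓝[<] r, ‖fderiv ℂ (fderiv ℂ h) z‖ ≤ K / r / r' := by
    filter_upwards [Ioo_mem_nhdsLT hr] with r' hr'
    exact h2 r' hr'
  have h5 := ge_of_tendsto h3 h4
  refine h5.trans (le_of_eq ?_)
  rw [div_div, sq]

theorem pack {n : ℕ} (T : Finset (Pt n)) {r η : ℝ} (hr : 0 ≤ r) (hη : 0 < η)
    (hT : ∀ x ∈ T, ‖x‖ ≤ r) (hsep : ∀ x ∈ T, ∀ y ∈ T, x ≠ y → η ≤ ‖x - y‖) :
    (T.card : ℝ) ≤ (4 * r / η + 3) ^ (2 * n) := by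
  classical
  set L : ℤ := ⌊-(2 * r / η)⌋ with hL
  set H : ℤ := ⌊2 * r / η⌋ with hH
  set q : Pt n → Fin n × Bool → ℤ := fun x p =>
    if p.2 then ⌊2 * (x p.1).re / η⌋ else ⌊2 * (x p.1).im / η⌋ with hq
  have hbox : ∀ x ∈ T, q x ∈ Fintype.piFinset fun _ : Fin n × Bool => Finset.Icc L H := by
    intro x hx
    rw [Fintype.mem_piFinset]
    have hxi : ∀ i, ‖x i‖ ≤ r := fun i => (norm_le_pi_norm x i).trans (hT x hx)
    have key : ∀ a : ℝ, |a| ≤ r → ⌊2 * a / η⌋ ∈ Finset.Icc L H := by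
      intro a ha
      rw [Finset.mem_Icc]
      have h1 := abs_le.1 ha
      constructor
      · apply Int.floor_le_floor
        rw [← neg_div]
        apply div_le_div_of_nonneg_right _ hη.le
        linarith
      · apply Int.floor_le_floor
        apply div_le_div_of_nonneg_right _ hη.le
        linarith
    rintro ⟨i, b⟩
    cases b
    · exact key _ ((Complex.abs_im_le_norm _).trans (hxi i))
    · exact key _ ((Complex.abs_re_le_norm _).trans (hxi i))
  have hinj : Set.InjOn q (T : Set (Pt n)) := by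
    intro x hx y hy hxy
    by_contra hne
    have h1 := hsep x hx y hy hne
    have h2 : ‖x - y‖ < η := by
      rw [pi_norm_lt_iff hη]
      intro i
      have hcoord : ∀ a b : ℝ, ⌊2 * a / η⌋ = ⌊2 * b / η⌋ → |a - b| < η / 2 := by
        intro a b hab
        have h3 := Int.abs_sub_lt_one_of_floor_eq_floor hab
        have h4 : 2 * a / η - 2 * b / η = (a - b) * (2 / η) := by ring
        rw [h4, abs_mul, abs_of_pos (by positivity : (0 : ℝ) < 2 / η)] at h3
        rw [lt_div_iff₀ (by norm_num : (0 : ℝ) < 2)]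
        have h5 : |a - b| * (2 / η) * η < 1 * η := mul_lt_mul_of_pos_right h3 hη
        have h6 : |a - b| * (2 / η) * η = |a - b| * 2 := by field_simp
        linarith
      have hre := hcoord (x i).re (y i).re (by
        have := congrFun hxy (i, true)
        simpa [hq] using this)
      have him := hcoord (x i).im (y i).im (by
        have := congrFun hxy (i, false)
        simpa [hq] using this)
      have h7 : ‖(x - y) i‖ ≤ |(x i).re - (y i).re| + |(x i).im - (y i).im| := by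
        have := Complex.norm_le_abs_re_add_abs_im ((x - y) i)
        simpa using this
      linarith
    linarith
  have h1 : T.card ≤ (Fintype.piFinset fun _ : Fin n × Bool => Finset.Icc L H).card :=
    Finset.card_le_card_of_injOn q hbox hinj
  rw [Fintype.card_piFinset, Finset.prod_const, Finset.card_univ, Fintype.card_prod,
    Fintype.card_fin, Fintype.card_bool, Int.card_Icc] at h1
  have h2 : ((H + 1 - L).toNat : ℝ) ≤ 4 * r / η + 3 := by
    have h3 : (H : ℝ) ≤ 2 * r / η := Int.floor_le _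
    have h4 : -(2 * r / η) - 1 < (L : ℝ) := by
      have := Int.lt_floor_add_one (-(2 * r / η))
      rw [← hL] at this
      linarith
    have h5 : ((H + 1 - L).toNat : ℤ) = max (H + 1 - L) 0 := Int.toNat_eq_max _
    have h6 : ((H + 1 - L).toNat : ℝ) = max ((H : ℝ) + 1 - L) 0 := by
      have : (((H + 1 - L).toNat : ℤ) : ℝ) = ((max (H + 1 - L) 0 : ℤ) : ℝ) := by rw [h5]
      rw [Int.cast_natCast] at this
      rw [this]
      push_cast
      rfl
    rw [h6]
    apply max_le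
    · have : 4 * r / η = 2 * r / η + 2 * r / η := by ring
      linarith
    · positivity
  calc (T.card : ℝ) ≤ (((H + 1 - L).toNat ^ (n * 2) : ℕ) : ℝ) := by exact_mod_cast h1
    _ = ((H + 1 - L).toNat : ℝ) ^ (2 * n) := by push_cast; rw [mul_comm n 2]
    _ ≤ (4 * r / η + 3) ^ (2 * n) := pow_le_pow_left₀ (Nat.cast_nonneg _) h2 _

end Pool.Agent.T2H96.XS
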